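import Pool.Agent.N30.MZ.Tw2
import Pool.Agent.W188.QS.Asm3
import Pool.Agent.W181.Mom.App4

set_option autoImplicit false

/-! Equidistribution of the argument of zeta with respect to the `2k`-th moment, modulo `π/N`, `N ≥ k - 1`. -/

open Complex MeasureTheory Set Filter Topology

namespace Pool.Agent.N30.MZ

open Pool.Agent.W188.QS

/-- all twisted moments -/
theorem tw (k : ℕ) (hk : 1 ≤ k) : ∃ K δ B T₀ : ℝ, 0 ≤ K ∧ 0 < δ ∧ δ ≤ 1 / 4 ∧ 4 ≤ B ∧ 100 ≤ T₀ ∧ ∀ T Δ : ℝ, T₀ ≤ T →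
    T ^ (1 - δ) ≤ Δ → B * Δ * √(Real.log T) ≤ T →
    ‖TW k (k - 1) T Δ - ((√Real.pi * Δ * (Real.log T ^ (2 * k - 1) / ((2 * k - 1).factorial : ℝ)) : ℝ) : ℂ)‖ ≤
      K * (Δ * Real.log T ^ (2 * k - 2)) ∧
    ‖TW k k T Δ - ((√Real.pi * Δ : ℝ) : ℂ)‖ ≤ K * T ^ (-(2 : ℝ)) ∧
    ∀ N : ℕ, k + 1 ≤ N → ‖TW k N T Δ‖ ≤ K * T ^ (-(2 : ℝ)) := by
  obtain ⟨K1, δ1, B1, T1, hK1, hδ1, -, hB1, hT1, h1⟩ := tw_main k hk
  obtain ⟨K2, B2, T2, hK2, hB2, hT2, h2⟩ := tw_eq k hk
  obtain ⟨K3, B3, T3, hK3, hB3, hT3, h3⟩ := tw_big k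
  obtain ⟨T4, hT4⟩ := eventually_atTop.1 ((isLittleO_log_rpow_atTop (by norm_num : (0:ℝ) < 1 / 8)).bound (by norm_num : (0:ℝ) < 1))
  refine ⟨max K1 (max K2 K3), min δ1 (1 / 4), max (max B1 B2) (max B3 4), max (max T1 T2) (max T3 T4),
    hK1.trans (le_max_left _ _), lt_min hδ1 (by norm_num), min_le_right _ _, (le_max_right _ _).trans (le_max_right _ _),
    hT1.trans ((le_max_left _ _).trans (le_max_left _ _)), fun T Δ hT hΔ hBT => ?_⟩
  have t1 : T1 ≤ T := ((le_max_left _ _).trans (le_max_left _ _)).trans hT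
  have t2 : T2 ≤ T := ((le_max_right _ _).trans (le_max_left _ _)).trans hT
  have t3 : T3 ≤ T := ((le_max_left _ _).trans (le_max_right _ _)).trans hT
  have t4 : T4 ≤ T := ((le_max_right _ _).trans (le_max_right _ _)).trans hT
  have hT100 : 100 ≤ T := hT1.trans t1
  have hT0 : 0 < T := by linarith
  have hL1 : 1 ≤ Real.log T := by
    rw [Real.le_log_iff_exp_le hT0]
    have := Real.exp_one_lt_d9
    linarith
  have hd1 : T ^ (1 - δ1) ≤ Δ := by
    refine le_trans ?_ hΔ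
    exact Real.rpow_le_rpow_of_exponent_le (by linarith) (by linarith [min_le_left δ1 (1 / 4)])
  have hd2 : T ^ (3 / 4 : ℝ) ≤ Δ := by
    refine le_trans ?_ hΔ
    exact Real.rpow_le_rpow_of_exponent_le (by linarith) (by linarith [min_le_right δ1 (1 / 4)])
  have hΔ1 : 1 ≤ Δ := (Real.one_le_rpow (by linarith) (by norm_num)).trans hd2
  have hΔ0 : 0 < Δ := by linarith
  have hLT : Real.log T ≤ Δ := by
    have := hT4 T t4
    rw [Real.norm_of_nonneg (by linarith), Real.norm_of_nonneg (by positivity), one_mul] at this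
    exact this.trans ((Real.rpow_le_rpow_of_exponent_le (by linarith) (by norm_num)).trans hd2)
  have hBB : ∀ b : ℝ, b ≤ max (max B1 B2) (max B3 4) → b * Δ * √(Real.log T) ≤ T := by
    intro b hb
    refine le_trans ?_ hBT
    apply mul_le_mul_of_nonneg_right _ (Real.sqrt_nonneg _)
    exact mul_le_mul_of_nonneg_right hb hΔ0.le
  refine ⟨?_, ?_, fun N hN => ?_⟩
  · refine (h1 T Δ t1 hd1 (hBB B1 ((le_max_left _ _).trans (le_max_left _ _)))).trans ?_
    apply mul_le_mul_of_nonneg_right (le_max_left _ _)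
    positivity
  · refine (h2 T Δ t2 hLT (hBB B2 ((le_max_right _ _).trans (le_max_left _ _)))).trans ?_
    apply mul_le_mul_of_nonneg_right ((le_max_left _ _).trans (le_max_right _ _))
    positivity
  · refine (h3 T Δ t3 hΔ1 (hBB B3 ((le_max_left _ _).trans (le_max_right _ _))) N hN).trans ?_
    apply mul_le_mul_of_nonneg_right ((le_max_right _ _).trans (le_max_right _ _))
    positivity

/-- `(T, Δ)` with `T → ∞` and `T^{1-δ} ≤ Δ ≤ T / (B √(log T))` -/
noncomputable def Rg (δ B : ℝ) : Filter (ℝ × ℝ) :=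
  comap Prod.fst atTop ⊓ 𝓟 {p | p.1 ^ (1 - δ) ≤ p.2 ∧ B * p.2 * √(Real.log p.1) ≤ p.1}

lemma ev_Rg {δ B : ℝ} {P : ℝ × ℝ → Prop} : (∀ᶠ p in Rg δ B, P p) ↔
    ∃ T₀ : ℝ, ∀ T Δ : ℝ, T₀ ≤ T → T ^ (1 - δ) ≤ Δ → B * Δ * √(Real.log T) ≤ T → P (T, Δ) := by
  unfold Rg
  rw [eventually_inf_principal, eventually_comap, eventually_atTop]
  constructor
  · rintro ⟨T₀, h⟩
    exact ⟨T₀, fun T Δ hT h1 h2 => h T hT (T, Δ) rfl ⟨h1, h2⟩⟩
  · rintro ⟨T₀, h⟩
    refine ⟨T₀, fun T hT p hp h1 => ?_⟩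
    obtain ⟨a, b⟩ := p
    simp only at hp
    subst hp
    exact h a b hT h1.1 h1.2

/-- the Gaussian moment -/
noncomputable def IM (k : ℕ) (T Δ : ℝ) : ℝ := ∫ t in (T / 2)..(3 * T / 2), Zk k t * gg T Δ t

lemma gg_cont (T Δ : ℝ) : Continuous (gg T Δ) := by
  unfold gg
  fun_prop

lemma Zk_nonneg (k : ℕ) (t : ℝ) : 0 ≤ Zk k t := by
  unfold Zk
  positivity

theorem IM_low (k : ℕ) (hk : 1 ≤ k) : ∃ c T₀ : ℝ, 0 < c ∧ 100 ≤ T₀ ∧ ∀ T Δ : ℝ, T₀ ≤ T → T ^ (1 / 2 : ℝ) ≤ Δ → 2 * Δ ≤ T →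
    c * (Δ * Real.log T ^ (k ^ 2)) ≤ IM k T Δ := by
  obtain ⟨c0, K0, hc0, _, hun⟩ := Pool.Agent.W181.Mom.uniform_real 1 one_pos (by
    rw [lt_div_iff₀ (Real.exp_pos 1)]
    have := Real.exp_one_lt_d9
    linarith)
  have hk1 : (1 : ℝ) ≤ k := by exact_mod_cast hk
  obtain ⟨B, hB, h2⟩ := hun k hk1 c0 (Or.inl le_rfl)
  have haF := Pool.Agent.H306R2.aF_pos (by linarith : (0:ℝ) < k)
  have hG : 0 < Real.Gamma ((k : ℝ) ^ 2 + 1) := Real.Gamma_pos_of_pos (by positivity)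
  obtain ⟨c1, hc1⟩ : ∃ c1, c1 = Pool.Agent.H306R2.aF (k : ℝ) *
    (c0 * (1 ^ ((k : ℝ) ^ 2) / Real.Gamma ((k : ℝ) ^ 2 + 1))) := ⟨_, rfl⟩
  have hc10 : 0 < c1 := by rw [hc1]; positivity
  obtain ⟨T1, hT1⟩ := eventually_atTop.1 h2
  obtain ⟨T2, hT2⟩ := eventually_atTop.1 ((isLittleO_log_rpow_atTop (by positivity : (0:ℝ) < 1 / (2 * B))).bound (by norm_num : (0:ℝ) < 1))
  refine ⟨Real.exp (-1) * (c1 * (1 / 2) ^ (k ^ 2)), max (max T1 T2) 100, by positivity, le_max_right _ _, fun T Δ hT hΔ hΔT => ?_⟩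
  have t1 : T1 ≤ T := ((le_max_left _ _).trans (le_max_left _ _)).trans hT
  have t2 : T2 ≤ T := ((le_max_right _ _).trans (le_max_left _ _)).trans hT
  have hT100 : 100 ≤ T := (le_max_right _ _).trans hT
  have hT0 : 0 < T := by linarith
  have hL1 : 1 ≤ Real.log T := by
    rw [Real.le_log_iff_exp_le hT0]
    have := Real.exp_one_lt_d9
    linarith
  have hΔ0 : 0 < Δ := lt_of_lt_of_le (by positivity) hΔ
  have hLB : Real.log T ^ B ≤ Δ := by
    have := hT2 T t2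
    rw [Real.norm_of_nonneg (by linarith), Real.norm_of_nonneg (by positivity), one_mul] at this
    calc Real.log T ^ B ≤ (T ^ (1 / (2 * B))) ^ B := Real.rpow_le_rpow (by linarith) this hB.le
      _ = T ^ (1 / 2 : ℝ) := by
          rw [← Real.rpow_mul hT0.le]
          congr 1
          field_simp
      _ ≤ Δ := hΔ
  have h3 := hT1 T t1 Δ hLB
  rw [← hc1] at h3
  have e1 : ∀ t : ℝ, ‖riemannZeta (1 / 2 + t * Complex.I)‖ ^ (2 * (k : ℝ)) = Zk k t := fun t => Zk_eq k t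
  simp only [e1] at h3
  have hlog : Real.log T / 2 ≤ Real.log Δ := by
    have := Real.log_le_log (by positivity) hΔ
    rw [Real.log_rpow hT0] at this
    linarith
  have h4 : Real.log T ^ (k ^ 2) * (1 / 2) ^ (k ^ 2) ≤ Real.log Δ ^ ((k : ℝ) ^ 2) := by
    rw [← mul_pow]
    have e2 : ((k : ℝ) ^ 2) = ((k ^ 2 : ℕ) : ℝ) := by push_cast; ring
    rw [e2, Real.rpow_natCast]
    exact pow_le_pow_left₀ (by positivity) (by linarith) _
  have hZc := Zk_cont k
  have hgc := gg_cont T Δ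
  have h5 : Real.exp (-1) * ∫ t in T..(T + Δ), Zk k t ≤ IM k T Δ := by
    unfold IM
    have h6 : ∫ t in T..(T + Δ), Zk k t * gg T Δ t ≤ ∫ t in (T / 2)..(3 * T / 2), Zk k t * gg T Δ t := by
      apply intervalIntegral.integral_mono_interval (by linarith) (by linarith) (by linarith)
      · exact Eventually.of_forall fun t => mul_nonneg (Zk_nonneg k t) (Real.exp_pos _).le
      · exact (hZc.mul hgc).intervalIntegrable _ _
    refine le_trans ?_ h6
    rw [← intervalIntegral.integral_const_mul]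
    apply intervalIntegral.integral_mono_on (by linarith) ((hZc.intervalIntegrable _ _).const_mul _)
      ((hZc.mul hgc).intervalIntegrable _ _)
    intro t ht
    rw [mul_comm]
    apply mul_le_mul_of_nonneg_left _ (Zk_nonneg k t)
    unfold gg
    apply Real.exp_le_exp.2
    have h7 : ((t - T) / Δ) ^ 2 ≤ 1 := by
      have h8 : 0 ≤ (t - T) / Δ := div_nonneg (by linarith [ht.1]) hΔ0.le
      have h9 : (t - T) / Δ ≤ 1 := by rw [div_le_one hΔ0]; linarith [ht.2]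
      nlinarith
    linarith
  refine le_trans ?_ h5
  have h6 : c1 * (Δ * (Real.log T ^ (k ^ 2) * (1 / 2) ^ (k ^ 2))) ≤ ∫ t in T..(T + Δ), Zk k t := by
    refine le_trans ?_ h3
    apply mul_le_mul_of_nonneg_left _ hc10.le
    exact mul_le_mul_of_nonneg_left h4 hΔ0.le
  calc Real.exp (-1) * (c1 * (1 / 2) ^ (k ^ 2)) * (Δ * Real.log T ^ (k ^ 2)) =
      Real.exp (-1) * (c1 * (Δ * (Real.log T ^ (k ^ 2) * (1 / 2) ^ (k ^ 2)))) := by ring
    _ ≤ _ := mul_le_mul_of_nonneg_left h6 (Real.exp_pos _).le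

/-- the argument of zeta divided by `π / N` -/
noncomputable def xx (N : ℕ) (t : ℝ) : ℝ := N * Complex.arg (riemannZeta (cp t)) / Real.pi

lemma zeta_cp_cont : Continuous fun t : ℝ => riemannZeta (cp t) := by
  rw [continuous_iff_continuousAt]
  intro t
  have h1 : cp t ≠ 1 := by
    intro h
    have := congrArg Complex.re h
    simp [cp] at this
  have h2 : ContinuousAt riemannZeta (cp t) := (differentiableAt_riemannZeta h1).continuousAt
  have h3 : ContinuousAt cp t := by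
    unfold cp
    fun_prop
  exact ContinuousAt.comp (f := cp) h2 h3

lemma xx_meas (N : ℕ) : Measurable (xx N) := by
  unfold xx
  exact ((Complex.measurable_arg.comp zeta_cp_cont.measurable).const_mul _).div_const _

lemma xxc_meas (N : ℕ) : Measurable fun t => ((xx N t : ℝ) : UnitAddCircle) :=
  AddCircle.measurable_mk'.comp (xx_meas N)

/-- the Fourier monomial at the argument is a power of `X` -/
lemma four_eq {k : ℕ} (hk : 1 ≤ k) (N m : ℕ) {t : ℝ} (ht : 1 ≤ t) :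
    ((Zk k t : ℝ) : ℂ) * fourier (m : ℤ) ((xx N t : ℝ) : UnitAddCircle) = ((Zk k t : ℝ) : ℂ) * (XX (cp t))⁻¹ ^ (N * m) := by
  by_cases hz : riemannZeta (cp t) = 0
  · have : Zk k t = 0 := by
      unfold Zk
      rw [hz, norm_zero, zero_pow (by omega)]
    rw [this]
    simp
  · congr 1
    obtain ⟨z, hzd⟩ : ∃ z, z = riemannZeta (cp t) := ⟨_, rfl⟩
    rw [← hzd] at hz
    have hX : ‖XX (cp t)‖ = 1 := a_line.2.1 t
    have hX0 : XX (cp t) ≠ 0 := by
      intro h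
      rw [h] at hX
      simp at hX
    have hfe : (starRingEnd ℂ) z = XX (cp t) * z := by rw [hzd]; exact a_line.2.2.1 t ht
    have hn0 : ‖z‖ ≠ 0 := norm_ne_zero_iff.2 hz
    have hpol : z = ‖z‖ * cexp (z.arg * I) := (Complex.norm_mul_exp_arg_mul_I z).symm
    have hcj : (starRingEnd ℂ) z = ‖z‖ * cexp (-(z.arg * I)) := by
      nth_rewrite 1 [hpol]
      rw [map_mul, Complex.conj_ofReal, ← Complex.exp_conj]
      congr 2
      rw [map_mul, Complex.conj_ofReal, Complex.conj_I]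
      ring
    have hinv : (XX (cp t))⁻¹ = cexp (2 * (z.arg * I)) := by
      have hcz : (starRingEnd ℂ) z ≠ 0 := by
        rw [Ne, map_eq_zero]; exact hz
      have e1 : (XX (cp t))⁻¹ = z / (starRingEnd ℂ) z := by
        rw [hfe]
        field_simp
      rw [e1, hcj, div_eq_iff]
      · nth_rewrite 1 [hpol]
        have e2 : cexp (2 * (z.arg * I)) * (‖z‖ * cexp (-(z.arg * I))) = ‖z‖ * (cexp (2 * (z.arg * I)) * cexp (-(z.arg * I))) := by ring
        rw [e2, ← Complex.exp_add]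
        congr 2
        ring
      · rw [← hcj]; exact hcz
    rw [hinv, ← Complex.exp_nat_mul, fourier_coe_apply]
    congr 1
    unfold xx
    rw [← hzd]
    push_cast
    have hpi : (Real.pi : ℂ) ≠ 0 := by exact_mod_cast Real.pi_ne_zero
    field_simp

/-- the weighted average of a function of the argument -/
noncomputable def LF (k N : ℕ) (f : UnitAddCircle → ℂ) (T Δ : ℝ) : ℂ :=
  ∫ t in (T / 2)..(3 * T / 2), ((Zk k t * gg T Δ t : ℝ) : ℂ) * f ((xx N t : ℝ) : UnitAddCircle)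

lemma LF_pos {k : ℕ} (hk : 1 ≤ k) (N m : ℕ) {T Δ : ℝ} (hT : 2 ≤ T) : LF k N (fourier (m : ℤ)) T Δ = TW k (N * m) T Δ := by
  unfold LF TW
  apply intervalIntegral.integral_congr
  intro t ht
  rw [uIcc_of_le (by linarith)] at ht
  have h := four_eq hk N m (t := t) (by linarith [ht.1])
  simp only
  push_cast
  linear_combination ((gg T Δ t : ℝ) : ℂ) * h

lemma LF_neg {k : ℕ} (hk : 1 ≤ k) (N m : ℕ) {T Δ : ℝ} (hT : 2 ≤ T) : LF k N (fourier (-(m : ℤ))) T Δ =
    (starRingEnd ℂ) (TW k (N * m) T Δ) := by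
  rw [← LF_pos hk N m hT]
  unfold LF
  rw [intervalIntegral.integral_of_le (by linarith), intervalIntegral.integral_of_le (by linarith), ← integral_conj]
  apply integral_congr_ae
  refine Eventually.of_forall fun t => ?_
  simp only [fourier_neg, map_mul, Complex.conj_ofReal]

end Pool.Agent.N30.MZ
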