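import Pool.Agent.N30.MZ.Sec

set_option autoImplicit false

/-! The exact quadrature formula: the sums over `N` lines and the twisted moments. -/

open Complex MeasureTheory Set Filter Topology

namespace Pool.Agent.N30.MZ

open Pool.Agent.W188.QS
open Pool.Agent.W571.QS (hor cauchy RR_rf PF PF_diff ww_diff one_sub_ww ww_norm_lt vert_cont fp_eq cp_eq rf_mk)
open Pool.Agent.W885.QS (norm_zeta_le_two gg_integrable gg_integral gg_pos GG_norm fp_re fp_im fp_cont GG_cont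
  zeta_cont zeta_bd bound_int bound_compl pw tail_pt)

theorem fold_exact (h1 : StBasic) (h2 : StLine) (c : ℂ) (k N : ℕ) (T Δ a b M : ℝ) (hc : ‖c‖ = 1) (hN : 1 ≤ N)
    (ha : 100 ≤ a) (hab : a < b) (hga : Good c N a) (hgb : Good c N b)
    (hMa : ∀ σ : ℝ, 1 / 2 ≤ σ → σ ≤ 4 → ‖FF k (⟨σ, a⟩ : ℂ) * GG T Δ (⟨σ, a⟩ : ℂ)‖ ≤ M)
    (hMb : ∀ σ : ℝ, 1 / 2 ≤ σ → σ ≤ 4 → ‖FF k (⟨σ, b⟩ : ℂ) * GG T Δ (⟨σ, b⟩ : ℂ)‖ ≤ M) :
    ‖RI (RR c k N T Δ) (-3) 4 a b - I * (((∫ t in a..b, Zk k t * gg T Δ t) + 2 * (∫ t in a..b, QQ c k N T Δ (fp t)).re : ℝ) : ℂ)‖ ≤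
    22 * M := by
  have hM0 : 0 ≤ M := (norm_nonneg _).trans (hMa 4 (by norm_num) (le_refl _))
  -- the four integrals
  have hA := hor h1 hc ha hga hMa
  have hB := hor h1 hc (by linarith : (100 : ℝ) ≤ b) hgb hMb
  have hq : (fun t : ℝ => QQ c k N T Δ (fp t)) = fun t : ℝ => QQ c k N T Δ (⟨4, t⟩ : ℂ) := by
    funext t
    rw [fp_eq]
  rw [hq]
  -- left side
  have hL : (∫ y in a..b, RR c k N T Δ (⟨-3, y⟩ : ℂ)) =
      -(starRingEnd ℂ) (∫ y in a..b, QQ c k N T Δ (⟨4, y⟩ : ℂ)) := by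
    rw [← intervalIntegral.intervalIntegral_conj, ← intervalIntegral.integral_neg]
    refine intervalIntegral.integral_congr (fun y hy => ?_)
    rw [Set.uIcc_of_le hab.le] at hy
    have h3 : (⟨-3, y⟩ : ℂ) = rf (⟨4, y⟩ : ℂ) := by
      rw [rf_mk]
      norm_num
    change RR c k N T Δ (⟨-3, y⟩ : ℂ) = -(starRingEnd ℂ) (QQ c k N T Δ (⟨4, y⟩ : ℂ))
    rw [h3]
    exact RR_rf h1 hc k N T Δ (s := ⟨4, y⟩) (by change (1 : ℝ) ≤ y; linarith [hy.1])
  -- right side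
  have hcP : ContinuousOn (fun y : ℝ => PF k T Δ (⟨4, y⟩ : ℂ)) (Set.uIcc a b) := by
    intro y hy
    rw [Set.uIcc_of_le hab.le] at hy
    refine ContinuousAt.continuousWithinAt ?_
    have h3 : ContinuousAt (PF k T Δ) (⟨4, y⟩ : ℂ) :=
      (PF_diff h1 k T Δ (by change (1 : ℝ) ≤ y; linarith [hy.1])).continuousAt
    exact ContinuousAt.comp (f := fun y : ℝ => (⟨4, y⟩ : ℂ)) h3 (vert_cont 4).continuousAt
  have hcQ : ContinuousOn (fun y : ℝ => QQ c k N T Δ (⟨4, y⟩ : ℂ)) (Set.uIcc a b) := by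
    intro y hy
    rw [Set.uIcc_of_le hab.le] at hy
    refine ContinuousAt.continuousWithinAt ?_
    have hy1 : (1 : ℝ) ≤ y := by linarith [hy.1]
    have h3 : ContinuousAt (QQ c k N T Δ) (⟨4, y⟩ : ℂ) := by
      have h4 := (PF_diff h1 k T Δ (s := ⟨4, y⟩) hy1).continuousAt
      have h5 := (ww_diff h1 c N (s := ⟨4, y⟩) hy1).continuousAt
      exact (h4.mul h5).div (continuousAt_const.sub h5)
        (one_sub_ww h2 hc hN (by linarith [hy.1]))
    exact ContinuousAt.comp (f := fun y : ℝ => (⟨4, y⟩ : ℂ)) h3 (vert_cont 4).continuousAt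
  have hR : (∫ y in a..b, RR c k N T Δ (⟨4, y⟩ : ℂ)) =
      (∫ y in a..b, PF k T Δ (⟨4, y⟩ : ℂ)) + ∫ y in a..b, QQ c k N T Δ (⟨4, y⟩ : ℂ) := by
    rw [← intervalIntegral.integral_add hcP.intervalIntegrable hcQ.intervalIntegrable]
    refine intervalIntegral.integral_congr (fun y hy => ?_)
    rw [Set.uIcc_of_le hab.le] at hy
    have h3 := one_sub_ww h2 hc hN (y := y) (by linarith [hy.1])
    change RR c k N T Δ (⟨4, y⟩ : ℂ) = PF k T Δ (⟨4, y⟩ : ℂ) + QQ c k N T Δ (⟨4, y⟩ : ℂ)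
    unfold RR QQ PF
    field_simp
    ring
  -- middle
  have hmid : (∫ y in a..b, PF k T Δ (⟨1 / 2, y⟩ : ℂ)) =
      ((∫ t in a..b, Zk k t * gg T Δ t : ℝ) : ℂ) := by
    rw [← intervalIntegral.integral_ofReal]
    refine intervalIntegral.integral_congr (fun y hy => ?_)
    rw [Set.uIcc_of_le hab.le] at hy
    obtain ⟨-, -, -, h4, h5, -⟩ := h2
    change PF k T Δ (⟨1 / 2, y⟩ : ℂ) = ((Zk k y * gg T Δ y : ℝ) : ℂ)
    unfold PF
    rw [← cp_eq, h4 y (by linarith [hy.1]) k, h5, Complex.ofReal_mul]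
  have hca := cauchy h1 k T Δ a b ha hab
  have hsm : ∀ e : ℝ, (∀ σ : ℝ, 1 / 2 ≤ σ → σ ≤ 4 →
      ‖FF k (⟨σ, e⟩ : ℂ) * GG T Δ (⟨σ, e⟩ : ℂ)‖ ≤ M) →
      ‖∫ x in (1 / 2 : ℝ)..4, PF k T Δ (⟨x, e⟩ : ℂ)‖ ≤ 7 / 2 * M := by
    intro e he
    have h3 : ∀ x ∈ Set.uIoc (1 / 2 : ℝ) 4, ‖PF k T Δ (⟨x, e⟩ : ℂ)‖ ≤ M := by
      intro x hx
      rw [Set.uIoc_of_le (by norm_num)] at hx
      exact he x hx.1.le hx.2
    have h4 := intervalIntegral.norm_integral_le_of_norm_le_const h3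
    have h5 : |(4 : ℝ) - 1 / 2| = 7 / 2 := by norm_num
    rw [h5] at h4
    linarith
  have hsa := hsm a hMa
  have hsb := hsm b hMb
  unfold RI
  rw [hL, hR, Complex.ofReal_add, ← hmid]
  generalize (∫ y in a..b, QQ c k N T Δ (⟨4, y⟩ : ℂ)) = q at *
  generalize (∫ x in (-3 : ℝ)..4, RR c k N T Δ (⟨x, a⟩ : ℂ)) = A at *
  generalize (∫ x in (-3 : ℝ)..4, RR c k N T Δ (⟨x, b⟩ : ℂ)) = B at *
  generalize (∫ x in (1 / 2 : ℝ)..4, PF k T Δ (⟨x, a⟩ : ℂ)) = A' at *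
  generalize (∫ x in (1 / 2 : ℝ)..4, PF k T Δ (⟨x, b⟩ : ℂ)) = B' at *
  generalize (∫ y in a..b, PF k T Δ (⟨4, y⟩ : ℂ)) = P at *
  generalize (∫ y in a..b, PF k T Δ (⟨1 / 2, y⟩ : ℂ)) = R at *
  have hre : ((2 * q.re : ℝ) : ℂ) = q + (starRingEnd ℂ) q := by
    rw [Complex.add_conj]
  have h6 : A - B + I * (P + q) - I * -(starRingEnd ℂ) q - I * (R + ((2 * q.re : ℝ) : ℂ)) =
      A - B + (B' - A') := by
    rw [hre]
    linear_combination hca
  rw [h6]
  have n4 := norm_add_le (A - B) (B' - A')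
  have n5 := norm_sub_le A B
  have n6 := norm_sub_le B' A'
  linarith

/-- the quadrature formula with the exact error term -/
theorem quad_exact (k N : ℕ) (hN : 1 ≤ N) : ∃ B T₀ : ℝ, 1 ≤ B ∧ 200 ≤ T₀ ∧ ∀ (c : ℂ) (T Δ : ℝ), ‖c‖ = 1 →
    T₀ ≤ T → 1 ≤ Δ → B * Δ * √(Real.log T) ≤ T →
    |(∑ᶠ t ∈ PP c N ∩ Ioo (T / 2) (3 * T / 2), rho k N t * gg T Δ t) - IM k T Δ -
      2 * (∫ t in (T / 2)..(3 * T / 2), QQ c k N T Δ (fp t)).re| ≤ T ^ (-(3 : ℝ)) := by
  have hbas := Pool.Agent.W22.QS.qs_basic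
  have hline := a_line
  have hres := Pool.Agent.W290.QS.qs_res hbas hline
  obtain ⟨hlam, _, _, hFF, hGG, _, _, _, ⟨K, hK0, hK⟩, hfin⟩ := a_line
  obtain ⟨B, T1, hB, hT1, hE⟩ := Pool.Agent.W723.QS.qs_edge a_line k 5
  obtain ⟨T2, hT2, hgood⟩ := Pool.Agent.W563.QS.Good.qs_good a_line N hN
  refine ⟨B, max (max T1 (2 * T2 + 300)) (8 * Real.exp K + 8), hB, ?_, ?_⟩
  · refine le_trans ?_ ((le_max_right _ _).trans (le_max_left _ _))
    linarith
  intro c T D hc hT hD hBD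
  have hTT1 : T1 ≤ T := ((le_max_left _ _).trans (le_max_left _ _)).trans hT
  have hTT2 : 2 * T2 + 300 ≤ T := ((le_max_right _ _).trans (le_max_left _ _)).trans hT
  have hTK : 8 * Real.exp K + 8 ≤ T := (le_max_right _ _).trans hT
  have hT0 : 0 < T := by linarith
  obtain ⟨a, ha1, ha2, hag⟩ := hgood c hc (T / 2) (by linarith)
  obtain ⟨b, hb1, hb2, hbg⟩ := hgood c hc (3 * T / 2 - 1) (by linarith)
  obtain ⟨a', ha'1, ha'2, ha'g⟩ := hgood c hc (T / 2 - 1) (by linarith)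
  obtain ⟨b', hb'1, hb'2, hb'g⟩ := hgood c hc (3 * T / 2) (by linarith)
  obtain ⟨m, hm⟩ : ∃ m, m = T ^ (-(5 : ℝ)) := ⟨_, rfl⟩
  have hm0 : 0 < m := by
    rw [hm]
    exact Real.rpow_pos_of_pos hT0 _
  have hedge := hE T D hTT1 hD hBD
  rw [← hm] at hedge
  obtain ⟨f, hf⟩ : ∃ f : ℝ → ℝ, f = fun t => Zk k t * gg T D t := ⟨_, rfl⟩
  have hfc : Continuous f := by
    rw [hf]
    exact (Zk_cont k).mul (gg_cont T D)
  have hggn : ∀ t, 0 ≤ gg T D t := fun t => (Real.exp_pos _).le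
  have hZk : ∀ t, 0 ≤ Zk k t := fun t => by
    unfold Zk
    positivity
  have hf0 : ∀ t, 0 ≤ f t := by
    intro t
    rw [hf]
    exact mul_nonneg (hZk t) (hggn t)
  have hfm : ∀ t, 1 ≤ t → (|t - T / 2| ≤ 1 ∨ |t - 3 * T / 2| ≤ 1) → f t ≤ m := by
    intro t ht1 ht
    have h5 := hedge t ht (1 / 2) (le_refl _) (by norm_num)
    rw [cp_mk', hFF t ht1 k, hGG T D t, ← Complex.ofReal_mul, Complex.norm_real,
      Real.norm_eq_abs] at h5
    rw [hf]
    exact (le_abs_self _).trans h5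
  -- the function `Q` on the line `Re s = 4`
  obtain ⟨Q, hQd⟩ : ∃ Q : ℝ → ℂ, Q = fun t => QQ c k N T D (fp t) := ⟨_, rfl⟩
  have hwle : ∀ t, T / 4 ≤ t → ‖ww c N (fp t)‖ ≤ 1 / 2 := by
    intro t ht
    have h1 : 2 * Real.exp K + 1 ≤ t := by linarith
    have hexpK : 0 < Real.exp K := Real.exp_pos K
    have h2 : 1 ≤ t := by linarith
    have h4 := (hK (fp t) (by rw [fp_re]; norm_num) (by rw [fp_re]) (by rw [fp_im]; exact h2)).1
    rw [fp_re, fp_im] at h4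
    have h7 : 2 ≤ ‖XX (fp t)‖ := by
      refine le_trans ?_ h4
      have h5 : t ≤ t ^ ((4 : ℝ) - 1 / 2) := by
        calc t = t ^ (1 : ℝ) := (Real.rpow_one t).symm
          _ ≤ _ := Real.rpow_le_rpow_of_exponent_le h2 (by norm_num)
      have h6 : Real.exp (-K) * (2 * Real.exp K) = 2 := by
        rw [Real.exp_neg]
        field_simp
      calc (2 : ℝ) = Real.exp (-K) * (2 * Real.exp K) := h6.symm
        _ ≤ Real.exp (-K) * t ^ ((4 : ℝ) - 1 / 2) := by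
            apply mul_le_mul_of_nonneg_left _ (Real.exp_pos _).le
            linarith
    have h8 : ‖ww c N (fp t)‖ = ‖XX (fp t)‖⁻¹ ^ N := by
      unfold ww
      rw [norm_mul, hc, one_mul, norm_pow, norm_inv]
    rw [h8]
    have h9 : ‖XX (fp t)‖⁻¹ ≤ 1 / 2 := by
      rw [inv_le_comm₀ (by linarith) (by norm_num)]
      simpa using h7
    calc ‖XX (fp t)‖⁻¹ ^ N ≤ ‖XX (fp t)‖⁻¹ ^ 1 :=
          pow_le_pow_of_le_one (by positivity) (by linarith) hN
      _ ≤ 1 / 2 := by rw [pow_one]; exact h9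
  have hQle : ∀ t, T / 4 ≤ t → ‖Q t‖ ≤ ‖FF k (fp t) * GG T D (fp t)‖ := by
    intro t ht
    have h3 := hwle t ht
    have h4 := norm_sub_norm_le (1 : ℂ) (ww c N (fp t))
    rw [norm_one] at h4
    rw [hQd]
    simp only
    unfold QQ
    rw [norm_div, norm_mul _ (ww c N (fp t)), mul_div_assoc]
    refine mul_le_of_le_one_right (norm_nonneg _) ?_
    exact (div_le_one (by linarith)).2 (by linarith)
  have hQc : ContinuousOn Q (Ici (T / 4)) := by
    intro y hy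
    have hy' : T / 4 ≤ y := hy
    refine ContinuousAt.continuousWithinAt ?_
    have hy1 : (1 : ℝ) ≤ y := by linarith
    have h3 : ContinuousAt (QQ c k N T D) (fp y) := by
      rw [fp_eq]
      have h4 := (PF_diff hbas k T D (s := ⟨4, y⟩) hy1).continuousAt
      have h5 := (ww_diff hbas c N (s := ⟨4, y⟩) hy1).continuousAt
      exact (h4.mul h5).div (continuousAt_const.sub h5)
        (one_sub_ww hline hc hN (by linarith))
    rw [hQd]
    exact ContinuousAt.comp (f := fp) h3 fp_cont.continuousAt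
  have hQi : ∀ u v : ℝ, T / 4 ≤ u → T / 4 ≤ v → IntervalIntegrable Q volume u v := by
    intro u v hu hv
    apply ContinuousOn.intervalIntegrable
    apply hQc.mono
    intro x hx
    have := hx.1
    exact le_trans (le_min hu hv) this
  have hQs : ∀ u v : ℝ, u ≤ v → v ≤ u + 1 → (∀ t ∈ Icc u v, T / 4 ≤ t) → (∀ t ∈ Icc u v, |t - T / 2| ≤ 1 ∨ |t - 3 * T / 2| ≤ 1) →
      |(∫ t in u..v, Q t).re| ≤ m := by
    intro u v huv hv h4 h5
    have h6 : ∀ t ∈ uIoc u v, ‖Q t‖ ≤ m := by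
      intro t ht
      rw [uIoc_of_le huv] at ht
      have ht' : t ∈ Icc u v := ⟨ht.1.le, ht.2⟩
      refine (hQle t (h4 t ht')).trans ?_
      have := hedge t (h5 t ht') 4 (by norm_num) le_rfl
      rw [← fp_mk]
      exact this
    have h7 := intervalIntegral.norm_integral_le_of_norm_le_const h6
    have h8 : |v - u| ≤ 1 := by rw [abs_le]; constructor <;> linarith
    have h9 : m * |v - u| ≤ m := by nlinarith [abs_nonneg (v - u)]
    exact (Complex.abs_re_le_norm _).trans (h7.trans h9)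
  -- the discrete sums
  have hterm : ∀ t ∈ PP c N, 0 ≤ rho k N t * gg T D t := by
    intro t ht
    have ht1 : 100 < t := ht.1
    have h5 : 1 ≤ lam t := (hlam t (by linarith)).2.2
    have h6 : 0 ≤ Zk k t / lam t := div_nonneg (hZk t) (by linarith)
    have h7 : 0 ≤ rho k N t := by
      unfold rho
      have := Real.pi_pos
      positivity
    exact mul_nonneg h7 (hggn t)
  have hSmono : ∀ u v u' v' : ℝ, u' ≤ u → v ≤ v' →
      ∑ᶠ t ∈ PP c N ∩ Ioo u v, rho k N t * gg T D t ≤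
        ∑ᶠ t ∈ PP c N ∩ Ioo u' v', rho k N t * gg T D t := by
    intro u v u' v' hu hv
    refine Pool.Agent.W975.QSQuad.finsum_mono _ _ _ ?_ ?_ ?_
    · intro t ht
      exact ⟨ht.1, lt_of_le_of_lt hu ht.2.1, lt_of_lt_of_le ht.2.2 hv⟩
    · refine (hfin c N hc hN v').subset ?_
      intro t ht
      exact ⟨ht.1, ht.2.2.le⟩
    · intro t ht
      exact hterm t ht.1
  have hmain : ∀ α β : ℝ, |α - T / 2| ≤ 1 → |β - 3 * T / 2| ≤ 1 → 100 ≤ α → α < β →
      Good c N α → Good c N β →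
      |(∑ᶠ t ∈ PP c N ∩ Ioo α β, rho k N t * gg T D t) - ((∫ t in α..β, f t) + 2 * (∫ t in α..β, Q t).re)| ≤
        22 * m := by
    intro α β hα hβ hα100 hαβ hgα hgβ
    have h5 := hres c k N T D α β hc hN (by linarith) hα100 hαβ hgα.1 hgβ.1
    have h6 := fold_exact hbas hline c k N T D α β m hc hN hα100 hαβ hgα hgβ
      (hedge α (Or.inl hα)) (hedge β (Or.inr hβ))
    rw [h5, ← mul_sub, norm_mul, norm_I, one_mul, ← Complex.ofReal_sub, Complex.norm_real,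
      Real.norm_eq_abs] at h6
    rw [hf, hQd]
    exact h6
  have hS1 := hmain a b (by rw [abs_le]; constructor <;> linarith)
    (by rw [abs_le]; constructor <;> linarith) (by linarith) (by linarith) hag hbg
  have hS2 := hmain a' b' (by rw [abs_le]; constructor <;> linarith)
    (by rw [abs_le]; constructor <;> linarith) (by linarith) (by linarith) ha'g hb'g
  have hm1 := hSmono a b (T / 2) (3 * T / 2) ha1 (by linarith)
  have hm2 := hSmono (T / 2) (3 * T / 2) a' b' (by linarith) hb'1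
  -- the integrals
  have hii : ∀ u v : ℝ, IntervalIntegrable f volume u v := fun u v =>
    hfc.intervalIntegrable u v
  have i1 := Pool.Agent.W975.QSQuad.small f hfc a' (T / 2) m (by linarith) (by linarith) (fun t _ => hf0 t)
    (fun t ht => hfm t (by linarith [ht.1]) (Or.inl (by
      rw [abs_le]; constructor <;> linarith [ht.1, ht.2])))
  have i2 := Pool.Agent.W975.QSQuad.small f hfc (T / 2) a m (by linarith) (by linarith) (fun t _ => hf0 t)
    (fun t ht => hfm t (by linarith [ht.1]) (Or.inl (by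
      rw [abs_le]; constructor <;> linarith [ht.1, ht.2])))
  have i3 := Pool.Agent.W975.QSQuad.small f hfc b (3 * T / 2) m (by linarith) (by linarith) (fun t _ => hf0 t)
    (fun t ht => hfm t (by linarith [ht.1]) (Or.inr (by
      rw [abs_le]; constructor <;> linarith [ht.1, ht.2])))
  have i4 := Pool.Agent.W975.QSQuad.small f hfc (3 * T / 2) b' m (by linarith) (by linarith) (fun t _ => hf0 t)
    (fun t ht => hfm t (by linarith [ht.1]) (Or.inr (by
      rw [abs_le]; constructor <;> linarith [ht.1, ht.2])))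
  have k1 := hQs a' (T / 2) (by linarith) (by linarith) (fun t ht => by linarith [ht.1])
    (fun t ht => Or.inl (by rw [abs_le]; constructor <;> linarith [ht.1, ht.2]))
  have k2 := hQs (T / 2) a (by linarith) (by linarith) (fun t ht => by linarith [ht.1])
    (fun t ht => Or.inl (by rw [abs_le]; constructor <;> linarith [ht.1, ht.2]))
  have k3 := hQs b (3 * T / 2) (by linarith) (by linarith) (fun t ht => by linarith [ht.1])
    (fun t ht => Or.inr (by rw [abs_le]; constructor <;> linarith [ht.1, ht.2]))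
  have k4 := hQs (3 * T / 2) b' (by linarith) (by linarith) (fun t ht => by linarith [ht.1])
    (fun t ht => Or.inr (by rw [abs_le]; constructor <;> linarith [ht.1, ht.2]))
  have j1 : (∫ t in (T / 2)..(3 * T / 2), f t) = (∫ t in (T / 2)..a, f t) +
      (∫ t in a..b, f t) + ∫ t in b..(3 * T / 2), f t := by
    rw [intervalIntegral.integral_add_adjacent_intervals (hii _ _) (hii _ _),
      intervalIntegral.integral_add_adjacent_intervals (hii _ _) (hii _ _)]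
  have j2 : (∫ t in a'..b', f t) = (∫ t in a'..(T / 2), f t) +
      (∫ t in (T / 2)..(3 * T / 2), f t) + ∫ t in (3 * T / 2)..b', f t := by
    rw [intervalIntegral.integral_add_adjacent_intervals (hii _ _) (hii _ _),
      intervalIntegral.integral_add_adjacent_intervals (hii _ _) (hii _ _)]
  have l1 : (∫ t in (T / 2)..(3 * T / 2), Q t).re = (∫ t in (T / 2)..a, Q t).re +
      (∫ t in a..b, Q t).re + (∫ t in b..(3 * T / 2), Q t).re := by
    rw [← Complex.add_re, ← Complex.add_re, intervalIntegral.integral_add_adjacent_intervals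
      (hQi _ _ (by linarith) (by linarith)) (hQi _ _ (by linarith) (by linarith)),
      intervalIntegral.integral_add_adjacent_intervals (hQi _ _ (by linarith) (by linarith)) (hQi _ _ (by linarith) (by linarith))]
  have l2 : (∫ t in a'..b', Q t).re = (∫ t in a'..(T / 2), Q t).re +
      (∫ t in (T / 2)..(3 * T / 2), Q t).re + (∫ t in (3 * T / 2)..b', Q t).re := by
    rw [← Complex.add_re, ← Complex.add_re, intervalIntegral.integral_add_adjacent_intervals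
      (hQi _ _ (by linarith) (by linarith)) (hQi _ _ (by linarith) (by linarith)),
      intervalIntegral.integral_add_adjacent_intervals (hQi _ _ (by linarith) (by linarith)) (hQi _ _ (by linarith) (by linarith))]
  have hlast : 32 * m ≤ T ^ (-(3 : ℝ)) := by
    have e : T ^ (-(3 : ℝ)) = m * T ^ 2 := by
      rw [hm]
      have e2 : T ^ 2 = T ^ (2 : ℝ) := by
        exact_mod_cast (Real.rpow_natCast T 2).symm
      rw [e2, ← Real.rpow_add hT0]
      norm_num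
    rw [e]
    have h5 : (32 : ℝ) ≤ T ^ 2 := by nlinarith
    nlinarith
  have hfin1 : IM k T D = ∫ t in (T / 2)..(3 * T / 2), f t := by rw [hf]; rfl
  have hfin2 : (∫ t in (T / 2)..(3 * T / 2), QQ c k N T D (fp t)) = ∫ t in (T / 2)..(3 * T / 2), Q t := by rw [hQd]
  rw [hfin1, hfin2, abs_le]
  rw [abs_le] at hS1 hS2 k1 k2 k3 k4
  obtain ⟨i1a, i1b⟩ := i1
  obtain ⟨i2a, i2b⟩ := i2
  obtain ⟨i3a, i3b⟩ := i3
  obtain ⟨i4a, i4b⟩ := i4
  constructor
  · linarith [hS1.1, k2.1, k2.2, k3.1, k3.2]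
  · linarith [hS2.2, k1.1, k1.2, k4.1, k4.2]

/-- **the exact formula**: the sum over `N` lines is the moment plus the twisted moments of orders `N, 2N, …` -/
theorem aliasing (k N : ℕ) (hk : 1 ≤ k) (hN : 1 ≤ N) : ∃ C B T₀ : ℝ, 0 ≤ C ∧ 1 ≤ B ∧ 200 ≤ T₀ ∧ ∀ (c : ℂ) (T Δ : ℝ), ‖c‖ = 1 →
    T₀ ≤ T → 1 ≤ Δ → B * Δ * √(Real.log T) ≤ T →
    |(∑ᶠ t ∈ PP c N ∩ Ioo (T / 2) (3 * T / 2), rho k N t * gg T Δ t) - IM k T Δ -
      2 * (∑ m ∈ Finset.Icc 1 k, c ^ m * TW k (N * m) T Δ).re| ≤ C * T ^ (-(2 : ℝ)) := by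
  obtain ⟨B1, T1, hB1, hT1, hq⟩ := quad_exact k N hN
  obtain ⟨B2, T2, hB2, hT2, hs⟩ := shift k 3
  obtain ⟨-, -, -, -, -, -, -, -, ⟨K, hK0, hK⟩, -⟩ := a_line
  obtain ⟨E, hE⟩ : ∃ E, E = Real.exp (49 / 4) := ⟨_, rfl⟩
  have hE0 : 0 < E := by rw [hE]; exact Real.exp_pos _
  obtain ⟨M, hM⟩ : ∃ M, M = 2 * 4 ^ k * (Real.exp K * 2 ^ (7 / 2 : ℝ)) * E := ⟨_, rfl⟩
  have hM0 : 0 < M := by rw [hM]; positivity
  refine ⟨1 + 2 * (7 * k + M * √Real.pi), max B1 B2, max (max T1 T2) (8 * Real.exp K + 8), by positivity, hB1.trans (le_max_left _ _),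
    hT1.trans ((le_max_left _ _).trans (le_max_left _ _)), fun c T Δ hc hT hΔ hBT => ?_⟩
  have t1 : T1 ≤ T := ((le_max_left _ _).trans (le_max_left _ _)).trans hT
  have t2 : T2 ≤ T := ((le_max_right _ _).trans (le_max_left _ _)).trans hT
  have hTK : 8 * Real.exp K + 8 ≤ T := (le_max_right _ _).trans hT
  have hT200 : 200 ≤ T := hT1.trans t1
  have hT0 : 0 < T := by linarith
  have hΔ0 : 0 < Δ := by linarith
  have hBB : ∀ b : ℝ, b ≤ max B1 B2 → b * Δ * √(Real.log T) ≤ T := by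
    intro b hb
    refine le_trans ?_ hBT
    apply mul_le_mul_of_nonneg_right _ (Real.sqrt_nonneg _)
    exact mul_le_mul_of_nonneg_right hb hΔ0.le
  have hL1 : 1 ≤ Real.log T := by
    rw [Real.le_log_iff_exp_le hT0]
    have := Real.exp_one_lt_d9
    linarith
  have hΔT : Δ ≤ T := by
    have h2 : 1 ≤ √(Real.log T) := by rw [Real.one_le_sqrt]; exact hL1
    have h3 : 1 * Δ * 1 ≤ B1 * Δ * √(Real.log T) := by
      apply mul_le_mul (mul_le_mul_of_nonneg_right hB1 (by linarith)) h2 (by norm_num) (by positivity)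
    linarith [hBB B1 (le_max_left _ _)]
  have h1 := hq c T Δ hc t1 hΔ (hBB B1 (le_max_left _ _))
  have h2 := fun M => hs T Δ t2 hΔ (hBB B2 (le_max_right _ _)) M
  -- facts on the interval
  have hab : T / 2 ≤ 3 * T / 2 := by linarith
  have hX2 : ∀ t ∈ Icc (T / 2) (3 * T / 2), 2 ≤ ‖XX (fp t)‖ ∧ Real.exp (-K) * t ^ (7 / 2 : ℝ) ≤ ‖XX (fp t)‖ := by
    intro t ht
    have h1 : 2 * Real.exp K + 1 ≤ t := by linarith [ht.1]
    have hexpK : 0 < Real.exp K := Real.exp_pos K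
    have h2 : 1 ≤ t := by linarith
    have h4 := (hK (fp t) (by rw [fp_re]; norm_num) (by rw [fp_re]) (by rw [fp_im]; exact h2)).1
    rw [fp_re, fp_im] at h4
    norm_num at h4
    refine ⟨?_, by norm_num; exact h4⟩
    refine le_trans ?_ h4
    have h5 : t ≤ t ^ ((7 : ℝ) / 2) := by
      calc t = t ^ (1 : ℝ) := (Real.rpow_one t).symm
        _ ≤ _ := Real.rpow_le_rpow_of_exponent_le h2 (by norm_num)
    have h6 : Real.exp (-K) * (2 * Real.exp K) = 2 := by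
      rw [Real.exp_neg]
      field_simp
    calc (2 : ℝ) = Real.exp (-K) * (2 * Real.exp K) := h6.symm
      _ ≤ Real.exp (-K) * t ^ ((7 : ℝ) / 2) := by
          apply mul_le_mul_of_nonneg_left _ (Real.exp_pos _).le
          linarith
  have hwn : ∀ t, ‖ww c N (fp t)‖ = ‖XX (fp t)‖⁻¹ ^ N := by
    intro t
    unfold ww
    rw [norm_mul, hc, one_mul, norm_pow, norm_inv]
  have hwle : ∀ t ∈ Icc (T / 2) (3 * T / 2), ‖ww c N (fp t)‖ ≤ 1 / 2 := by
    intro t ht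
    rw [hwn]
    have h1 := (hX2 t ht).1
    have h2 : ‖XX (fp t)‖⁻¹ ≤ 1 / 2 := by
      rw [inv_le_comm₀ (by linarith) (by norm_num)]
      simpa using h1
    calc ‖XX (fp t)‖⁻¹ ^ N ≤ ‖XX (fp t)‖⁻¹ ^ 1 :=
          pow_le_pow_of_le_one (by positivity) (by linarith) hN
      _ ≤ 1 / 2 := by rw [pow_one]; exact h2
  have hden : ∀ t ∈ Icc (T / 2) (3 * T / 2), 1 / 2 ≤ ‖1 - ww c N (fp t)‖ := by
    intro t ht
    have h1 := norm_sub_norm_le (1 : ℂ) (ww c N (fp t))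
    rw [norm_one] at h1
    linarith [hwle t ht]
  have hden0 : ∀ t ∈ Icc (T / 2) (3 * T / 2), 1 - ww c N (fp t) ≠ 0 := by
    intro t ht h0
    have := hden t ht
    rw [h0, norm_zero] at this
    norm_num at this
  -- the finite geometric sum
  obtain ⟨R, hR⟩ : ∃ R : ℝ → ℂ, R = fun t => FF k (fp t) * GG T Δ (fp t) * ww c N (fp t) ^ (k + 1) / (1 - ww c N (fp t)) := ⟨_, rfl⟩
  have hdec : ∀ t ∈ Icc (T / 2) (3 * T / 2), QQ c k N T Δ (fp t) = (∑ m ∈ Finset.Icc 1 k, c ^ m * HH k (N * m) T Δ (fp t)) + R t := by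
    intro t ht
    have h3 := hden0 t ht
    obtain ⟨w, hw⟩ : ∃ w, w = ww c N (fp t) := ⟨_, rfl⟩
    have h4 : ∀ m ∈ Finset.Icc 1 k, c ^ m * HH k (N * m) T Δ (fp t) = FF k (fp t) * GG T Δ (fp t) * w ^ m := by
      intro m _
      unfold HH
      rw [hw]
      unfold ww
      rw [mul_pow, ← pow_mul]
      ring
    rw [Finset.sum_congr rfl h4, ← Finset.mul_sum, hR]
    simp only
    unfold QQ
    rw [← hw] at h3 ⊢
    have h5 : (∑ m ∈ Finset.Icc 1 k, w ^ m) * (1 - w) = w - w ^ (k + 1) := by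
      have h6 : ∀ n : ℕ, (∑ m ∈ Finset.Icc 1 n, w ^ m) * (1 - w) = w - w ^ (n + 1) := by
        intro n
        induction n with
        | zero => simp
        | succ n ih =>
          rw [Finset.sum_Icc_succ_top (by omega), add_mul, ih]
          ring
      exact h6 k
    field_simp
    linear_combination (-(FF k (fp t) * GG T Δ (fp t))) * h5
  have hRb : ∀ t ∈ Icc (T / 2) (3 * T / 2), ‖R t‖ ≤ M * T ^ (-(7 / 2 : ℝ)) * gg T Δ t := by
    intro t ht
    rw [hR]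
    simp only
    have hX1 : 1 ≤ ‖XX (fp t)‖ := by linarith [(hX2 t ht).1]
    rw [norm_div, norm_mul, norm_mul, norm_pow, hwn, div_le_iff₀ (by linarith [hden t ht])]
    unfold FF
    rw [norm_mul, norm_pow, norm_pow]
    have h3 : ‖riemannZeta (fp t)‖ ^ (2 * k) ≤ 4 ^ k := by
      calc _ ≤ (2 : ℝ) ^ (2 * k) := pow_le_pow_left₀ (norm_nonneg _) (zeta_bd t) _
        _ = 4 ^ k := by rw [pow_mul]; norm_num
    have h4 : ‖XX (fp t)‖ ^ k * (‖XX (fp t)‖⁻¹ ^ N) ^ (k + 1) ≤ (Real.exp K * 2 ^ (7 / 2 : ℝ)) * T ^ (-(7 / 2 : ℝ)) := by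
      have hx0 : ‖XX (fp t)‖ ≠ 0 := by positivity
      obtain ⟨d, hd⟩ : ∃ d, N * (k + 1) = k + 1 + d := Nat.exists_eq_add_of_le (Nat.le_mul_of_pos_left _ hN)
      have h5 : ‖XX (fp t)‖ ^ k * (‖XX (fp t)‖⁻¹ ^ N) ^ (k + 1) ≤ ‖XX (fp t)‖⁻¹ := by
        have e : ‖XX (fp t)‖ ^ k * (‖XX (fp t)‖⁻¹ ^ N) ^ (k + 1) = ‖XX (fp t)‖⁻¹ * ‖XX (fp t)‖⁻¹ ^ d := by
          rw [← pow_mul, hd, pow_add, pow_add, pow_one]
          calc ‖XX (fp t)‖ ^ k * (‖XX (fp t)‖⁻¹ ^ k * ‖XX (fp t)‖⁻¹ * ‖XX (fp t)‖⁻¹ ^ d) =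
              (‖XX (fp t)‖ * ‖XX (fp t)‖⁻¹) ^ k * ‖XX (fp t)‖⁻¹ * ‖XX (fp t)‖⁻¹ ^ d := by rw [mul_pow]; ring
            _ = _ := by rw [mul_inv_cancel₀ hx0, one_pow, one_mul]
        rw [e]
        exact mul_le_of_le_one_right (by positivity) (pow_le_one₀ (by positivity) (inv_le_one_of_one_le₀ hX1))
      refine h5.trans ?_
      have ht1 : 1 ≤ t := by linarith [ht.1]
      have h6 : 0 < Real.exp (-K) * t ^ (7 / 2 : ℝ) := by positivity
      refine (inv_anti₀ h6 (hX2 t ht).2).trans ?_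
      rw [mul_inv, Real.exp_neg, inv_inv, mul_assoc]
      apply mul_le_mul_of_nonneg_left _ (Real.exp_pos _).le
      rw [← Real.rpow_neg (by linarith)]
      have h7 : t ^ (-(7 / 2 : ℝ)) ≤ (T / 2) ^ (-(7 / 2 : ℝ)) := by
        rw [Real.rpow_neg (by linarith), Real.rpow_neg (by positivity)]
        apply inv_anti₀ (by positivity)
        exact Real.rpow_le_rpow (by positivity) ht.1 (by norm_num)
      refine h7.trans ?_
      rw [Real.div_rpow hT0.le (by norm_num), Real.rpow_neg (by norm_num : (0:ℝ) ≤ 2), div_inv_eq_mul, mul_comm]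
    have h5 := GG_norm T Δ t hΔ
    rw [← hE] at h5
    have hg := gg_pos T Δ t
    calc ‖riemannZeta (fp t)‖ ^ (2 * k) * ‖XX (fp t)‖ ^ k * ‖GG T Δ (fp t)‖ * (‖XX (fp t)‖⁻¹ ^ N) ^ (k + 1) =
        ‖riemannZeta (fp t)‖ ^ (2 * k) * (‖XX (fp t)‖ ^ k * (‖XX (fp t)‖⁻¹ ^ N) ^ (k + 1)) * ‖GG T Δ (fp t)‖ := by ring
      _ ≤ 4 ^ k * ((Real.exp K * 2 ^ (7 / 2 : ℝ)) * T ^ (-(7 / 2 : ℝ))) * (E * gg T Δ t) := by
          apply mul_le_mul (mul_le_mul h3 h4 (by positivity) (by positivity)) h5 (norm_nonneg _) (by positivity)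
      _ = M * T ^ (-(7 / 2 : ℝ)) * gg T Δ t * (1 / 2) := by rw [hM]; ring
      _ ≤ M * T ^ (-(7 / 2 : ℝ)) * gg T Δ t * ‖1 - ww c N (fp t)‖ := by
          apply mul_le_mul_of_nonneg_left (hden t ht) (by positivity)
  have hHi : ∀ m : ℕ, IntervalIntegrable (fun t => HH k m T Δ (fp t)) volume (T / 2) (3 * T / 2) := by
    intro m
    apply ContinuousOn.intervalIntegrable
    rw [uIcc_of_le hab]
    intro t ht
    have h3 : ContinuousAt (HH k m T Δ) (fp t) := (HH_diff k m T Δ (by rw [fp_im]; linarith [ht.1])).continuousAt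
    exact (ContinuousAt.comp (f := fp) h3 fp_cont.continuousAt).continuousWithinAt
  have hQi : IntervalIntegrable (fun t => QQ c k N T Δ (fp t)) volume (T / 2) (3 * T / 2) := by
    apply ContinuousOn.intervalIntegrable
    rw [uIcc_of_le hab]
    intro y hy
    have hy1 : (1 : ℝ) ≤ y := by linarith [hy.1]
    have h3 : ContinuousAt (QQ c k N T Δ) (fp y) := by
      rw [fp_eq]
      have h4 := (PF_diff Pool.Agent.W22.QS.qs_basic k T Δ (s := ⟨4, y⟩) hy1).continuousAt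
      have h5 := (ww_diff Pool.Agent.W22.QS.qs_basic c N (s := ⟨4, y⟩) hy1).continuousAt
      exact (h4.mul h5).div (continuousAt_const.sub h5)
        (one_sub_ww a_line hc hN (by linarith [hy.1]))
    exact (ContinuousAt.comp (f := fp) h3 fp_cont.continuousAt).continuousWithinAt
  have hsumi : IntervalIntegrable (fun t => ∑ m ∈ Finset.Icc 1 k, c ^ m * HH k (N * m) T Δ (fp t)) volume (T / 2) (3 * T / 2) := by
    have := IntervalIntegrable.sum (Finset.Icc 1 k) (f := fun m t => c ^ m * HH k (N * m) T Δ (fp t)) (μ := volume) (a := T / 2) (b := 3 * T / 2)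
      (fun m _ => (hHi (N * m)).const_mul _)
    refine this.congr ?_
    intro t _
    simp only [Finset.sum_apply]
  have hRi : (∫ t in (T / 2)..(3 * T / 2), QQ c k N T Δ (fp t)) = (∑ m ∈ Finset.Icc 1 k, c ^ m * ∫ t in (T / 2)..(3 * T / 2), HH k (N * m) T Δ (fp t)) +
      ∫ t in (T / 2)..(3 * T / 2), R t := by
    have e1 : (∫ t in (T / 2)..(3 * T / 2), R t) = ∫ t in (T / 2)..(3 * T / 2), (QQ c k N T Δ (fp t) - ∑ m ∈ Finset.Icc 1 k, c ^ m * HH k (N * m) T Δ (fp t)) := by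
      apply intervalIntegral.integral_congr
      intro t ht
      rw [uIcc_of_le hab] at ht
      simp only
      rw [hdec t ht]
      ring
    rw [e1, intervalIntegral.integral_sub hQi hsumi, intervalIntegral.integral_finset_sum (fun m _ => (hHi (N * m)).const_mul _)]
    simp only [intervalIntegral.integral_const_mul]
    ring
  have hRn : ‖∫ t in (T / 2)..(3 * T / 2), R t‖ ≤ M * T ^ (-(7 / 2 : ℝ)) * (√Real.pi * Δ) :=
    bound_int _ _ _ T Δ _ hab hΔ0 (by positivity) hRb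
  have hdiff : ‖(∑ m ∈ Finset.Icc 1 k, c ^ m * TW k (N * m) T Δ) - ∫ t in (T / 2)..(3 * T / 2), QQ c k N T Δ (fp t)‖ ≤
      k * (7 * T ^ (-(3 : ℝ))) + M * T ^ (-(7 / 2 : ℝ)) * (√Real.pi * Δ) := by
    rw [hRi]
    have e : (∑ m ∈ Finset.Icc 1 k, c ^ m * TW k (N * m) T Δ) -
        ((∑ m ∈ Finset.Icc 1 k, c ^ m * ∫ t in (T / 2)..(3 * T / 2), HH k (N * m) T Δ (fp t)) + ∫ t in (T / 2)..(3 * T / 2), R t) =
        (∑ m ∈ Finset.Icc 1 k, c ^ m * (TW k (N * m) T Δ - ∫ t in (T / 2)..(3 * T / 2), HH k (N * m) T Δ (fp t))) - ∫ t in (T / 2)..(3 * T / 2), R t := by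
      simp only [mul_sub, Finset.sum_sub_distrib]
      ring
    rw [e]
    refine (norm_sub_le _ _).trans (add_le_add ?_ hRn)
    refine (norm_sum_le _ _).trans ?_
    calc ∑ m ∈ Finset.Icc 1 k, ‖c ^ m * (TW k (N * m) T Δ - ∫ t in (T / 2)..(3 * T / 2), HH k (N * m) T Δ (fp t))‖ ≤
        ∑ m ∈ Finset.Icc 1 k, 7 * T ^ (-(3 : ℝ)) := by
          apply Finset.sum_le_sum
          intro m _
          rw [norm_mul, norm_pow, hc, one_pow, one_mul]
          exact h2 (N * m)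
      _ = _ := by rw [Finset.sum_const, Nat.card_Icc, nsmul_eq_mul]; simp
  have hre := (Complex.abs_re_le_norm _).trans hdiff
  rw [Complex.sub_re] at hre
  have p1 : T ^ (-(3 : ℝ)) ≤ T ^ (-(2 : ℝ)) := Real.rpow_le_rpow_of_exponent_le (by linarith) (by norm_num)
  have p2 : T ^ (-(7 / 2 : ℝ)) * Δ ≤ T ^ (-(2 : ℝ)) := by
    calc T ^ (-(7 / 2 : ℝ)) * Δ ≤ T ^ (-(7 / 2 : ℝ)) * T ^ (1 : ℝ) := by
          apply mul_le_mul_of_nonneg_left _ (by positivity)
          rw [Real.rpow_one]; exact hΔT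
      _ = T ^ (-(5 / 2 : ℝ)) := by rw [← Real.rpow_add hT0]; norm_num
      _ ≤ _ := Real.rpow_le_rpow_of_exponent_le (by linarith) (by norm_num)
  obtain ⟨x, hx⟩ : ∃ x, x = (∑ m ∈ Finset.Icc 1 k, c ^ m * TW k (N * m) T Δ).re := ⟨_, rfl⟩
  obtain ⟨y, hy⟩ : ∃ y, y = (∫ t in (T / 2)..(3 * T / 2), QQ c k N T Δ (fp t)).re := ⟨_, rfl⟩
  obtain ⟨S, hS⟩ : ∃ S, S = ∑ᶠ t ∈ PP c N ∩ Ioo (T / 2) (3 * T / 2), rho k N t * gg T Δ t := ⟨_, rfl⟩
  rw [← hx, ← hy] at hre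
  rw [← hS, ← hy] at h1
  rw [← hS, ← hx]
  have hk0 : (0 : ℝ) ≤ k := Nat.cast_nonneg k
  have q1 : k * (7 * T ^ (-(3 : ℝ))) ≤ 7 * k * T ^ (-(2 : ℝ)) := by nlinarith
  have q2 : M * T ^ (-(7 / 2 : ℝ)) * (√Real.pi * Δ) ≤ M * √Real.pi * T ^ (-(2 : ℝ)) := by
    calc M * T ^ (-(7 / 2 : ℝ)) * (√Real.pi * Δ) = M * √Real.pi * (T ^ (-(7 / 2 : ℝ)) * Δ) := by ring
      _ ≤ _ := mul_le_mul_of_nonneg_left p2 (by positivity)
  rw [abs_le] at h1 hre ⊢
  constructor <;> nlinarith [h1.1, h1.2, hre.1, hre.2]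

end Pool.Agent.N30.MZ
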