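import Pool.Agent.N30.MZ.Weyl

set_option autoImplicit false

/-! The share of an arc. -/

open Complex MeasureTheory Set Filter Topology AddCircle

namespace Pool.Agent.N30.MZ

open Pool.Agent.W188.QS

/-- real version of the average -/
noncomputable def LR (k N : ℕ) (f : UnitAddCircle → ℝ) (T Δ : ℝ) : ℝ :=
  ∫ t in (T / 2)..(3 * T / 2), (Zk k t * gg T Δ t) * f ((xx N t : ℝ) : UnitAddCircle)

theorem weyl_real {k N : ℕ} {δ B : ℝ} (f : C(UnitAddCircle, ℝ))
    (h : ∀ f : C(UnitAddCircle, ℂ), Tendsto (fun p : ℝ × ℝ => LF k N f p.1 p.2 / (IM k p.1 p.2 : ℂ)) (Rg δ B)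
      (𝓝 (∫ x, f x ∂haarAddCircle))) :
    Tendsto (fun p : ℝ × ℝ => LR k N f p.1 p.2 / IM k p.1 p.2) (Rg δ B) (𝓝 (∫ x, f x ∂haarAddCircle)) := by
  obtain ⟨g, hg⟩ : ∃ g : C(UnitAddCircle, ℂ), ∀ x, g x = ((f x : ℝ) : ℂ) :=
    ⟨⟨fun x => ((f x : ℝ) : ℂ), Complex.continuous_ofReal.comp f.continuous⟩, fun x => rfl⟩
  have h1 := h g
  have e1 : ∫ x, g x ∂haarAddCircle = ((∫ x, f x ∂haarAddCircle : ℝ) : ℂ) := by
    simp only [hg]
    exact integral_ofReal
  have e2 : ∀ p : ℝ × ℝ, LF k N g p.1 p.2 / (IM k p.1 p.2 : ℂ) = ((LR k N f p.1 p.2 / IM k p.1 p.2 : ℝ) : ℂ) := by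
    intro p
    rw [Complex.ofReal_div]
    congr 1
    unfold LF LR
    rw [← intervalIntegral.integral_ofReal]
    apply intervalIntegral.integral_congr
    intro t _
    simp only [hg]
    push_cast
    ring
  rw [e1] at h1
  simp only [e2] at h1
  have h2 := (Complex.continuous_re.tendsto _).comp h1
  rw [Complex.ofReal_re] at h2
  exact h2.congr fun p => Complex.ofReal_re _

lemma haar_ball (c : UnitAddCircle) (s : ℝ) : (haarAddCircle : Measure UnitAddCircle).real (Metric.closedBall c s) = max 0 (min 1 (2 * s)) := by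
  have h := AddCircle.volume_closedBall (T := (1 : ℝ)) (x := c) s
  have h2 : (volume : Measure UnitAddCircle) = haarAddCircle := by
    have := AddCircle.volume_eq_smul_haarAddCircle (T := (1 : ℝ))
    rw [ENNReal.ofReal_one, one_smul] at this
    exact this
  rw [measureReal_def, ← h2]
  have h3 : (volume : Measure UnitAddCircle) (Metric.closedBall c s) = ENNReal.ofReal (min 1 (2 * s)) := h
  rw [h3, ENNReal.toReal_ofReal', max_comm]

/-- the sector -/
def Sc (N : ℕ) (c r : ℝ) : Set ℝ := {t | ‖((xx N t : ℝ) : UnitAddCircle) - ((c : ℝ) : UnitAddCircle)‖ ≤ r}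

lemma Sc_meas (N : ℕ) (c r : ℝ) : MeasurableSet (Sc N c r) := by
  unfold Sc
  have hc : Continuous (fun x : UnitAddCircle => ‖x - ((c : ℝ) : UnitAddCircle)‖) :=
    (continuous_id.sub continuous_const).norm
  have : Measurable fun t => ‖((xx N t : ℝ) : UnitAddCircle) - ((c : ℝ) : UnitAddCircle)‖ :=
    hc.measurable.comp (xxc_meas N)
  exact measurableSet_le this measurable_const

/-- the moment over the sector -/
noncomputable def AM (k N : ℕ) (c r T Δ : ℝ) : ℝ := ∫ t in Ioc (T / 2) (3 * T / 2) ∩ Sc N c r, Zk k t * gg T Δ t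

lemma AM_eq (k N : ℕ) (c r : ℝ) {T : ℝ} (hT : 0 ≤ T) (Δ : ℝ) : AM k N c r T Δ =
    ∫ t in (T / 2)..(3 * T / 2), (Sc N c r).indicator (fun t => Zk k t * gg T Δ t) t := by
  unfold AM
  rw [intervalIntegral.integral_of_le (by linarith), inter_comm, ← Measure.restrict_restrict (Sc_meas N c r),
    integral_indicator (Sc_meas N c r)]

lemma W_int (k : ℕ) (T Δ : ℝ) : IntervalIntegrable (fun t => Zk k t * gg T Δ t) volume (T / 2) (3 * T / 2) :=
  ((Zk_cont k).mul (gg_cont T Δ)).intervalIntegrable _ _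

lemma W_nonneg (k : ℕ) (T Δ t : ℝ) : 0 ≤ Zk k t * gg T Δ t := mul_nonneg (Zk_nonneg k t) (Real.exp_pos _).le

lemma LR_int (k N : ℕ) (f : C(UnitAddCircle, ℝ)) (T Δ : ℝ) : IntervalIntegrable
    (fun t => (Zk k t * gg T Δ t) * f ((xx N t : ℝ) : UnitAddCircle)) volume (T / 2) (3 * T / 2) := by
  have h1 := W_int k T Δ
  have h2 : Measurable fun t => f ((xx N t : ℝ) : UnitAddCircle) := f.continuous.measurable.comp (xxc_meas N)
  rw [intervalIntegrable_iff] at h1 ⊢
  refine Integrable.mul_bdd (c := ‖f‖) h1 h2.aestronglyMeasurable ?_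
  exact Eventually.of_forall fun t => f.norm_coe_le_norm _

lemma ind_int (k N : ℕ) (c r T Δ : ℝ) : IntervalIntegrable
    (fun t => (Sc N c r).indicator (fun t => Zk k t * gg T Δ t) t) volume (T / 2) (3 * T / 2) := by
  have h1 := W_int k T Δ
  rw [intervalIntegrable_iff] at h1 ⊢
  exact h1.indicator (Sc_meas N c r)

theorem arc {k N : ℕ} {δ B : ℝ} (hpos : ∀ᶠ p in Rg δ B, 0 < IM k p.1 p.2)
    (h : ∀ f : C(UnitAddCircle, ℂ), Tendsto (fun p : ℝ × ℝ => LF k N f p.1 p.2 / (IM k p.1 p.2 : ℂ)) (Rg δ B)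
      (𝓝 (∫ x, f x ∂haarAddCircle))) (c : ℝ) {r : ℝ} (hr0 : 0 ≤ r) (hr : r ≤ 1 / 2) :
    Tendsto (fun p : ℝ × ℝ => AM k N c r p.1 p.2 / IM k p.1 p.2) (Rg δ B) (𝓝 (2 * r)) := by
  rw [Metric.tendsto_nhds]
  intro ε hε
  obtain ⟨η, hη⟩ : ∃ η, η = ε / 8 := ⟨_, rfl⟩
  have hη0 : 0 < η := by rw [hη]; positivity
  -- the two functions
  obtain ⟨F1, hF1⟩ : ∃ F : C(UnitAddCircle, ℝ), ∀ x, F x = max 0 (min 1 ((r - ‖x - ((c : ℝ) : UnitAddCircle)‖) / η)) :=
    ⟨⟨fun x => max 0 (min 1 ((r - ‖x - ((c : ℝ) : UnitAddCircle)‖) / η)), by fun_prop⟩, fun x => rfl⟩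
  obtain ⟨F2, hF2⟩ : ∃ F : C(UnitAddCircle, ℝ), ∀ x, F x = max 0 (min 1 (1 + (r - ‖x - ((c : ℝ) : UnitAddCircle)‖) / η)) :=
    ⟨⟨fun x => max 0 (min 1 (1 + (r - ‖x - ((c : ℝ) : UnitAddCircle)‖) / η)), by fun_prop⟩, fun x => rfl⟩
  have hint : ∀ F : C(UnitAddCircle, ℝ), Integrable F (haarAddCircle : Measure UnitAddCircle) := fun F =>
    F.continuous.integrable_of_hasCompactSupport (HasCompactSupport.of_compactSpace _)
  have hm1 : 2 * r - 2 * η ≤ ∫ x, F1 x ∂haarAddCircle := by
    have h1 : ∫ x, (Metric.closedBall ((c : ℝ) : UnitAddCircle) (r - η)).indicator (1 : UnitAddCircle → ℝ) x ∂haarAddCircle ≤ ∫ x, F1 x ∂haarAddCircle := by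
      apply integral_mono_of_nonneg
      · exact Eventually.of_forall fun x => indicator_nonneg (fun _ _ => zero_le_one) x
      · exact hint F1
      · refine Eventually.of_forall fun x => ?_
        rw [hF1]
        by_cases hx : x ∈ Metric.closedBall ((c : ℝ) : UnitAddCircle) (r - η)
        · rw [indicator_of_mem hx, Pi.one_apply]
          rw [Metric.mem_closedBall, dist_eq_norm] at hx
          apply le_max_of_le_right
          apply le_min le_rfl
          rw [le_div_iff₀ hη0]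
          linarith
        · rw [indicator_of_notMem hx]
          exact le_max_left _ _
    rw [integral_indicator_one Metric.isClosed_closedBall.measurableSet, haar_ball] at h1
    refine le_trans ?_ h1
    apply le_max_of_le_right
    apply le_min <;> linarith
  have hm2 : ∫ x, F2 x ∂haarAddCircle ≤ 2 * r + 2 * η := by
    have h1 : ∫ x, F2 x ∂haarAddCircle ≤ ∫ x, (Metric.closedBall ((c : ℝ) : UnitAddCircle) (r + η)).indicator (1 : UnitAddCircle → ℝ) x ∂haarAddCircle := by
      apply integral_mono_of_nonneg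
      · refine Eventually.of_forall fun x => ?_
        simp only [Pi.zero_apply]
        rw [hF2]
        exact le_max_left _ _
      · exact (integrable_const _).indicator Metric.isClosed_closedBall.measurableSet
      · refine Eventually.of_forall fun x => ?_
        rw [hF2]
        by_cases hx : x ∈ Metric.closedBall ((c : ℝ) : UnitAddCircle) (r + η)
        · rw [indicator_of_mem hx, Pi.one_apply]
          exact max_le zero_le_one (min_le_left _ _)
        · rw [indicator_of_notMem hx]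
          rw [Metric.mem_closedBall, dist_eq_norm, not_le] at hx
          apply max_le le_rfl
          apply min_le_of_right_le
          have h2 : (r - ‖x - ((c : ℝ) : UnitAddCircle)‖) / η ≤ -1 := by
            rw [div_le_iff₀ hη0]
            linarith
          linarith
    rw [integral_indicator_one Metric.isClosed_closedBall.measurableSet, haar_ball] at h1
    refine h1.trans (max_le (by linarith) ?_)
    refine (min_le_right _ _).trans (le_of_eq ?_)
    ring
  have hw1 := (Metric.tendsto_nhds.1 (weyl_real F1 h)) η hη0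
  have hw2 := (Metric.tendsto_nhds.1 (weyl_real F2 h)) η hη0
  have hT2 : ∀ᶠ p in Rg δ B, (2 : ℝ) ≤ p.1 := by
    rw [ev_Rg]
    exact ⟨2, fun T Δ hT _ _ => hT⟩
  filter_upwards [hw1, hw2, hpos, hT2] with p h1 h2 h3 h4
  have a1 : LR k N F1 p.1 p.2 ≤ AM k N c r p.1 p.2 := by
    rw [AM_eq k N c r (by linarith)]
    unfold LR
    apply intervalIntegral.integral_mono_on (by linarith) (LR_int _ _ _ _ _) (ind_int _ _ _ _ _ _)
    intro t _
    by_cases hx : t ∈ Sc N c r
    · rw [indicator_of_mem hx]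
      apply mul_le_of_le_one_right (W_nonneg _ _ _ _)
      rw [hF1]
      exact max_le zero_le_one (min_le_left _ _)
    · rw [indicator_of_notMem hx]
      unfold Sc at hx
      rw [mem_setOf_eq, not_le] at hx
      have : F1 ((xx N t : ℝ) : UnitAddCircle) = 0 := by
        rw [hF1]
        apply max_eq_left
        apply min_le_of_right_le
        apply div_nonpos_of_nonpos_of_nonneg (by linarith) hη0.le
      rw [this, mul_zero]
  have a2 : AM k N c r p.1 p.2 ≤ LR k N F2 p.1 p.2 := by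
    rw [AM_eq k N c r (by linarith)]
    unfold LR
    apply intervalIntegral.integral_mono_on (by linarith) (ind_int _ _ _ _ _ _) (LR_int _ _ _ _ _)
    intro t _
    by_cases hx : t ∈ Sc N c r
    · rw [indicator_of_mem hx]
      unfold Sc at hx
      rw [mem_setOf_eq] at hx
      have : F2 ((xx N t : ℝ) : UnitAddCircle) = 1 := by
        rw [hF2]
        rw [min_eq_left, max_eq_right zero_le_one]
        have : 0 ≤ (r - ‖((xx N t : ℝ) : UnitAddCircle) - ((c : ℝ) : UnitAddCircle)‖) / η := div_nonneg (by linarith) hη0.le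
        linarith
      rw [this, mul_one]
    · rw [indicator_of_notMem hx]
      apply mul_nonneg (W_nonneg _ _ _ _)
      rw [hF2]
      exact le_max_left _ _
  have b1 : LR k N F1 p.1 p.2 / IM k p.1 p.2 ≤ AM k N c r p.1 p.2 / IM k p.1 p.2 := div_le_div_of_nonneg_right a1 h3.le
  have b2 : AM k N c r p.1 p.2 / IM k p.1 p.2 ≤ LR k N F2 p.1 p.2 / IM k p.1 p.2 := div_le_div_of_nonneg_right a2 h3.le
  rw [Real.dist_eq] at h1 h2 ⊢
  rw [abs_lt] at h1 h2 ⊢
  constructor <;> linarith [h1.1, h1.2, h2.1, h2.2]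

end Pool.Agent.N30.MZ
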