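import Pool.Agent.N30.MZ.Arc

set_option autoImplicit false

/-! The moment over a sector is an average of the sums over lines. -/

open Complex MeasureTheory Set Filter Topology

namespace Pool.Agent.N30.MZ

open Pool.Agent.W188.QS

lemma lam_contAt {t : ℝ} (ht : 1 < t) : ContinuousAt lam t := by
  have hopen : IsOpen {s : ℂ | 1 < s.im} := isOpen_lt continuous_const Complex.continuous_im
  have hd : DifferentiableOn ℂ XX {s : ℂ | 1 < s.im} := fun s hs =>
    (Pool.Agent.W22.QS.qs_basic s (le_of_lt hs)).1.differentiableWithinAt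
  have hm : cp t ∈ {s : ℂ | 1 < s.im} := by simp [cp, ht]
  have h1 : ContinuousAt (deriv XX) (cp t) := ((hd.deriv hopen).differentiableAt (hopen.mem_nhds hm)).continuousAt
  have h2 : ContinuousAt XX (cp t) := (hd.differentiableAt (hopen.mem_nhds hm)).continuousAt
  have h3 : XX (cp t) ≠ 0 := (Pool.Agent.W22.QS.qs_basic (cp t) (le_of_lt hm)).2.1
  have h4 : ContinuousAt (fun s => (deriv XX s / XX s).re) (cp t) :=
    Complex.continuous_re.continuousAt.comp (h1.div h2 h3)
  have h5 : ContinuousAt cp t := by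
    unfold cp
    fun_prop
  exact ContinuousAt.comp (f := cp) h4 h5

lemma phase : ∃ θ : ℝ → ℝ, (∀ t, 50 ≤ t → HasDerivAt θ (lam t) t) ∧ ∀ t, 50 ≤ t → XX (cp t) = cexp ((θ t : ℂ) * I) := by
  obtain ⟨l, hl⟩ : ∃ l : ℝ → ℝ, l = fun t => lam (max t 2) := ⟨_, rfl⟩
  have hlc : Continuous l := by
    rw [hl, continuous_iff_continuousAt]
    intro t
    have h1 : ContinuousAt lam (max t 2) := lam_contAt (lt_of_lt_of_le (by norm_num) (le_max_right _ _))
    exact ContinuousAt.comp (f := fun t => max t 2) h1 (by fun_prop)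
  obtain ⟨θ, hθ⟩ : ∃ θ : ℝ → ℝ, θ = fun t => (XX (cp 50)).arg + ∫ x in (50 : ℝ)..t, l x := ⟨_, rfl⟩
  have hder : ∀ t, 50 ≤ t → HasDerivAt θ (lam t) t := by
    intro t ht
    have h1 := intervalIntegral.integral_hasDerivAt_right (hlc.intervalIntegrable 50 t)
      (hlc.stronglyMeasurableAtFilter _ _) hlc.continuousAt
    have h2 : l t = lam t := by
      rw [hl]
      simp only
      rw [max_eq_left (by linarith)]
    rw [h2] at h1
    rw [hθ]
    exact h1.const_add _
  refine ⟨θ, hder, fun t ht => ?_⟩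
  -- the quotient is constant
  have hXd : ∀ x : ℝ, 50 ≤ x → HasDerivAt (fun x : ℝ => XX (cp x)) (((lam x : ℝ) : ℂ) * XX (cp x) * I) x := by
    intro x hx
    have h1 : DifferentiableAt ℂ XX (cp x) := (Pool.Agent.W22.QS.qs_basic (cp x) (by simp [cp]; linarith)).1
    have h0 : XX (cp x) ≠ 0 := (Pool.Agent.W22.QS.qs_basic (cp x) (by simp [cp]; linarith)).2.1
    have h2 : HasDerivAt (fun x : ℝ => cp x) I x := Pool.Agent.W338.QS.hasDerivAt_cp x
    have h3 := h1.hasDerivAt.comp x h2
    have h4 : logDeriv XX (cp x) = ((lam x : ℝ) : ℂ) := (a_line.1 x hx).1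
    refine h3.congr_deriv ?_
    rw [← h4, logDeriv_apply]
    field_simp
  have hEd : ∀ x : ℝ, 50 ≤ x → HasDerivAt (fun x : ℝ => XX (cp x) * cexp (-((θ x : ℂ) * I))) 0 x := by
    intro x hx
    have h1 : HasDerivAt (fun x : ℝ => cexp (-((θ x : ℂ) * I))) (cexp (-((θ x : ℂ) * I)) * (-((lam x : ℂ) * I))) x := by
      have := (((hder x hx).ofReal_comp).mul_const I).neg
      exact this.cexp
    have h2 := (hXd x hx).mul h1
    refine h2.congr_deriv ?_
    ring
  have hconst := constant_of_has_deriv_right_zero (f := fun x : ℝ => XX (cp x) * cexp (-((θ x : ℂ) * I))) (a := 50) (b := t)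
    (fun x hx => (hEd x hx.1).continuousAt.continuousWithinAt) (fun x hx => (hEd x hx.1).hasDerivWithinAt) t ⟨ht, le_rfl⟩
  have hθ50 : θ 50 = (XX (cp 50)).arg := by rw [hθ]; simp
  have h50 : XX (cp 50) * cexp (-((θ 50 : ℂ) * I)) = 1 := by
    have h1 : XX (cp 50) = cexp ((θ 50 : ℂ) * I) := by
      have h2 := Complex.norm_mul_exp_arg_mul_I (XX (cp 50))
      rw [a_line.2.1 50, Complex.ofReal_one, one_mul] at h2
      rw [hθ50, h2]
    nth_rewrite 1 [h1]
    rw [← Complex.exp_add]
    simp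
  rw [h50] at hconst
  have h2 : XX (cp t) = XX (cp t) * cexp (-((θ t : ℂ) * I)) * cexp ((θ t : ℂ) * I) := by
    rw [mul_assoc, ← Complex.exp_add]
    simp
  rw [h2, hconst, one_mul]

/-- the indicator of the sector on the circle -/
noncomputable def gi (c r : ℝ) : UnitAddCircle → ℝ := (Metric.closedBall (-((c : ℝ) : UnitAddCircle)) r).indicator 1

lemma gi_meas (c r : ℝ) : Measurable (gi c r) := measurable_one.indicator Metric.isClosed_closedBall.measurableSet

lemma gi_nonneg (c r : ℝ) (x : UnitAddCircle) : 0 ≤ gi c r x := indicator_nonneg (fun _ _ => zero_le_one) x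

lemma gi_le (c r : ℝ) (x : UnitAddCircle) : gi c r x ≤ 1 := by
  unfold gi
  by_cases h : x ∈ Metric.closedBall (-((c : ℝ) : UnitAddCircle)) r
  · rw [indicator_of_mem h]; exact le_rfl
  · rw [indicator_of_notMem h]; exact zero_le_one

lemma gi_total (c : ℝ) {r : ℝ} (hr0 : 0 ≤ r) (hr : r ≤ 1 / 2) : ∫ x in (0 : ℝ)..1, gi c r (x : UnitAddCircle) = 2 * r := by
  have h1 := UnitAddCircle.intervalIntegral_preimage 0 (gi c r)
  rw [zero_add] at h1
  rw [h1]
  unfold gi
  rw [integral_indicator_one Metric.isClosed_closedBall.measurableSet]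
  have h := AddCircle.volume_closedBall (T := (1 : ℝ)) (x := -((c : ℝ) : UnitAddCircle)) r
  have h3 : (volume : Measure UnitAddCircle) (Metric.closedBall (-((c : ℝ) : UnitAddCircle)) r) = ENNReal.ofReal (min 1 (2 * r)) := h
  rw [measureReal_def, h3, min_eq_right (by linarith), ENNReal.toReal_ofReal (by linarith)]

/-- on the critical line: the sector in terms of the phase of `X` -/
lemma sector_iff {N : ℕ} {t θ c r : ℝ} (ht : 1 ≤ t) (hz : riemannZeta (cp t) ≠ 0) (hθ : XX (cp t) = cexp ((θ : ℂ) * I)) :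
    t ∈ Sc N c r ↔ ((N * θ / (2 * Real.pi) : ℝ) : UnitAddCircle) ∈ Metric.closedBall (-((c : ℝ) : UnitAddCircle)) r := by
  obtain ⟨z, hzd⟩ : ∃ z, z = riemannZeta (cp t) := ⟨_, rfl⟩
  rw [← hzd] at hz
  have hX0 : XX (cp t) ≠ 0 := by rw [hθ]; exact Complex.exp_ne_zero _
  have hfe : (starRingEnd ℂ) z = XX (cp t) * z := by rw [hzd]; exact a_line.2.2.1 t ht
  have hcj : (starRingEnd ℂ) z = ‖z‖ * cexp (-(z.arg * I)) := by
    have hpol : z = ‖z‖ * cexp (z.arg * I) := (Complex.norm_mul_exp_arg_mul_I z).symm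
    nth_rewrite 1 [hpol]
    rw [map_mul, Complex.conj_ofReal, ← Complex.exp_conj]
    congr 2
    rw [map_mul, Complex.conj_ofReal, Complex.conj_I]
    ring
  have hn0 : (‖z‖ : ℂ) ≠ 0 := by exact_mod_cast norm_ne_zero_iff.2 hz
  have h1 : cexp (((θ + 2 * z.arg : ℝ) : ℂ) * I) = 1 := by
    have hpol : z = ‖z‖ * cexp (z.arg * I) := (Complex.norm_mul_exp_arg_mul_I z).symm
    rw [hcj, hθ] at hfe
    nth_rewrite 3 [hpol] at hfe
    have h2 : cexp (-(z.arg * I)) = cexp ((θ : ℂ) * I) * cexp (z.arg * I) := by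
      apply mul_left_cancel₀ hn0
      rw [hfe]; ring
    have h3 : cexp (((θ + 2 * z.arg : ℝ) : ℂ) * I) = (cexp ((θ : ℂ) * I) * cexp (z.arg * I)) * cexp (z.arg * I) := by
      rw [← Complex.exp_add, ← Complex.exp_add]
      congr 1
      push_cast
      ring
    rw [h3, ← h2, ← Complex.exp_add]
    simp
  obtain ⟨n, hn⟩ := Complex.exp_eq_one_iff.1 h1
  have hn2 : θ + 2 * z.arg = 2 * Real.pi * n := by
    have h2 : ((θ + 2 * z.arg : ℝ) : ℂ) = ((2 * Real.pi * n : ℝ) : ℂ) := by
      apply mul_right_cancel₀ I_ne_zero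
      rw [hn]
      push_cast
      ring
    exact_mod_cast h2
  have hpi : Real.pi ≠ 0 := Real.pi_ne_zero
  have h3 : xx N t = -(N * θ / (2 * Real.pi)) + ((N * n : ℤ) : ℝ) := by
    unfold xx
    rw [← hzd]
    have h4 : z.arg = Real.pi * n - θ / 2 := by linarith
    rw [h4]
    push_cast
    field_simp
    ring
  have h4 : ((xx N t : ℝ) : UnitAddCircle) = -((N * θ / (2 * Real.pi) : ℝ) : UnitAddCircle) := by
    have h5 : (((N * n : ℤ) : ℝ) : UnitAddCircle) = 0 := by
      rw [AddCircle.coe_eq_zero_iff]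
      exact ⟨N * n, by simp⟩
    rw [h3, AddCircle.coe_add, h5, add_zero, AddCircle.coe_neg]
  unfold Sc
  rw [mem_setOf_eq, h4, Metric.mem_closedBall, dist_eq_norm, ← norm_neg]
  have h5 : -(-((N * θ / (2 * Real.pi) : ℝ) : UnitAddCircle) - (c : UnitAddCircle)) =
      ((N * θ / (2 * Real.pi) : ℝ) : UnitAddCircle) - -((c : ℝ) : UnitAddCircle) := by abel
  rw [h5]

theorem coarea {k N : ℕ} (hk : 1 ≤ k) (hN : 1 ≤ N) {T Δ : ℝ} (hT : 200 ≤ T) {E : ℝ}
    (hE : ∀ u : ℂ, ‖u‖ = 1 → |(∑ᶠ t ∈ PP u N ∩ Ioo (T / 2) (3 * T / 2), rho k N t * gg T Δ t) - IM k T Δ| ≤ E)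
    (c : ℝ) {r : ℝ} (hr0 : 0 ≤ r) (hr : r ≤ 1 / 2) : |AM k N c r T Δ - 2 * r * IM k T Δ| ≤ E := by
  obtain ⟨θ, hθ, hX⟩ := phase
  have hpi := Real.pi_pos
  have hN0 : (0 : ℝ) < N := by exact_mod_cast hN
  obtain ⟨s, hs⟩ : ∃ s : Set ℝ, s = Ioo (T / 2) (3 * T / 2) := ⟨_, rfl⟩
  have hs50 : ∀ t ∈ s, 50 ≤ t := by
    intro t ht
    rw [hs] at ht
    linarith [ht.1]
  obtain ⟨Y, hY⟩ : ∃ Y : ℝ → ℝ, Y = fun t => N * θ t / (2 * Real.pi) := ⟨_, rfl⟩
  obtain ⟨Y', hY'⟩ : ∃ Y' : ℝ → ℝ, Y' = fun t => N * lam t / (2 * Real.pi) := ⟨_, rfl⟩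
  have hYd : ∀ t, 50 ≤ t → HasDerivAt Y (Y' t) t := by
    intro t ht
    rw [hY, hY']
    exact ((hθ t ht).const_mul _).div_const _
  have hY'pos : ∀ t, 50 ≤ t → 0 < Y' t := by
    intro t ht
    have h1 : 1 ≤ lam t := (a_line.1 t ht).2.2
    rw [hY']
    simp only
    positivity
  have hmono : StrictMonoOn Y (Ici 50) := by
    apply strictMonoOn_of_deriv_pos (convex_Ici 50) (fun t ht => (hYd t ht).continuousAt.continuousWithinAt)
    intro t ht
    rw [interior_Ici] at ht
    rw [(hYd t (le_of_lt ht)).deriv]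
    exact hY'pos t (le_of_lt ht)
  have hinj : InjOn Y s := hmono.injOn.mono fun t ht => hs50 t ht
  obtain ⟨W, hW⟩ : ∃ W : ℝ → ℝ, W = fun t => Zk k t * gg T Δ t := ⟨_, rfl⟩
  have hWc : Continuous W := by rw [hW]; exact (Zk_cont k).mul (gg_cont T Δ)
  have hW0 : ∀ t, 0 ≤ W t := by intro t; rw [hW]; exact W_nonneg k T Δ t
  obtain ⟨h, hh⟩ : ∃ h : ℝ → ℝ, h = fun y => ∑ᶠ t ∈ {t | t ∈ s ∧ Y t = y}, W t / Y' t := ⟨_, rfl⟩
  have hfib : ∀ y, {t | t ∈ s ∧ Y t = y}.Subsingleton := by
    intro y a ha b hb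
    exact hinj ha.1 hb.1 (by rw [ha.2, hb.2])
  have hhY : ∀ t ∈ s, h (Y t) = W t / Y' t := by
    intro t ht
    rw [hh]
    simp only
    have e : {t' | t' ∈ s ∧ Y t' = Y t} = {t} := by
      ext a
      simp only [mem_setOf_eq, mem_singleton_iff]
      constructor
      · rintro ⟨ha, hb⟩
        exact hinj ha ht hb
      · rintro rfl
        exact ⟨ht, rfl⟩
    rw [e, finsum_mem_singleton]
  have hh0 : ∀ y, y ∉ Y '' s → h y = 0 := by
    intro y hy
    rw [hh]
    simp only
    have e : {t' | t' ∈ s ∧ Y t' = y} = ∅ := by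
      ext a
      simp only [mem_setOf_eq, mem_empty_iff_false, iff_false]
      rintro ⟨ha, hb⟩
      exact hy ⟨a, ha, hb⟩
    rw [e, finsum_mem_empty]
  obtain ⟨H, hH⟩ : ∃ H : ℝ → ℝ, H = fun y => h y * gi c r (y : UnitAddCircle) := ⟨_, rfl⟩
  have hsm : MeasurableSet s := by rw [hs]; exact measurableSet_Ioo
  have hsv : volume s ≠ ⊤ := by rw [hs]; exact measure_Ioo_lt_top.ne
  have hYw : ∀ t ∈ s, HasDerivWithinAt Y (Y' t) s t := fun t ht => (hYd t (hs50 t ht)).hasDerivWithinAt
  have hYc : ContinuousOn Y s := fun t ht => (hYd t (hs50 t ht)).continuousAt.continuousWithinAt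
  have hgY : AEStronglyMeasurable (fun t => gi c r ((Y t : ℝ) : UnitAddCircle)) (volume.restrict s) := by
    have h1 : AEMeasurable Y (volume.restrict s) := hYc.aemeasurable hsm
    exact (((gi_meas c r).comp AddCircle.measurable_mk').comp_aemeasurable h1).aestronglyMeasurable
  have hWi : IntegrableOn W s := by
    rw [hs]
    exact (hWc.integrableOn_Icc).mono_set Ioo_subset_Icc_self
  have hWg : IntegrableOn (fun t => W t * gi c r ((Y t : ℝ) : UnitAddCircle)) s := by
    refine Integrable.mul_bdd (c := 1) hWi hgY ?_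
    refine Eventually.of_forall fun t => ?_
    rw [Real.norm_of_nonneg (gi_nonneg _ _ _)]
    exact gi_le _ _ _
  have hWH : ∀ t ∈ s, |Y' t| • H (Y t) = W t * gi c r ((Y t : ℝ) : UnitAddCircle) := by
    intro t ht
    have h1 := hY'pos t (hs50 t ht)
    rw [hH]
    simp only
    rw [hhY t ht, abs_of_pos h1, smul_eq_mul]
    field_simp
  have hHon : IntegrableOn H (Y '' s) := by
    rw [integrableOn_image_iff_integrableOn_abs_deriv_smul hsm hYw hinj]
    exact hWg.congr_fun (fun t ht => (hWH t ht).symm) hsm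
  have hsupp : Function.support H ⊆ Y '' s := by
    intro y hy
    by_contra hc
    apply hy
    rw [hH]
    simp only
    rw [hh0 y hc, zero_mul]
  have hHint : Integrable H := (integrableOn_iff_integrable_of_support_subset hsupp).1 hHon
  have hA : ∫ y, H y = ∫ t in s, W t * gi c r ((Y t : ℝ) : UnitAddCircle) := by
    rw [← setIntegral_eq_integral_of_forall_compl_eq_zero (s := Y '' s)
      (fun y hy => by by_contra hc; exact hy (hsupp hc)),
      integral_image_eq_integral_abs_deriv_smul hsm hYw hinj]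
    exact setIntegral_congr_fun hsm hWH
  -- periodization
  obtain ⟨F, hF⟩ : ∃ F : Finset ℤ, F = Finset.Icc (⌊Y (T / 2)⌋ - 1) (⌈Y (3 * T / 2)⌉ + 1) := ⟨_, rfl⟩
  have hT2 : (50 : ℝ) ≤ T / 2 := by linarith
  have hT3 : (50 : ℝ) ≤ 3 * T / 2 := by linarith
  have hYs : ∀ y ∈ Y '' s, Y (T / 2) < y ∧ y < Y (3 * T / 2) := by
    rintro y ⟨t, ht, rfl⟩
    have ht' := ht
    rw [hs] at ht'
    exact ⟨hmono hT2 (hs50 t ht) ht'.1, hmono (hs50 t ht) hT3 ht'.2⟩
  have hFn : ∀ n : ℤ, n ∉ F → ∀ x ∈ Icc (0 : ℝ) 1, x + n ∉ Y '' s := by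
    intro n hn x hx hc
    apply hn
    have h1 := hYs _ hc
    rw [hF, Finset.mem_Icc]
    constructor
    · have h2 : Y (T / 2) - 1 < n := by linarith [hx.2]
      have h3 : ((⌊Y (T / 2)⌋ - 1 : ℤ) : ℝ) < n := by
        push_cast
        have := Int.floor_le (Y (T / 2))
        linarith
      exact_mod_cast h3.le
    · have h2 : (n : ℝ) < Y (3 * T / 2) := by linarith [hx.1]
      have h3 : (n : ℝ) < ((⌈Y (3 * T / 2)⌉ + 1 : ℤ) : ℝ) := by
        push_cast
        have := Int.le_ceil (Y (3 * T / 2))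
        linarith
      exact_mod_cast h3.le
  have hB1 : ∫ y, H y = ∑ n ∈ F, ∫ x in (0 : ℝ)..1, H (x + n) := by
    have h1 := hHint.hasSum_intervalIntegral_comp_add_int
    have h2 : HasSum (fun n : ℤ => ∫ x in (0 : ℝ)..1, H (x + n)) (∑ n ∈ F, ∫ x in (0 : ℝ)..1, H (x + n)) := by
      apply hasSum_sum_of_ne_finset_zero
      intro n hn
      have h3 : ∫ x in (0 : ℝ)..1, H (x + n) = ∫ x in (0 : ℝ)..1, (0 : ℝ) := by
        apply intervalIntegral.integral_congr
        intro x hx
        rw [uIcc_of_le zero_le_one] at hx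
        simp only
        rw [hH]
        simp only
        rw [hh0 _ (hFn n hn x hx), zero_mul]
      rw [h3]
      simp
    exact h1.unique h2
  have hcomp : ∀ n ∈ F, IntervalIntegrable (fun x : ℝ => H (x + n)) volume 0 1 := by
    intro n _
    exact (hHint.comp_add_right (n : ℝ)).intervalIntegrable
  obtain ⟨S, hS⟩ : ∃ S : ℝ → ℝ, S = fun x => ∑ n ∈ F, h (x + n) := ⟨_, rfl⟩
  have hHS : ∀ x : ℝ, ∑ n ∈ F, H (x + n) = S x * gi c r (x : UnitAddCircle) := by
    intro x
    rw [hS, Finset.sum_mul]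
    apply Finset.sum_congr rfl
    intro n _
    rw [hH]
    simp only
    congr 2
    rw [AddCircle.coe_add]
    have h5 : (((n : ℤ) : ℝ) : UnitAddCircle) = 0 := by
      rw [AddCircle.coe_eq_zero_iff]
      exact ⟨n, by simp⟩
    rw [h5, add_zero]
  have hB2 : ∫ y, H y = ∫ x in (0 : ℝ)..1, S x * gi c r (x : UnitAddCircle) := by
    rw [hB1, ← intervalIntegral.integral_finset_sum hcomp]
    exact intervalIntegral.integral_congr fun x _ => hHS x
  have hSint : IntervalIntegrable (fun x => S x * gi c r (x : UnitAddCircle)) volume 0 1 := by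
    have h1 := IntervalIntegrable.sum F hcomp
    refine h1.congr ?_
    intro x _
    simp only [Finset.sum_apply]
    exact hHS x
  -- the sum over the fibre is the sum over the points
  have hSx : ∀ x ∈ Icc (0 : ℝ) 1, S x = ∑ᶠ t ∈ PP (cexp (2 * Real.pi * x * I)) N ∩ Ioo (T / 2) (3 * T / 2), rho k N t * gg T Δ t := by
    intro x hx
    have hset : PP (cexp (2 * Real.pi * x * I)) N ∩ Ioo (T / 2) (3 * T / 2) = ⋃ n ∈ (F : Set ℤ), {t | t ∈ s ∧ Y t = x + n} := by
      ext t
      simp only [mem_inter_iff, mem_iUnion, mem_setOf_eq, exists_prop]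
      rw [← hs]
      constructor
      · rintro ⟨h1, h2⟩
        have h50 := hs50 t h2
        have h3 : ww (cexp (2 * Real.pi * x * I)) N (cp t) = 1 := h1.2
        unfold ww at h3
        rw [hX t h50, ← Complex.exp_neg, ← Complex.exp_nat_mul, ← Complex.exp_add] at h3
        obtain ⟨n, hn⟩ := Complex.exp_eq_one_iff.1 h3
        have h4 : x - Y t = n := by
          have h5 : ((2 * Real.pi * (x - Y t) : ℝ) : ℂ) = ((2 * Real.pi * n : ℝ) : ℂ) := by
            apply mul_right_cancel₀ I_ne_zero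
            have h6 : ((2 * Real.pi * (x - Y t) : ℝ) : ℂ) * I = 2 * Real.pi * x * I + N * -(θ t * I) := by
              rw [hY]
              push_cast
              field_simp
              ring
            rw [h6, hn]
            push_cast
            ring
          have h6 : 2 * Real.pi * (x - Y t) = 2 * Real.pi * n := by exact_mod_cast h5
          exact mul_left_cancel₀ (by positivity) h6
        refine ⟨-n, ?_, h2, ?_⟩
        · by_contra hc
          apply hFn (-n) hc x hx
          refine ⟨t, h2, ?_⟩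
          push_cast
          linarith
        · push_cast
          linarith
      · rintro ⟨n, _, h2, h3⟩
        have h50 := hs50 t h2
        refine ⟨⟨?_, ?_⟩, h2⟩
        · rw [hs] at h2
          linarith [h2.1]
        · unfold ww
          rw [hX t h50, ← Complex.exp_neg, ← Complex.exp_nat_mul, ← Complex.exp_add]
          rw [Complex.exp_eq_one_iff]
          refine ⟨-n, ?_⟩
          have h6 : 2 * (Real.pi : ℂ) * x * I + N * -(θ t * I) = ((2 * Real.pi * (x - Y t) : ℝ) : ℂ) * I := by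
            rw [hY]
            push_cast
            field_simp
            ring
          have h7 : x - Y t = -(n : ℝ) := by linarith
          rw [h6, h7]
          push_cast
          ring
    rw [hset, finsum_mem_biUnion]
    · rw [finsum_mem_coe_finset, hS]
      simp only
      apply Finset.sum_congr rfl
      intro n _
      rw [hh]
      simp only
      apply finsum_mem_congr rfl
      intro t ht
      have h1 := hs50 t ht.1
      have h2 : 1 ≤ lam t := (a_line.1 t h1).2.2
      have h3 : lam t ≠ 0 := by linarith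
      rw [hW, hY']
      unfold rho
      simp only
      field_simp
    · intro a _ b _ hab
      rw [Function.onFun, Set.disjoint_left]
      rintro t ⟨_, h1⟩ ⟨_, h2⟩
      apply hab
      have h3 : (a : ℝ) = b := by linarith
      exact_mod_cast h3
    · exact F.finite_toSet
    · intro n _
      exact (hfib _).finite
  have hnorm : ∀ x : ℝ, ‖cexp (2 * Real.pi * x * I)‖ = 1 := by
    intro x
    have : (2 * Real.pi * x * I : ℂ) = ((2 * Real.pi * x : ℝ) : ℂ) * I := by push_cast; ring
    rw [this, Complex.norm_exp_ofReal_mul_I]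
  -- the moment over the sector
  have hAM : AM k N c r T Δ = ∫ t in s, W t * gi c r ((Y t : ℝ) : UnitAddCircle) := by
    rw [AM_eq k N c r (by linarith), intervalIntegral.integral_of_le (by linarith), integral_Ioc_eq_integral_Ioo, hs]
    apply setIntegral_congr_fun measurableSet_Ioo
    intro t ht
    rw [← hs] at ht
    have h50 := hs50 t ht
    simp only
    by_cases hz : riemannZeta (cp t) = 0
    · have h1 : Zk k t = 0 := by
        unfold Zk
        rw [hz, norm_zero, zero_pow (by omega)]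
      have h2 : W t = 0 := by rw [hW]; simp only; rw [h1, zero_mul]
      rw [h2, zero_mul]
      by_cases h3 : t ∈ Sc N c r
      · rw [indicator_of_mem h3, h1, zero_mul]
      · rw [indicator_of_notMem h3]
    · have h1 := sector_iff (N := N) (c := c) (r := r) (by linarith) hz (hX t h50)
      have h2 : ((Y t : ℝ) : UnitAddCircle) = ((N * θ t / (2 * Real.pi) : ℝ) : UnitAddCircle) := by rw [hY]
      by_cases h3 : t ∈ Sc N c r
      · rw [indicator_of_mem h3]
        rw [h1, ← h2] at h3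
        unfold gi
        rw [indicator_of_mem h3, Pi.one_apply, mul_one, hW]
      · rw [indicator_of_notMem h3]
        rw [h1, ← h2] at h3
        unfold gi
        rw [indicator_of_notMem h3, mul_zero]
  rw [hAM, ← hA, hB2]
  have hgint : IntervalIntegrable (fun x : ℝ => gi c r (x : UnitAddCircle)) volume 0 1 := by
    refine IntervalIntegrable.mono_fun' (intervalIntegrable_const (c := (1:ℝ))) (((gi_meas c r).comp AddCircle.measurable_mk').aestronglyMeasurable) ?_
    refine Eventually.of_forall fun t => ?_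
    show ‖gi c r (t : UnitAddCircle)‖ ≤ 1
    rw [Real.norm_of_nonneg (gi_nonneg _ _ _)]
    exact gi_le _ _ _
  have he : (∫ x in (0 : ℝ)..1, S x * gi c r (x : UnitAddCircle)) - 2 * r * IM k T Δ =
      ∫ x in (0 : ℝ)..1, (S x * gi c r (x : UnitAddCircle) - gi c r (x : UnitAddCircle) * IM k T Δ) := by
    rw [intervalIntegral.integral_sub hSint (hgint.mul_const _), intervalIntegral.integral_mul_const, gi_total c hr0 hr]
  rw [he, ← Real.norm_eq_abs]
  have hE0 : 0 ≤ E := (abs_nonneg _).trans (hE 1 (by simp))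
  have hb : ∀ x ∈ Ioc (0 : ℝ) 1, ‖S x * gi c r (x : UnitAddCircle) - gi c r (x : UnitAddCircle) * IM k T Δ‖ ≤ E * gi c r (x : UnitAddCircle) := by
    intro x hx
    have h1 := hE _ (hnorm x)
    rw [← hSx x ⟨hx.1.le, hx.2⟩] at h1
    have e : S x * gi c r (x : UnitAddCircle) - gi c r (x : UnitAddCircle) * IM k T Δ = (S x - IM k T Δ) * gi c r (x : UnitAddCircle) := by ring
    rw [e, norm_mul, Real.norm_eq_abs, Real.norm_of_nonneg (gi_nonneg _ _ _)]
    exact mul_le_mul_of_nonneg_right h1 (gi_nonneg _ _ _)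
  have h1 := intervalIntegral.norm_integral_le_of_norm_le zero_le_one (Eventually.of_forall hb) (hgint.const_mul E)
  refine h1.trans ?_
  rw [intervalIntegral.integral_const_mul, gi_total c hr0 hr]
  nlinarith

end Pool.Agent.N30.MZ
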