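import Pool.Agent.TH935.LP.W3

set_option autoImplicit false

/-! The summatory function of `d_{r+1}`: main term with leading coefficient `1/r!` and a power saving. -/

namespace Pool.Agent.N30.MZ

open Finset Polynomial
open Pool.Agent.TH935.LP
open Pool.Agent.TH935.DSB (dir)
open Pool.Agent.TH935.LD (dk dk_succ D_le gam AA A_asym)

lemma SD_floor (r X : ℕ) : SD (r + 1) X = ∑ d ∈ Icc 1 X, (dk r d : ℝ) * ((X / d : ℕ) : ℝ) := by
  unfold SD
  have e := dir X (fun d _ => (dk r d : ℝ))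
  have e2 : ∀ n ∈ Icc 1 X, (dk (r + 1) n : ℝ) = ∑ d ∈ n.divisors, (dk r d : ℝ) := by
    intro n _
    rw [dk_succ]
    push_cast
    rfl
  rw [sum_congr rfl e2, e]
  apply sum_congr rfl
  intro d _
  rw [sum_const, nsmul_eq_mul, Nat.card_Icc, Nat.add_sub_cancel]
  ring

lemma gam_one (r : ℕ) : gam r 1 = 1 := by
  induction r with
  | zero => simp [gam]
  | succ r ih => simp [gam, ih]

lemma SD_lead (r : ℕ) (hr : 1 ≤ r) : ∃ K : ℝ, 0 ≤ K ∧ ∀ X : ℕ, 1 ≤ X →
    |SD (r + 1) X - X * (Real.log X ^ r / (r.factorial : ℝ))| ≤ K * (X * (1 + Real.log X) ^ (r - 1)) := by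
  obtain ⟨K, hK, h⟩ := A_asym r 1 hr le_rfl
  refine ⟨K + 1, by linarith, fun X hX => ?_⟩
  have h1 := h X hX
  rw [gam_one, one_mul] at h1
  have hX0 : (1 : ℝ) ≤ X := by exact_mod_cast hX
  have e1 : AA r 1 X = ∑ a ∈ Icc 1 X, (dk r a : ℝ) / a := by
    unfold AA
    congr 1
    ext a
    simp
  have h2 : |SD (r + 1) X - X * AA r 1 X| ≤ X * (1 + Real.log X) ^ (r - 1) := by
    rw [SD_floor, e1, mul_sum, ← sum_sub_distrib]
    refine (abs_sum_le_sum_abs _ _).trans (le_trans (sum_le_sum ?_) (D_le r X hr))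
    intro a ha
    rw [mem_Icc] at ha
    have ha0 : (0 : ℝ) < a := by
      have : 0 < a := by omega
      positivity
    have e2 : (dk r a : ℝ) * ((X / a : ℕ) : ℝ) - X * ((dk r a : ℝ) / a) =
        (dk r a : ℝ) * (((X / a : ℕ) : ℝ) - (X : ℝ) / a) := by ring
    rw [e2, abs_mul, abs_of_nonneg (Nat.cast_nonneg _)]
    have h8 : |((X / a : ℕ) : ℝ) - (X : ℝ) / a| ≤ 1 := by
      rw [← Nat.floor_div_eq_div (K := ℝ)]
      have a1 := Nat.floor_le (by positivity : (0:ℝ) ≤ (X : ℝ) / a)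
      have a2 := Nat.lt_floor_add_one ((X : ℝ) / a)
      rw [abs_le]
      constructor <;> linarith
    calc (dk r a : ℝ) * |((X / a : ℕ) : ℝ) - (X : ℝ) / a| ≤ (dk r a : ℝ) * 1 :=
          mul_le_mul_of_nonneg_left h8 (Nat.cast_nonneg _)
      _ = _ := mul_one _
  have h3 : |X * AA r 1 X - X * (Real.log X ^ r / (r.factorial : ℝ))| ≤ X * (K * (1 + Real.log X) ^ (r - 1)) := by
    rw [← mul_sub, abs_mul, abs_of_pos (by linarith : (0:ℝ) < X)]
    exact mul_le_mul_of_nonneg_left h1 (by linarith)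
  have h4 := abs_sub_le (SD (r + 1) X) (X * AA r 1 X) (X * (Real.log X ^ r / (r.factorial : ℝ)))
  linarith

/-- a polynomial is close to its top term -/
lemma poly_top (P : ℝ[X]) (r : ℕ) (hr : 1 ≤ r) (hP : P.natDegree ≤ r) : ∃ A : ℝ, 0 ≤ A ∧ ∀ L : ℝ, 1 ≤ L →
    |P.eval L - P.coeff r * L ^ r| ≤ A * L ^ (r - 1) := by
  refine ⟨∑ i ∈ range r, |P.coeff i|, sum_nonneg fun i _ => abs_nonneg _, fun L hL => ?_⟩
  rw [eval_eq_sum_range' (Nat.lt_succ_of_le hP), sum_range_succ, add_sub_cancel_right, sum_mul]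
  refine (abs_sum_le_sum_abs _ _).trans (sum_le_sum fun i hi => ?_)
  rw [mem_range] at hi
  rw [abs_mul, abs_of_nonneg (by positivity : 0 ≤ L ^ i)]
  exact mul_le_mul_of_nonneg_left (pow_le_pow_right₀ hL (by omega)) (abs_nonneg _)

theorem div_asym (r : ℕ) (hr : 1 ≤ r) : ∃ P : ℝ[X], P.natDegree ≤ r ∧ P.coeff r = 1 / (r.factorial : ℝ) ∧
    ∃ C δ : ℝ, 0 ≤ C ∧ 0 < δ ∧ ∀ y : ℝ, 1 ≤ y →
      |SD (r + 1) ⌊y⌋₊ - y * P.eval (Real.log y)| ≤ C * y ^ (1 - δ) := by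
  obtain ⟨P, hP, C, δ, hC, hδ, h⟩ := piltz r
  have hmain : ∀ y : ℝ, 1 ≤ y → |SD (r + 1) ⌊y⌋₊ - y * P.eval (Real.log y)| ≤ C * y ^ (1 - δ) := by
    intro y hy
    have hy0 : 0 < y := by linarith
    have h1 : |SD (r + 1) ⌊y⌋₊ / y - P.eval (Real.log y)| ≤ C * y ^ (-δ) := h y hy
    have e : SD (r + 1) ⌊y⌋₊ - y * P.eval (Real.log y) = y * (SD (r + 1) ⌊y⌋₊ / y - P.eval (Real.log y)) := by
      field_simp
    rw [e, abs_mul, abs_of_pos hy0]
    calc y * |SD (r + 1) ⌊y⌋₊ / y - P.eval (Real.log y)| ≤ y * (C * y ^ (-δ)) :=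
          mul_le_mul_of_nonneg_left h1 hy0.le
      _ = C * (y ^ (1:ℝ) * y ^ (-δ)) := by rw [Real.rpow_one]; ring
      _ = C * y ^ (1 - δ) := by rw [← Real.rpow_add hy0]; rfl
  refine ⟨P, hP, ?_, C, δ, hC, hδ, hmain⟩
  obtain ⟨K, hK, hl⟩ := SD_lead r hr
  obtain ⟨A, hA, ht⟩ := poly_top P r hr hP
  -- comparison along the integers
  have key : ∀ X : ℕ, Real.exp 1 ≤ X → |P.coeff r - 1 / (r.factorial : ℝ)| * Real.log X ≤ A + K * 2 ^ (r - 1) + C := by
    intro X hX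
    have he := Real.exp_one_gt_d9
    have hX1 : (1 : ℝ) ≤ X := by linarith
    have hX1' : 1 ≤ X := by exact_mod_cast hX1
    have hX0 : (0 : ℝ) < X := by linarith
    have hL : 1 ≤ Real.log X := by
      rw [Real.le_log_iff_exp_le hX0]
      exact hX
    obtain ⟨L, hLd⟩ : ∃ L, L = Real.log X := ⟨_, rfl⟩
    have h1 := hl X hX1'
    have h2 := h X hX1
    simp only [Nat.floor_natCast] at h2
    have h3 := ht (Real.log X) hL
    rw [← hLd] at h1 h2 h3 hL ⊢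
    have h4 : |SD (r + 1) X / X - L ^ r / (r.factorial : ℝ)| ≤ K * (1 + L) ^ (r - 1) := by
      have e : SD (r + 1) X / X - L ^ r / (r.factorial : ℝ) =
          (SD (r + 1) X - X * (L ^ r / (r.factorial : ℝ))) / X := by
        rw [sub_div, mul_div_assoc, mul_div_assoc', mul_comm (X : ℝ) (L ^ r / _), mul_div_assoc, div_self hX0.ne', mul_one]
      rw [e, abs_div, abs_of_pos hX0, div_le_iff₀ hX0]
      calc _ ≤ _ := h1
        _ = _ := by ring
    have h5 : (1 + L) ^ (r - 1) ≤ 2 ^ (r - 1) * L ^ (r - 1) := by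
      rw [← mul_pow]
      exact pow_le_pow_left₀ (by linarith) (by linarith) _
    have h6 : C * (X : ℝ) ^ (-δ) ≤ C * L ^ (r - 1) := by
      apply mul_le_mul_of_nonneg_left _ hC
      calc (X : ℝ) ^ (-δ) ≤ 1 := Real.rpow_le_one_of_one_le_of_nonpos hX1 (by linarith)
        _ ≤ L ^ (r - 1) := one_le_pow₀ hL
    have h7 : |(P.coeff r - 1 / (r.factorial : ℝ)) * L ^ r| ≤ (A + K * 2 ^ (r - 1) + C) * L ^ (r - 1) := by
      have h8 : K * (1 + L) ^ (r - 1) ≤ K * (2 ^ (r - 1) * L ^ (r - 1)) := mul_le_mul_of_nonneg_left h5 hK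
      have e : (P.coeff r - 1 / (r.factorial : ℝ)) * L ^ r = -(P.eval L - P.coeff r * L ^ r) -
          (SD (r + 1) X / X - P.eval L) + (SD (r + 1) X / X - L ^ r / (r.factorial : ℝ)) := by ring
      rw [e]
      rw [abs_le] at *
      constructor <;> nlinarith [h3.1, h3.2, h4.1, h4.2, h2.1, h2.2]
    rw [abs_mul, abs_of_nonneg (by positivity : 0 ≤ L ^ r)] at h7
    have e : L ^ r = L * L ^ (r - 1) := by
      rw [← pow_succ']
      congr 1
      omega
    rw [e, ← mul_assoc] at h7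
    exact le_of_mul_le_mul_right h7 (by positivity)
  by_contra hne
  have hpos : 0 < |P.coeff r - 1 / (r.factorial : ℝ)| := abs_pos.2 (sub_ne_zero.2 hne)
  obtain ⟨N, hN⟩ := Filter.eventually_atTop.1 (((Real.tendsto_log_atTop.comp tendsto_natCast_atTop_atTop).const_mul_atTop hpos).eventually_gt_atTop (A + K * 2 ^ (r - 1) + C))
  obtain ⟨M, hM⟩ := exists_nat_ge (Real.exp 1)
  have h1 := hN (max N M) (le_max_left _ _)
  have h2 := key (max N M) (hM.trans (by exact_mod_cast le_max_right N M))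
  simp only [Function.comp] at h1
  linarith

end Pool.Agent.N30.MZ
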