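import Pool.Agent.W188.QS.Stm

set_option autoImplicit false

/-! Asymptotic evaluation of the oscillatory integrals `Ke` and `In`. -/

open Complex MeasureTheory Set Filter Topology

namespace Pool.Agent.N30.MZ

open Pool.Agent.W188.QS

/-- the integrand of `Ke` -/
noncomputable def kg (T Δ : ℝ) (n : ℕ) (σ ε y : ℝ) : ℂ :=
  cexp (-((ε : ℂ) + (σ : ℂ) * 2 * Real.pi * n * I) * Real.exp y) *
    cexp ((1 / 2 + (T : ℂ) * I) * y - (Δ : ℂ) ^ 2 * (y : ℂ) ^ 2 / 4)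

/-- the linearized integrand -/
noncomputable def km (T Δ : ℝ) (n : ℕ) (σ y : ℝ) : ℂ :=
  cexp (-((Δ : ℂ) ^ 2 / 4) * (y : ℂ) ^ 2 + ((T - 2 * Real.pi * σ * n : ℝ) : ℂ) * I * y +
    (-(σ * 2 * Real.pi * n * I)))

lemma exp_one {n : ℕ} {σ : ℝ} (hσ : σ = 1 ∨ σ = -1) : cexp (-((σ : ℂ) * 2 * Real.pi * n * I)) = 1 := by
  rcases hσ with h | h
  · subst h
    rw [show -(((1 : ℝ) : ℂ) * 2 * Real.pi * n * I) = ((-(n : ℤ) : ℤ) : ℂ) * (2 * Real.pi * I) by push_cast; ring]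
    exact Complex.exp_int_mul_two_pi_mul_I _
  · subst h
    rw [show -(((-1 : ℝ) : ℂ) * 2 * Real.pi * n * I) = (((n : ℤ) : ℤ) : ℂ) * (2 * Real.pi * I) by push_cast; ring]
    exact Complex.exp_int_mul_two_pi_mul_I _

lemma km_int (T : ℝ) {Δ : ℝ} (hΔ : 0 < Δ) (n : ℕ) {σ : ℝ} (hσ : σ = 1 ∨ σ = -1) :
    ∫ y : ℝ, km T Δ n σ y = ((2 * √Real.pi / Δ * Real.exp (-((T - 2 * Real.pi * σ * n) / Δ) ^ 2) : ℝ) : ℂ) := by
  unfold km
  have hb : (-((Δ : ℂ) ^ 2 / 4)).re < 0 := by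
    have : (-((Δ : ℂ) ^ 2 / 4)) = ((-(Δ ^ 2 / 4) : ℝ) : ℂ) := by push_cast; ring
    rw [this, Complex.ofReal_re]
    have : 0 < Δ ^ 2 := by positivity
    linarith
  rw [integral_cexp_quadratic hb]
  have hΔc : (Δ : ℂ) ≠ 0 := by exact_mod_cast hΔ.ne'
  have e1 : ((Real.pi : ℂ) / - -((Δ : ℂ) ^ 2 / 4)) ^ (1 / 2 : ℂ) = ((2 * √Real.pi / Δ : ℝ) : ℂ) := by
    have h1 : ((Real.pi : ℂ) / - -((Δ : ℂ) ^ 2 / 4)) = ((Real.pi / (Δ ^ 2 / 4) : ℝ) : ℂ) := by push_cast; ring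
    have h2 : (1 / 2 : ℂ) = ((1 / 2 : ℝ) : ℂ) := by push_cast; ring
    rw [h1, h2, ← Complex.ofReal_cpow (by positivity)]
    congr 1
    rw [← Real.sqrt_eq_rpow, show Real.pi / (Δ ^ 2 / 4) = Real.pi * (2 / Δ) ^ 2 by field_simp; ring,
      Real.sqrt_mul Real.pi_pos.le, Real.sqrt_sq (by positivity)]
    ring
  rw [e1]
  have e2 : -((σ : ℂ) * 2 * Real.pi * n * I) - (((T - 2 * Real.pi * σ * n : ℝ) : ℂ) * I) ^ 2 / (4 * -((Δ : ℂ) ^ 2 / 4)) =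
      -((σ : ℂ) * 2 * Real.pi * n * I) + ((-((T - 2 * Real.pi * σ * n) / Δ) ^ 2 : ℝ) : ℂ) := by
    rw [mul_pow, I_sq]
    push_cast
    field_simp
    ring
  rw [e2, Complex.exp_add, exp_one hσ, one_mul, ← Complex.ofReal_exp, ← Complex.ofReal_mul]

lemma km_norm (T Δ : ℝ) (n : ℕ) (σ y : ℝ) : ‖km T Δ n σ y‖ = Real.exp (-(Δ ^ 2 / 4) * y ^ 2) := by
  unfold km
  rw [Complex.norm_exp]
  congr 1
  simp only [add_re, neg_re, mul_re, mul_im, I_re, I_im, ofReal_re, ofReal_im, neg_im, Complex.natCast_re,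
    Complex.natCast_im, Complex.re_ofNat, Complex.im_ofNat]
  have h1 : ((Δ : ℂ) ^ 2 / 4).re = Δ ^ 2 / 4 := by
    have : ((Δ : ℂ) ^ 2 / 4) = ((Δ ^ 2 / 4 : ℝ) : ℂ) := by push_cast; ring
    rw [this, Complex.ofReal_re]
  have h2 : ((Δ : ℂ) ^ 2 / 4).im = 0 := by
    have : ((Δ : ℂ) ^ 2 / 4) = ((Δ ^ 2 / 4 : ℝ) : ℂ) := by push_cast; ring
    rw [this, Complex.ofReal_im]
  have h3 : ((y : ℂ) ^ 2).re = y ^ 2 := by rw [← Complex.ofReal_pow, Complex.ofReal_re]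
  have h4 : ((y : ℂ) ^ 2).im = 0 := by rw [← Complex.ofReal_pow, Complex.ofReal_im]
  rw [h1, h2, h3, h4]
  ring

/-- `e^z - 1` with real and imaginary parts -/
lemma exp_sub_one (a b : ℝ) : ‖cexp ((a : ℂ) + (b : ℂ) * I) - 1‖ ≤ |Real.exp a - 1| + |b| := by
  have e : cexp ((a : ℂ) + (b : ℂ) * I) - 1 = cexp ((b : ℂ) * I) * (cexp a - 1) + (cexp ((b : ℂ) * I) - 1) := by
    rw [Complex.exp_add]; ring
  rw [e]
  refine (norm_add_le _ _).trans (add_le_add ?_ ?_)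
  · rw [norm_mul, Complex.norm_exp_ofReal_mul_I, one_mul, ← Complex.ofReal_exp, ← Complex.ofReal_one,
      ← Complex.ofReal_sub, Complex.norm_real, Real.norm_eq_abs]
  · have := Real.norm_exp_I_mul_ofReal_sub_one_le (x := b)
    rw [mul_comm (b : ℂ) I]
    simpa using this

lemma quad_exp (y : ℝ) : |Real.exp y - 1 - y| ≤ y ^ 2 * Real.exp |y| := by
  have h := Complex.norm_exp_sub_sum_le_norm_mul_exp (y : ℂ) 2
  have e : cexp (y : ℂ) - ∑ m ∈ Finset.range 2, (y : ℂ) ^ m / (m.factorial : ℂ) = ((Real.exp y - 1 - y : ℝ) : ℂ) := by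
    rw [Finset.sum_range_succ, Finset.sum_range_succ, Finset.sum_range_zero]
    simp
    ring
  rw [e, Complex.norm_real, Real.norm_eq_abs, Complex.norm_real, Real.norm_eq_abs, sq_abs] at h
  exact h

lemma lin_exp (y : ℝ) : |Real.exp y - 1| ≤ |y| * Real.exp |y| := by
  have h := Complex.norm_exp_sub_sum_le_norm_mul_exp (y : ℂ) 1
  have e : cexp (y : ℂ) - ∑ m ∈ Finset.range 1, (y : ℂ) ^ m / (m.factorial : ℂ) = ((Real.exp y - 1 : ℝ) : ℂ) := by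
    rw [Finset.sum_range_succ, Finset.sum_range_zero]
    simp
  rw [e, Complex.norm_real, Real.norm_eq_abs, Complex.norm_real, Real.norm_eq_abs, pow_one] at h
  exact h

lemma pt_bound (T : ℝ) {Δ : ℝ} (hΔ : 4 ≤ Δ) (n : ℕ) {σ ε : ℝ} (hσ : σ = 1 ∨ σ = -1) (hε : 0 < ε) (y : ℝ) :
    ‖kg T Δ n σ ε y - km T Δ n σ y‖ ≤ 3 * (ε + 4 / Δ + 128 * n / Δ ^ 2) * Real.exp (-(Δ ^ 2 / 8) * y ^ 2) := by
  have hΔ0 : 0 < Δ := by linarith
  obtain ⟨a, ha⟩ : ∃ a : ℝ, a = -ε * Real.exp y + y / 2 := ⟨_, rfl⟩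
  obtain ⟨b, hb⟩ : ∃ b : ℝ, b = -(2 * Real.pi * σ * n * (Real.exp y - 1 - y)) := ⟨_, rfl⟩
  have e1 : kg T Δ n σ ε y = km T Δ n σ y * cexp ((a : ℂ) + (b : ℂ) * I) := by
    unfold kg km
    rw [← Complex.exp_add, ← Complex.exp_add, ha, hb]
    congr 1
    push_cast
    ring
  have e2 : kg T Δ n σ ε y - km T Δ n σ y = km T Δ n σ y * (cexp ((a : ℂ) + (b : ℂ) * I) - 1) := by
    rw [e1]; ring
  rw [e2, norm_mul, km_norm]
  have h1 := exp_sub_one a b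
  have hs : |σ| = 1 := by rcases hσ with h | h <;> rw [h] <;> simp
  have h2 : |b| ≤ 8 * n * (y ^ 2 * Real.exp |y|) := by
    rw [hb, abs_neg, abs_mul, abs_mul, abs_mul, hs, abs_of_pos (by positivity : 0 < 2 * Real.pi), Nat.abs_cast, mul_one]
    have h3 := quad_exp y
    have h4 := Real.pi_lt_d2
    have h5 : 2 * Real.pi * n ≤ 8 * n := by
      have : (0:ℝ) ≤ n := Nat.cast_nonneg n
      nlinarith
    exact mul_le_mul h5 h3 (abs_nonneg _) (by positivity)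
  have h3 : |Real.exp a - 1| ≤ ε * Real.exp (2 * |y|) + |y| * Real.exp |y| := by
    have e3 : Real.exp a - 1 = Real.exp (y / 2) * (Real.exp (-ε * Real.exp y) - 1) + (Real.exp (y / 2) - 1) := by
      rw [ha, Real.exp_add]; ring
    rw [e3]
    refine (abs_add_le _ _).trans (add_le_add ?_ ?_)
    · rw [abs_mul, abs_of_pos (Real.exp_pos _)]
      have h4 : |Real.exp (-ε * Real.exp y) - 1| ≤ ε * Real.exp y := by
        rw [abs_le]
        have h5 := Real.add_one_le_exp (-ε * Real.exp y)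
        have h6 : Real.exp (-ε * Real.exp y) ≤ 1 := by
          rw [Real.exp_le_one_iff]
          have := mul_pos hε (Real.exp_pos y)
          linarith
        have := mul_pos hε (Real.exp_pos y)
        constructor <;> linarith
      calc Real.exp (y / 2) * |Real.exp (-ε * Real.exp y) - 1| ≤ Real.exp (y / 2) * (ε * Real.exp y) :=
            mul_le_mul_of_nonneg_left h4 (Real.exp_pos _).le
        _ = ε * Real.exp (y / 2 + y) := by rw [Real.exp_add]; ring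
        _ ≤ ε * Real.exp (2 * |y|) := by
            apply mul_le_mul_of_nonneg_left _ hε.le
            apply Real.exp_le_exp.2
            have := le_abs_self y
            have := abs_nonneg y
            linarith
    · refine (lin_exp _).trans ?_
      rw [abs_div, abs_of_pos (by norm_num : (0:ℝ) < 2)]
      have := abs_nonneg y
      apply mul_le_mul (by linarith) (Real.exp_le_exp.2 (by linarith)) (Real.exp_pos _).le this
  -- gaussian bounds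
  have g1 : Real.exp (2 * |y|) * Real.exp (-(Δ ^ 2 / 4) * y ^ 2) ≤ 3 * (Real.exp (-(Δ ^ 2 / 16) * y ^ 2) * Real.exp (-(Δ ^ 2 / 8) * y ^ 2)) := by
    have h4 : 2 * |y| ≤ 1 + Δ ^ 2 / 16 * y ^ 2 := by
      have h5 : 0 ≤ (Δ / 4 * |y| - 1) ^ 2 := sq_nonneg _
      have h6 : (Δ / 4 * |y|) ^ 2 = Δ ^ 2 / 16 * y ^ 2 := by rw [mul_pow, sq_abs]; ring
      have h7 : |y| ≤ Δ / 4 * |y| := by
        have := abs_nonneg y
        nlinarith
      nlinarith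
    rw [← Real.exp_add, ← Real.exp_add]
    have h8 : Real.exp 1 ≤ 3 := by
      have := Real.exp_one_lt_d9
      linarith
    calc Real.exp (2 * |y| + -(Δ ^ 2 / 4) * y ^ 2) ≤ Real.exp (1 + (-(Δ ^ 2 / 16) * y ^ 2 + -(Δ ^ 2 / 8) * y ^ 2)) :=
          Real.exp_le_exp.2 (by linarith)
      _ = Real.exp 1 * Real.exp (-(Δ ^ 2 / 16) * y ^ 2 + -(Δ ^ 2 / 8) * y ^ 2) := by rw [Real.exp_add]
      _ ≤ _ := mul_le_mul_of_nonneg_right h8 (Real.exp_pos _).le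
  have g0 : Real.exp |y| ≤ Real.exp (2 * |y|) := Real.exp_le_exp.2 (by linarith [abs_nonneg y])
  have hE1 : Real.exp (-(Δ ^ 2 / 16) * y ^ 2) ≤ 1 := by
    rw [Real.exp_le_one_iff]
    have : 0 ≤ Δ ^ 2 / 16 * y ^ 2 := by positivity
    linarith
  obtain ⟨x, hx⟩ : ∃ x, x = Δ / 4 * |y| := ⟨_, rfl⟩
  have hx0 : 0 ≤ x := by rw [hx]; positivity
  have hx2 : x ^ 2 = Δ ^ 2 / 16 * y ^ 2 := by rw [hx, mul_pow, sq_abs]; ring
  have hxe : (1 + x ^ 2) * Real.exp (-(Δ ^ 2 / 16) * y ^ 2) ≤ 1 := by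
    rw [neg_mul, ← hx2, Real.exp_neg]
    have := Real.add_one_le_exp (x ^ 2)
    have h9 : 0 < Real.exp (x ^ 2) := Real.exp_pos _
    rw [mul_inv_le_iff₀ h9, one_mul]
    linarith
  have g2 : |y| * Real.exp (-(Δ ^ 2 / 16) * y ^ 2) ≤ 4 / Δ := by
    have h9 : |y| = 4 / Δ * x := by rw [hx]; field_simp
    rw [h9, mul_assoc]
    have h10 : x * Real.exp (-(Δ ^ 2 / 16) * y ^ 2) ≤ 1 := by
      have h11 : x ≤ 1 + x ^ 2 := by nlinarith
      exact (mul_le_mul_of_nonneg_right h11 (Real.exp_pos _).le).trans hxe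
    calc 4 / Δ * (x * Real.exp (-(Δ ^ 2 / 16) * y ^ 2)) ≤ 4 / Δ * 1 := mul_le_mul_of_nonneg_left h10 (by positivity)
      _ = _ := mul_one _
  have g3 : y ^ 2 * Real.exp (-(Δ ^ 2 / 16) * y ^ 2) ≤ 16 / Δ ^ 2 := by
    have h9 : y ^ 2 = 16 / Δ ^ 2 * x ^ 2 := by rw [hx2]; field_simp
    have h10 : x ^ 2 * Real.exp (-(Δ ^ 2 / 16) * y ^ 2) ≤ 1 :=
      (mul_le_mul_of_nonneg_right (by linarith) (Real.exp_pos _).le).trans hxe
    calc y ^ 2 * Real.exp (-(Δ ^ 2 / 16) * y ^ 2) = 16 / Δ ^ 2 * (x ^ 2 * Real.exp (-(Δ ^ 2 / 16) * y ^ 2)) := by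
          nth_rewrite 1 [h9]; ring
      _ ≤ 16 / Δ ^ 2 * 1 := mul_le_mul_of_nonneg_left h10 (by positivity)
      _ = _ := mul_one _
  obtain ⟨E, hE⟩ : ∃ E, E = Real.exp (-(Δ ^ 2 / 16) * y ^ 2) := ⟨_, rfl⟩
  obtain ⟨G, hG⟩ : ∃ G, G = Real.exp (-(Δ ^ 2 / 8) * y ^ 2) := ⟨_, rfl⟩
  obtain ⟨H, hH⟩ : ∃ H, H = Real.exp (-(Δ ^ 2 / 4) * y ^ 2) := ⟨_, rfl⟩
  have hG0 : 0 < G := by rw [hG]; exact Real.exp_pos _
  have hH0 : 0 < H := by rw [hH]; exact Real.exp_pos _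
  rw [← hE] at g1 hE1 g2 g3
  rw [← hG] at g1 ⊢
  rw [← hH] at g1 ⊢
  have hn0 : (0:ℝ) ≤ n := Nat.cast_nonneg n
  have g4 : Real.exp |y| * H ≤ 3 * (E * G) := (mul_le_mul_of_nonneg_right g0 hH0.le).trans g1
  calc H * ‖cexp ((a : ℂ) + (b : ℂ) * I) - 1‖ ≤ H * ((ε * Real.exp (2 * |y|) + |y| * Real.exp |y|) + 8 * n * (y ^ 2 * Real.exp |y|)) :=
        mul_le_mul_of_nonneg_left (h1.trans (add_le_add h3 h2)) hH0.le
    _ = ε * (Real.exp (2 * |y|) * H) + |y| * (Real.exp |y| * H) + 8 * n * y ^ 2 * (Real.exp |y| * H) := by ring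
    _ ≤ ε * (3 * (E * G)) + |y| * (3 * (E * G)) + 8 * n * y ^ 2 * (3 * (E * G)) := by
        apply add_le_add (add_le_add _ _) _
        · exact mul_le_mul_of_nonneg_left g1 hε.le
        · exact mul_le_mul_of_nonneg_left g4 (abs_nonneg _)
        · exact mul_le_mul_of_nonneg_left g4 (by positivity)
    _ = 3 * (ε * E + |y| * E + 8 * n * (y ^ 2 * E)) * G := by ring
    _ ≤ 3 * (ε * 1 + 4 / Δ + 8 * n * (16 / Δ ^ 2)) * G := by
        apply mul_le_mul_of_nonneg_right _ hG0.le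
        apply mul_le_mul_of_nonneg_left _ (by norm_num)
        apply add_le_add (add_le_add _ _) _
        · exact mul_le_mul_of_nonneg_left hE1 hε.le
        · exact g2
        · exact mul_le_mul_of_nonneg_left g3 (by positivity)
    _ = _ := by ring

lemma kg_cont (T Δ : ℝ) (n : ℕ) (σ ε : ℝ) : Continuous (kg T Δ n σ ε) := by
  unfold kg
  fun_prop

lemma km_cont (T Δ : ℝ) (n : ℕ) (σ : ℝ) : Continuous (km T Δ n σ) := by
  unfold km
  fun_prop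

lemma Ke_bound (T : ℝ) {Δ : ℝ} (hΔ : 4 ≤ Δ) (n : ℕ) {σ ε : ℝ} (hσ : σ = 1 ∨ σ = -1) (hε : 0 < ε) :
    ‖Ke T Δ n σ ε - ((2 * √Real.pi / Δ * Real.exp (-((T - 2 * Real.pi * σ * n) / Δ) ^ 2) : ℝ) : ℂ)‖ ≤
      18 / Δ * (ε + 4 / Δ + 128 * n / Δ ^ 2) := by
  have hΔ0 : 0 < Δ := by linarith
  have h8 : 0 < Δ ^ 2 / 8 := by positivity
  have hg : Integrable (fun y : ℝ => Real.exp (-(Δ ^ 2 / 8) * y ^ 2)) := integrable_exp_neg_mul_sq h8
  have hmi : Integrable (km T Δ n σ) := by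
    refine Integrable.mono' (integrable_exp_neg_mul_sq (by positivity : 0 < Δ ^ 2 / 4)) (km_cont _ _ _ _).aestronglyMeasurable ?_
    exact Filter.Eventually.of_forall fun y => (km_norm T Δ n σ y).le
  have hdi : Integrable (fun y => kg T Δ n σ ε y - km T Δ n σ y) := by
    refine Integrable.mono' (hg.const_mul (3 * (ε + 4 / Δ + 128 * n / Δ ^ 2)))
      ((kg_cont _ _ _ _ _).sub (km_cont _ _ _ _)).aestronglyMeasurable ?_
    exact Filter.Eventually.of_forall fun y => pt_bound T hΔ n hσ hε y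
  have e : Ke T Δ n σ ε - ((2 * √Real.pi / Δ * Real.exp (-((T - 2 * Real.pi * σ * n) / Δ) ^ 2) : ℝ) : ℂ) =
      ∫ y : ℝ, (kg T Δ n σ ε y - km T Δ n σ y) := by
    have hki : Integrable (kg T Δ n σ ε) := by
      have := hdi.add hmi
      refine this.congr (Filter.Eventually.of_forall fun y => ?_)
      simp
    rw [integral_sub hki hmi, km_int T hΔ0 n hσ]
    rfl
  rw [e]
  have h1 := norm_integral_le_of_norm_le (hg.const_mul (3 * (ε + 4 / Δ + 128 * n / Δ ^ 2)))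
    (Filter.Eventually.of_forall fun y => pt_bound T hΔ n hσ hε y)
  refine h1.trans ?_
  rw [integral_const_mul, integral_gaussian]
  have h2 : √(Real.pi / (Δ ^ 2 / 8)) ≤ 6 / Δ := by
    rw [show Real.pi / (Δ ^ 2 / 8) = (8 * Real.pi) / Δ ^ 2 by field_simp]
    rw [Real.sqrt_div (by positivity), Real.sqrt_sq hΔ0.le]
    apply div_le_div_of_nonneg_right _ hΔ0.le
    rw [Real.sqrt_le_left (by norm_num)]
    have := Real.pi_lt_d2
    norm_num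
    linarith
  have hn0 : (0:ℝ) ≤ n := Nat.cast_nonneg n
  calc 3 * (ε + 4 / Δ + 128 * n / Δ ^ 2) * √(Real.pi / (Δ ^ 2 / 8)) ≤ 3 * (ε + 4 / Δ + 128 * n / Δ ^ 2) * (6 / Δ) :=
        mul_le_mul_of_nonneg_left h2 (by positivity)
    _ = _ := by ring

/-- the Gaussian at an integer -/
noncomputable def ge (T Δ : ℝ) (x : ℝ) : ℝ := Real.exp (-((T - 2 * Real.pi * x) / Δ) ^ 2)

theorem In_asym (h1 : StMel) (T : ℝ) {Δ : ℝ} (hΔ : 4 ≤ Δ) (n : ℕ) (hn : 1 ≤ n) :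
    ‖In T Δ n - ((2 * Real.pi * (ge T Δ n + ge T Δ (-n)) : ℝ) : ℂ)‖ ≤ 72 * (4 / Δ + 128 * n / Δ ^ 2) := by
  have hΔ0 : 0 < Δ := by linarith
  have hn0 : (0:ℝ) ≤ n := Nat.cast_nonneg n
  have hpi : √Real.pi ≤ 2 := by
    rw [Real.sqrt_le_left (by norm_num)]
    have := Real.pi_lt_d2
    norm_num
    linarith
  have hsq : √Real.pi * √Real.pi = Real.pi := Real.mul_self_sqrt Real.pi_pos.le
  have hl := ((h1 T Δ (by linarith) n hn).sub_const ((2 * Real.pi * (ge T Δ n + ge T Δ (-n)) : ℝ) : ℂ)).norm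
  have hr : Tendsto (fun ε : ℝ => 72 * (ε + 4 / Δ + 128 * n / Δ ^ 2)) (𝓝[>] 0) (𝓝 (72 * (0 + 4 / Δ + 128 * n / Δ ^ 2))) := by
    apply Tendsto.mono_left _ nhdsWithin_le_nhds
    apply Continuous.tendsto
    fun_prop
  rw [zero_add] at hr
  refine le_of_tendsto_of_tendsto hl hr ?_
  filter_upwards [self_mem_nhdsWithin] with ε hε
  have a := Ke_bound T hΔ n (σ := 1) (Or.inl rfl) hε
  have b := Ke_bound T hΔ n (σ := -1) (Or.inr rfl) hε
  obtain ⟨η, hη⟩ : ∃ η, η = ε + 4 / Δ + 128 * n / Δ ^ 2 := ⟨_, rfl⟩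
  have hε' : 0 < ε := hε
  have hη0 : 0 ≤ η := by rw [hη]; positivity
  rw [← hη] at a b ⊢
  have e : ((√Real.pi * Δ : ℝ) : ℂ) * (Ke T Δ n 1 ε + Ke T Δ n (-1) ε) - ((2 * Real.pi * (ge T Δ n + ge T Δ (-n)) : ℝ) : ℂ) =
      ((√Real.pi * Δ : ℝ) : ℂ) * ((Ke T Δ n 1 ε - ((2 * √Real.pi / Δ * Real.exp (-((T - 2 * Real.pi * 1 * n) / Δ) ^ 2) : ℝ) : ℂ)) +
        (Ke T Δ n (-1) ε - ((2 * √Real.pi / Δ * Real.exp (-((T - 2 * Real.pi * (-1) * n) / Δ) ^ 2) : ℝ) : ℂ))) := by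
    have e1 : (2 * Real.pi * (ge T Δ n + ge T Δ (-n)) : ℝ) = (√Real.pi * Δ) * (2 * √Real.pi / Δ * Real.exp (-((T - 2 * Real.pi * 1 * n) / Δ) ^ 2) +
        2 * √Real.pi / Δ * Real.exp (-((T - 2 * Real.pi * (-1) * n) / Δ) ^ 2)) := by
      unfold ge
      rw [show T - 2 * Real.pi * 1 * n = T - 2 * Real.pi * n by ring,
        show T - 2 * Real.pi * (-1) * n = T - 2 * Real.pi * (-n) by ring]
      calc (2 * Real.pi * (Real.exp (-((T - 2 * Real.pi * n) / Δ) ^ 2) + Real.exp (-((T - 2 * Real.pi * (-n)) / Δ) ^ 2)) : ℝ) =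
          2 * (√Real.pi * √Real.pi) * (Real.exp (-((T - 2 * Real.pi * n) / Δ) ^ 2) + Real.exp (-((T - 2 * Real.pi * (-n)) / Δ) ^ 2)) := by
            rw [hsq]
        _ = _ := by field_simp
    rw [e1]
    push_cast
    ring
  rw [e, norm_mul, Complex.norm_real, Real.norm_of_nonneg (by positivity)]
  calc √Real.pi * Δ * ‖_‖ ≤ √Real.pi * Δ * (18 / Δ * η + 18 / Δ * η) :=
        mul_le_mul_of_nonneg_left ((norm_add_le _ _).trans (add_le_add a b)) (by positivity)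
    _ = √Real.pi * (36 * η) := by field_simp; ring
    _ ≤ 2 * (36 * η) := mul_le_mul_of_nonneg_right hpi (by positivity)
    _ = _ := by ring

end Pool.Agent.N30.MZ
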