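import Pool.Agent.N30.MZ.Div
import Pool.Agent.N30.MZ.Ke
import Pool.Agent.W131.QS.JJ

set_option autoImplicit false

/-! Gaussian averages of the divisor functions. -/

open MeasureTheory Set Filter Topology

namespace Pool.Agent.N30.MZ

open Polynomial
open Pool.Agent.W188.QS
open Pool.Agent.W131.QSJJ (dd dd_nonneg dd_zero)

/-- normalized distance -/
noncomputable def uu (T Δ t : ℝ) : ℝ := (T - 2 * Real.pi * t) / Δ

/-- the wider Gaussian -/
noncomputable def hh (T Δ t : ℝ) : ℝ := Real.exp (-(uu T Δ t) ^ 2 / 2)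

lemma ge_def (T Δ t : ℝ) : ge T Δ t = Real.exp (-(uu T Δ t) ^ 2) := rfl

lemma gauss_shift (b c : ℝ) : ∫ t : ℝ, Real.exp (-b * (t - c) ^ 2) = √(Real.pi / b) := by
  rw [← integral_gaussian b]
  exact integral_sub_right_eq_self (fun x => Real.exp (-b * x ^ 2)) c

lemma gauss_shift_int {b : ℝ} (hb : 0 < b) (c : ℝ) : Integrable (fun t : ℝ => Real.exp (-b * (t - c) ^ 2)) :=
  (integrable_exp_neg_mul_sq hb).comp_sub_right c

lemma ge_eq (T : ℝ) {Δ : ℝ} (hΔ : 0 < Δ) (t : ℝ) :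
    ge T Δ t = Real.exp (-((2 * Real.pi / Δ) ^ 2) * (t - T / (2 * Real.pi)) ^ 2) := by
  rw [ge_def]
  unfold uu
  congr 1
  have := Real.pi_pos
  field_simp
  ring

lemma hh_eq (T : ℝ) {Δ : ℝ} (hΔ : 0 < Δ) (t : ℝ) :
    hh T Δ t = Real.exp (-((2 * Real.pi / Δ) ^ 2 / 2) * (t - T / (2 * Real.pi)) ^ 2) := by
  unfold hh uu
  congr 1
  have := Real.pi_pos
  field_simp
  ring

lemma ge_int (T : ℝ) {Δ : ℝ} (hΔ : 0 < Δ) : Integrable (ge T Δ) := by
  have h := gauss_shift_int (b := (2 * Real.pi / Δ) ^ 2) (by positivity) (T / (2 * Real.pi))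
  exact h.congr (Filter.Eventually.of_forall fun t => (ge_eq T hΔ t).symm)

lemma hh_int (T : ℝ) {Δ : ℝ} (hΔ : 0 < Δ) : Integrable (hh T Δ) := by
  have h := gauss_shift_int (b := (2 * Real.pi / Δ) ^ 2 / 2) (by positivity) (T / (2 * Real.pi))
  exact h.congr (Filter.Eventually.of_forall fun t => (hh_eq T hΔ t).symm)

lemma ge_total (T : ℝ) {Δ : ℝ} (hΔ : 0 < Δ) : ∫ t : ℝ, ge T Δ t = Δ / (2 * √Real.pi) := by
  simp only [ge_eq T hΔ]
  rw [gauss_shift]
  have hp := Real.pi_pos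
  have hsq : √Real.pi * √Real.pi = Real.pi := Real.mul_self_sqrt hp.le
  rw [Real.sqrt_div hp.le, Real.sqrt_sq (by positivity)]
  have hs : 0 < √Real.pi := Real.sqrt_pos.2 hp
  rw [div_div_eq_mul_div, div_eq_div_iff (by positivity) (by positivity)]
  calc √Real.pi * Δ * (2 * √Real.pi) = Δ * (2 * (√Real.pi * √Real.pi)) := by ring
    _ = _ := by rw [hsq]

lemma hh_total (T : ℝ) {Δ : ℝ} (hΔ : 0 < Δ) : ∫ t : ℝ, hh T Δ t ≤ Δ / 2 := by
  simp only [hh_eq T hΔ]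
  rw [gauss_shift]
  have hp := Real.pi_gt_three
  rw [Real.sqrt_le_left (by positivity)]
  rw [div_le_iff₀ (by positivity)]
  have : (Δ / 2) ^ 2 * ((2 * Real.pi / Δ) ^ 2 / 2) = Real.pi ^ 2 / 2 := by
    field_simp
  rw [this]
  nlinarith

lemma hh_nonneg (T Δ t : ℝ) : 0 ≤ hh T Δ t := (Real.exp_pos _).le

lemma ge_le_hh (T Δ t : ℝ) : ge T Δ t ≤ hh T Δ t := by
  rw [ge_def]
  unfold hh
  apply Real.exp_le_exp.2
  have := sq_nonneg (uu T Δ t)
  linarith

lemma ge_mul (T Δ t : ℝ) : ge T Δ t = hh T Δ t * Real.exp (-(uu T Δ t) ^ 2 / 2) := by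
  rw [ge_def]
  unfold hh
  rw [← Real.exp_add]
  congr 1
  ring

lemma moment_le (x : ℝ) : (2 + |x| + x ^ 2) * Real.exp (-x ^ 2 / 2) ≤ 5 := by
  have h1 : Real.exp (-x ^ 2 / 2) = (Real.exp (x ^ 2 / 2))⁻¹ := by rw [← Real.exp_neg]; congr 1; ring
  rw [h1, mul_inv_le_iff₀ (Real.exp_pos _)]
  have h2 := Real.add_one_le_exp (x ^ 2 / 2)
  have h3 : |x| ≤ 1 + x ^ 2 / 2 := by
    have h4 : x ^ 2 = |x| ^ 2 := (sq_abs x).symm
    rw [h4]
    nlinarith [sq_nonneg (|x| - 1)]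
  have h5 : 0 ≤ x ^ 2 := sq_nonneg x
  nlinarith

/-- the derivative of the Gaussian -/
lemma ge_deriv (T : ℝ) {Δ : ℝ} (hΔ : 0 < Δ) (t : ℝ) :
    HasDerivAt (ge T Δ) (4 * Real.pi / Δ * uu T Δ t * ge T Δ t) t := by
  have h1 : HasDerivAt (uu T Δ) (-(2 * Real.pi) / Δ) t := by
    unfold uu
    have h2 : HasDerivAt (fun t : ℝ => T - 2 * Real.pi * t) (-(2 * Real.pi)) t := by
      have := ((hasDerivAt_id t).const_mul (2 * Real.pi)).const_sub T
      simpa using this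
    exact h2.div_const Δ
  have h3 : HasDerivAt (fun t => -(uu T Δ t) ^ 2) (4 * Real.pi / Δ * uu T Δ t) t := by
    have := (h1.pow 2).neg
    refine this.congr_deriv ?_
    push_cast
    ring
  have h4 := h3.exp
  refine h4.congr_deriv ?_
  rw [ge_def]
  ring

lemma ge_deriv_le (T : ℝ) {Δ : ℝ} (hΔ : 0 < Δ) (t : ℝ) :
    |4 * Real.pi / Δ * uu T Δ t * ge T Δ t| ≤ 4 * Real.pi / Δ * hh T Δ t := by
  rw [abs_mul, abs_mul, abs_of_pos (by positivity : 0 < 4 * Real.pi / Δ), mul_assoc]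
  apply mul_le_mul_of_nonneg_left _ (by positivity)
  rw [ge_mul, abs_mul, abs_of_nonneg (hh_nonneg T Δ t), abs_of_pos (Real.exp_pos _)]
  have h1 : |uu T Δ t| * Real.exp (-(uu T Δ t) ^ 2 / 2) ≤ 1 := by
    have e : Real.exp (-(uu T Δ t) ^ 2 / 2) = (Real.exp ((uu T Δ t) ^ 2 / 2))⁻¹ := by rw [← Real.exp_neg]; congr 1; ring
    rw [e, mul_inv_le_iff₀ (Real.exp_pos _), one_mul]
    have h2 := Real.add_one_le_exp ((uu T Δ t) ^ 2 / 2)
    have h4 : (uu T Δ t) ^ 2 = |uu T Δ t| ^ 2 := (sq_abs _).symm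
    nlinarith [sq_nonneg (|uu T Δ t| - 1)]
  calc |uu T Δ t| * (hh T Δ t * Real.exp (-(uu T Δ t) ^ 2 / 2)) =
      hh T Δ t * (|uu T Δ t| * Real.exp (-(uu T Δ t) ^ 2 / 2)) := by ring
    _ ≤ hh T Δ t * 1 := mul_le_mul_of_nonneg_left h1 (hh_nonneg _ _ _)
    _ = _ := mul_one _

/-- Lipschitz bound for polynomials on `[0, 2L]` -/
lemma poly_lip (R : ℝ[X]) (r : ℕ) (_hr : 1 ≤ r) (hR : R.natDegree ≤ r) : ∃ A : ℝ, 0 ≤ A ∧ ∀ L : ℝ, 1 ≤ L →
    ∀ x y : ℝ, |x| ≤ 2 * L → |y| ≤ 2 * L → |R.eval x - R.eval y| ≤ A * L ^ (r - 1) * |x - y| := by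
  refine ⟨∑ i ∈ Finset.range (r + 1), |R.coeff i| * (r * 2 ^ r), Finset.sum_nonneg fun i _ => by positivity,
    fun L hL x y hx hy => ?_⟩
  rw [eval_eq_sum_range' (Nat.lt_succ_of_le hR), eval_eq_sum_range' (Nat.lt_succ_of_le hR),
    ← Finset.sum_sub_distrib, Finset.sum_mul, Finset.sum_mul]
  refine (Finset.abs_sum_le_sum_abs _ _).trans (Finset.sum_le_sum fun i hi => ?_)
  rw [Finset.mem_range] at hi
  rw [← mul_sub, abs_mul]
  have h1 := abs_pow_sub_pow_le x y i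
  have h2 : max |x| |y| ^ (i - 1) ≤ 2 ^ r * L ^ (r - 1) := by
    calc max |x| |y| ^ (i - 1) ≤ (2 * L) ^ (i - 1) :=
          pow_le_pow_left₀ ((abs_nonneg x).trans (le_max_left _ _)) (max_le hx hy) _
      _ = 2 ^ (i - 1) * L ^ (i - 1) := mul_pow _ _ _
      _ ≤ 2 ^ r * L ^ (r - 1) := by
          apply mul_le_mul (pow_le_pow_right₀ (by norm_num) (by omega)) (pow_le_pow_right₀ hL (by omega)) (by positivity)
            (by positivity)
  have h3 : (i : ℝ) ≤ r := by exact_mod_cast Nat.lt_succ_iff.1 hi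
  calc |R.coeff i| * |x ^ i - y ^ i| ≤ |R.coeff i| * (|x - y| * r * (2 ^ r * L ^ (r - 1))) := by
        apply mul_le_mul_of_nonneg_left _ (abs_nonneg _)
        refine h1.trans ?_
        apply mul_le_mul (mul_le_mul_of_nonneg_left h3 (abs_nonneg _)) h2 (by positivity) (by positivity)
    _ = _ := by ring

/-- size of a polynomial -/
lemma poly_size (R : ℝ[X]) (r : ℕ) (hR : R.natDegree ≤ r) : ∃ A : ℝ, 0 ≤ A ∧ ∀ L : ℝ, 1 ≤ L → |R.eval L| ≤ A * L ^ r := by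
  refine ⟨∑ i ∈ Finset.range (r + 1), |R.coeff i|, Finset.sum_nonneg fun i _ => by positivity, fun L hL => ?_⟩
  rw [eval_eq_sum_range' (Nat.lt_succ_of_le hR), Finset.sum_mul]
  refine (Finset.abs_sum_le_sum_abs _ _).trans (Finset.sum_le_sum fun i hi => ?_)
  rw [Finset.mem_range] at hi
  rw [abs_mul, abs_of_nonneg (by positivity : 0 ≤ L ^ i)]
  exact mul_le_mul_of_nonneg_left (pow_le_pow_right₀ hL (by omega)) (abs_nonneg _)

lemma log_dist {T Δ t : ℝ} (hT : 20 ≤ T) (hΔ : 0 < Δ) (hL : 1 ≤ Real.log T) (hB : 4 * Δ * √(Real.log T) ≤ T)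
    (ht : 1 ≤ t) : |Real.log t - Real.log T| ≤ 2 + |uu T Δ t| + (uu T Δ t) ^ 2 := by
  have hT0 : 0 < T := by linarith
  have ht0 : 0 < t := by linarith
  have hp := Real.pi_gt_three
  have hp2 := Real.pi_lt_d2
  obtain ⟨L, hLd⟩ : ∃ L, L = Real.log T := ⟨_, rfl⟩
  rw [← hLd] at hL hB ⊢
  have hs : 1 ≤ √L := by rw [Real.one_le_sqrt]; exact hL
  have hΔT : 4 * Δ ≤ T := by nlinarith
  obtain ⟨v, hv⟩ : ∃ v, v = 2 * Real.pi * t / T := ⟨_, rfl⟩
  have hv0 : 0 < v := by rw [hv]; positivity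
  obtain ⟨u, hu⟩ : ∃ u, u = uu T Δ t := ⟨_, rfl⟩
  rw [← hu]
  have e1 : v - 1 = -(u * (Δ / T)) := by
    rw [hv, hu]; unfold uu; field_simp; ring
  have e2 : Real.log t - L = Real.log v - Real.log (2 * Real.pi) := by
    rw [hv, Real.log_div (by positivity) hT0.ne', Real.log_mul (by positivity) ht0.ne', hLd]; ring
  have h2p : 0 ≤ Real.log (2 * Real.pi) := Real.log_nonneg (by linarith)
  have h2p' : Real.log (2 * Real.pi) ≤ 2 := by
    rw [Real.log_le_iff_le_exp (by positivity)]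
    have h3 : Real.exp 2 = Real.exp 1 * Real.exp 1 := by rw [← Real.exp_add]; norm_num
    have h4 := Real.exp_one_gt_d9
    rw [h3]
    nlinarith
  have h5 : |Real.log v| ≤ |u| + u ^ 2 := by
    have hu1 : |v - 1| = |u| * (Δ / T) := by rw [e1, abs_neg, abs_mul, abs_of_pos (by positivity : 0 < Δ / T)]
    by_cases hc : 1 / 2 ≤ v
    · have h6 : |Real.log v| ≤ 2 * |v - 1| := by
        rcases le_total 1 v with h | h
        · rw [abs_of_nonneg (Real.log_nonneg h), abs_of_nonneg (by linarith)]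
          have := Real.log_le_sub_one_of_pos hv0
          linarith
        · rw [abs_of_nonpos (Real.log_nonpos hv0.le h), abs_of_nonpos (by linarith)]
          have h7 := Real.log_le_sub_one_of_pos (by positivity : 0 < v⁻¹)
          rw [Real.log_inv] at h7
          have h8 : v⁻¹ - 1 ≤ 2 * (1 - v) := by
            rw [sub_le_iff_le_add, inv_le_iff_one_le_mul₀ hv0]
            nlinarith
          linarith
      rw [hu1] at h6
      have h7 : Δ / T ≤ 1 / 4 := by rw [div_le_div_iff₀ hT0 (by norm_num)]; linarith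
      have h8 := abs_nonneg u
      have h9 := sq_nonneg u
      nlinarith
    · rw [not_le] at hc
      have h6 : |Real.log v| ≤ L := by
        rw [abs_of_nonpos (Real.log_nonpos hv0.le (by linarith)), hLd, ← Real.log_inv]
        apply Real.log_le_log (by positivity)
        rw [hv, inv_div, div_le_iff₀ (by positivity)]
        have h61 : 1 ≤ 2 * Real.pi * t := by nlinarith
        nlinarith
      have h7 : 1 / 2 ≤ |u| * (Δ / T) := by
        rw [← hu1, abs_of_nonpos (by linarith)]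
        linarith
      have h8 : L * (Δ / T) ^ 2 ≤ 1 / 16 := by
        have h9 : Δ * √L / T ≤ 1 / 4 := by
          rw [div_le_div_iff₀ hT0 (by norm_num)]; linarith
        have h10 : L * (Δ / T) ^ 2 = (Δ * √L / T) ^ 2 := by
          rw [div_pow, div_pow, mul_pow, Real.sq_sqrt (by linarith)]; ring
        rw [h10]
        have : 0 ≤ Δ * √L / T := by positivity
        nlinarith
      have h9 : 1 / 4 ≤ u ^ 2 * (Δ / T) ^ 2 := by
        have : (1 / 2 : ℝ) ^ 2 ≤ (|u| * (Δ / T)) ^ 2 := pow_le_pow_left₀ (by norm_num) h7 2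
        rw [mul_pow, sq_abs] at this
        linarith
      have h10 : L ≤ u ^ 2 := by
        have h11 : 0 < (Δ / T) ^ 2 := by positivity
        have h12 : L * (Δ / T) ^ 2 ≤ u ^ 2 * (Δ / T) ^ 2 := by linarith
        exact le_of_mul_le_mul_right h12 h11
      have := abs_nonneg u
      linarith
  rw [e2]
  rw [abs_le] at h5 ⊢
  constructor <;> linarith [h5.1, h5.2]

lemma sum_eq_SD (r : ℕ) (t : ℝ) : ∑ k ∈ Finset.Icc 0 ⌊t⌋₊, dd (r + 1) k = Pool.Agent.TH935.LP.SD (r + 1) ⌊t⌋₊ := by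
  rw [← Finset.sum_subset (Finset.Icc_subset_Icc_left (Nat.zero_le 1))]
  · rfl
  · intro x hx hx2
    rw [Finset.mem_Icc] at hx hx2
    have : x = 0 := by omega
    rw [this, dd_zero]

lemma uu_far {T Δ t : ℝ} (hT : 20 ≤ T) (hΔ : 0 < Δ) (hB : 4 * Δ * √(Real.log T) ≤ T) (ht : t ≤ 1 ∨ 2 * T < t) :
    Real.exp (-(uu T Δ t) ^ 2 / 2) ≤ T ^ (-(2 : ℝ)) := by
  have hT0 : 0 < T := by linarith
  have hp := Real.pi_gt_three
  have hp2 := Real.pi_lt_d2
  have hL : 0 ≤ Real.log T := Real.log_nonneg (by linarith)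
  rw [Real.rpow_def_of_pos hT0]
  apply Real.exp_le_exp.2
  have h1 : (T / 2) ^ 2 ≤ (T - 2 * Real.pi * t) ^ 2 := by
    rcases ht with h | h
    · have : T / 2 ≤ T - 2 * Real.pi * t := by nlinarith
      nlinarith
    · have : T / 2 ≤ -(T - 2 * Real.pi * t) := by nlinarith
      nlinarith
  have h2 : 4 * Real.log T ≤ (uu T Δ t) ^ 2 := by
    unfold uu
    rw [div_pow, le_div_iff₀ (by positivity)]
    have h3 : (4 * Δ * √(Real.log T)) ^ 2 ≤ T ^ 2 := pow_le_pow_left₀ (by positivity) hB 2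
    rw [mul_pow, Real.sq_sqrt hL] at h3
    nlinarith
  linarith

theorem gs (r : ℕ) (hr : 1 ≤ r) : ∃ K δ : ℝ, 0 ≤ K ∧ 0 < δ ∧ ∀ T Δ : ℝ, 20 ≤ T → 1 ≤ Δ →
    4 * Δ * √(Real.log T) ≤ T →
    |∑ n ∈ Finset.Icc 1 ⌊2 * T⌋₊, dd (r + 1) n * ge T Δ n - Δ / (2 * √Real.pi) * (Real.log T ^ r / (r.factorial : ℝ))| ≤
      K * (Δ * Real.log T ^ (r - 1) + T ^ (1 - δ)) := by
  obtain ⟨P, hP, hPc, C0, δ0, hC0, hδ0, hD⟩ := div_asym r hr
  obtain ⟨δ, hδd⟩ : ∃ δ, δ = min δ0 1 := ⟨_, rfl⟩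
  have hδ : 0 < δ := by rw [hδd]; exact lt_min hδ0 one_pos
  have hδ1 : δ ≤ 1 := by rw [hδd]; exact min_le_right _ _
  obtain ⟨R, hR⟩ : ∃ R : ℝ[X], R = P + derivative P := ⟨_, rfl⟩
  have hRd : R.natDegree ≤ r := by
    rw [hR]
    refine (natDegree_add_le _ _).trans (max_le hP ?_)
    exact (natDegree_derivative_le P).trans (by omega)
  have hRc : R.coeff r = 1 / (r.factorial : ℝ) := by
    rw [hR, coeff_add, hPc]
    have : (derivative P).coeff r = 0 := by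
      apply coeff_eq_zero_of_natDegree_lt
      exact lt_of_le_of_lt (natDegree_derivative_le P) (by omega)
    rw [this, add_zero]
  obtain ⟨A1, hA1, htop⟩ := poly_top R r hr hRd
  obtain ⟨A2, hA2, hlip⟩ := poly_lip R r hr hRd
  obtain ⟨A3, hA3, hsize⟩ := poly_size R r hRd
  refine ⟨15 * C0 + |P.eval 0| + 3 * A2 + A3 * r.factorial + A1 + 1, δ, by positivity, hδ, fun T Δ hT hΔ hB => ?_⟩
  have hT0 : 0 < T := by linarith
  have hΔ0 : 0 < Δ := by linarith
  have hp := Real.pi_gt_three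
  have hp2 := Real.pi_lt_d2
  obtain ⟨L, hLd⟩ : ∃ L, L = Real.log T := ⟨_, rfl⟩
  have hL1 : 1 ≤ L := by
    rw [hLd, Real.le_log_iff_exp_le hT0]
    have := Real.exp_one_lt_d9
    linarith
  have hlogdist : ∀ t : ℝ, 1 ≤ t → |Real.log t - L| ≤ 2 + |uu T Δ t| + (uu T Δ t) ^ 2 := fun t ht => by
    rw [hLd]
    exact log_dist hT hΔ0 (by rw [← hLd]; exact hL1) hB ht
  have h1b : (1 : ℝ) ≤ 2 * T := by linarith
  -- Abel summation
  have hdiff : ∀ t ∈ Icc (1 : ℝ) (2 * T), DifferentiableAt ℝ (ge T Δ) t := fun t _ => (ge_deriv T hΔ0 t).differentiableAt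
  have hder : deriv (ge T Δ) = fun t => 4 * Real.pi / Δ * uu T Δ t * ge T Δ t := by
    ext t
    exact (ge_deriv T hΔ0 t).deriv
  have hgc : Continuous (ge T Δ) := continuous_iff_continuousAt.2 fun t => (ge_deriv T hΔ0 t).continuousAt
  have huc : Continuous (uu T Δ) := by
    unfold uu
    fun_prop
  have hdc : Continuous (fun t => 4 * Real.pi / Δ * uu T Δ t * ge T Δ t) := by fun_prop
  have hdint : IntegrableOn (deriv (ge T Δ)) (Icc 1 (2 * T)) := by
    rw [hder]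
    exact hdc.integrableOn_Icc
  have hab := sum_mul_eq_sub_integral_mul₀ (fun k => dd (r + 1) k) (dd_zero _) (2 * T) hdiff hdint
  have hS : ∑ n ∈ Finset.Icc 1 ⌊2 * T⌋₊, dd (r + 1) n * ge T Δ n = ∑ k ∈ Finset.Icc 0 ⌊2 * T⌋₊, ge T Δ k * dd (r + 1) k := by
    rw [← Finset.sum_subset (Finset.Icc_subset_Icc_left (Nat.zero_le 1)) (s₂ := Finset.Icc 0 ⌊2 * T⌋₊)]
    · exact Finset.sum_congr rfl fun _ _ => mul_comm _ _
    · intro x hx hx2
      rw [Finset.mem_Icc] at hx hx2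
      have : x = 0 := by omega
      rw [this, dd_zero, mul_zero]
  rw [hS, hab, hder]
  simp only [sum_eq_SD]
  rw [← intervalIntegral.integral_of_le h1b]
  -- the main term
  obtain ⟨G, hG⟩ : ∃ G : ℝ → ℝ, G = fun t => t * P.eval (Real.log t) := ⟨_, rfl⟩
  have hGd : ∀ t : ℝ, 0 < t → HasDerivAt G (R.eval (Real.log t)) t := by
    intro t ht
    rw [hG]
    have h1 : HasDerivAt (fun t => P.eval (Real.log t)) ((derivative P).eval (Real.log t) * t⁻¹) t :=
      (P.hasDerivAt (Real.log t)).comp t (Real.hasDerivAt_log ht.ne')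
    have h2 := (hasDerivAt_id t).mul h1
    refine h2.congr_deriv ?_
    rw [hR, eval_add]
    simp only [id]
    field_simp
  have huIcc : uIcc (1 : ℝ) (2 * T) = Icc 1 (2 * T) := uIcc_of_le h1b
  have hRcont : ContinuousOn (fun t => R.eval (Real.log t)) (Icc 1 (2 * T)) := by
    apply R.continuous.comp_continuousOn
    apply Real.continuousOn_log.mono
    intro t ht
    have : 0 < t := by linarith [ht.1]
    simp [this.ne']
  have hGcont : ContinuousOn G (Icc 1 (2 * T)) := fun t ht => (hGd t (by linarith [ht.1])).continuousAt.continuousWithinAt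
  have hparts := intervalIntegral.integral_mul_deriv_eq_deriv_mul (a := 1) (b := 2 * T) (u := ge T Δ) (v := G)
    (u' := fun t => 4 * Real.pi / Δ * uu T Δ t * ge T Δ t) (v' := fun t => R.eval (Real.log t))
    (fun t _ => ge_deriv T hΔ0 t) (fun t ht => hGd t (by rw [huIcc] at ht; linarith [ht.1]))
    (hdc.intervalIntegrable _ _) ((huIcc ▸ hRcont).intervalIntegrable)
  -- the error
  obtain ⟨M, hM⟩ : ∃ M, M = C0 * (2 * T) ^ (1 - δ) := ⟨_, rfl⟩
  have hM0 : 0 ≤ M := by rw [hM]; positivity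
  have hE : ∀ t ∈ Icc (1 : ℝ) (2 * T), |Pool.Agent.TH935.LP.SD (r + 1) ⌊t⌋₊ - G t| ≤ M := by
    intro t ht
    rw [hG, hM]
    refine (hD t ht.1).trans (mul_le_mul_of_nonneg_left ?_ hC0)
    calc t ^ (1 - δ0) ≤ t ^ (1 - δ) := Real.rpow_le_rpow_of_exponent_le ht.1 (by
          have : δ ≤ δ0 := by rw [hδd]; exact min_le_left _ _
          linarith)
      _ ≤ (2 * T) ^ (1 - δ) := Real.rpow_le_rpow (by linarith [ht.1]) ht.2 (by linarith)
  have hCint : IntervalIntegrable (fun t => 4 * Real.pi / Δ * uu T Δ t * ge T Δ t * Pool.Agent.TH935.LP.SD (r + 1) ⌊t⌋₊)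
      volume 1 (2 * T) := by
    rw [intervalIntegrable_iff_integrableOn_Icc_of_le h1b]
    have := integrableOn_mul_sum_Icc (m := 0) (fun k => dd (r + 1) k) (by norm_num : (0:ℝ) ≤ 1) hdint
    rw [hder] at this
    simp only [sum_eq_SD] at this
    exact this
  have hGint : IntervalIntegrable (fun t => 4 * Real.pi / Δ * uu T Δ t * ge T Δ t * G t) volume 1 (2 * T) := by
    apply ContinuousOn.intervalIntegrable
    rw [huIcc]
    exact hdc.continuousOn.mul hGcont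
  have hI1 : |(∫ t in (1 : ℝ)..(2 * T), 4 * Real.pi / Δ * uu T Δ t * ge T Δ t * Pool.Agent.TH935.LP.SD (r + 1) ⌊t⌋₊) -
      ∫ t in (1 : ℝ)..(2 * T), 4 * Real.pi / Δ * uu T Δ t * ge T Δ t * G t| ≤ 2 * Real.pi * M := by
    rw [← intervalIntegral.integral_sub hCint hGint, ← Real.norm_eq_abs]
    have hb : ∀ t ∈ Ioc (1 : ℝ) (2 * T), ‖4 * Real.pi / Δ * uu T Δ t * ge T Δ t * Pool.Agent.TH935.LP.SD (r + 1) ⌊t⌋₊ -
        4 * Real.pi / Δ * uu T Δ t * ge T Δ t * G t‖ ≤ 4 * Real.pi / Δ * M * hh T Δ t := by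
      intro t ht
      rw [← mul_sub, norm_mul, Real.norm_eq_abs, Real.norm_eq_abs]
      calc _ ≤ (4 * Real.pi / Δ * hh T Δ t) * M :=
            mul_le_mul (ge_deriv_le T hΔ0 t) (hE t ⟨ht.1.le, ht.2⟩) (abs_nonneg _) (mul_nonneg (by positivity) (hh_nonneg _ _ _))
        _ = _ := by ring
    have h1 := intervalIntegral.norm_integral_le_of_norm_le h1b (Filter.Eventually.of_forall hb)
      (((hh_int T hΔ0).const_mul _).intervalIntegrable)
    refine h1.trans ?_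
    rw [intervalIntegral.integral_const_mul]
    have h2 : ∫ t in (1 : ℝ)..(2 * T), hh T Δ t ≤ Δ / 2 := by
      rw [intervalIntegral.integral_of_le h1b]
      exact (setIntegral_le_integral (hh_int T hΔ0) (Filter.Eventually.of_forall fun t => hh_nonneg _ _ _)).trans (hh_total T hΔ0)
    calc 4 * Real.pi / Δ * M * ∫ t in (1 : ℝ)..(2 * T), hh T Δ t ≤ 4 * Real.pi / Δ * M * (Δ / 2) :=
          mul_le_mul_of_nonneg_left h2 (by positivity)
      _ = 2 * Real.pi * M := by field_simp; ring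
  have hgb : ge T Δ (2 * T) ≤ 1 := by
    rw [ge_def, Real.exp_le_one_iff]
    have := sq_nonneg (uu T Δ (2 * T))
    linarith
  have hgb0 : 0 ≤ ge T Δ (2 * T) := by rw [ge_def]; exact (Real.exp_pos _).le
  have hg1 : ge T Δ 1 ≤ 1 := by
    rw [ge_def, Real.exp_le_one_iff]
    have := sq_nonneg (uu T Δ 1)
    linarith
  have hg10 : 0 ≤ ge T Δ 1 := by rw [ge_def]; exact (Real.exp_pos _).le
  have hb1 : |ge T Δ (2 * T) * (Pool.Agent.TH935.LP.SD (r + 1) ⌊2 * T⌋₊ - G (2 * T))| ≤ M := by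
    rw [abs_mul, abs_of_nonneg hgb0]
    calc _ ≤ 1 * M := mul_le_mul hgb (hE _ ⟨h1b, le_rfl⟩) (abs_nonneg _) zero_le_one
      _ = M := one_mul _
  have hb2 : |ge T Δ 1 * G 1| ≤ |P.eval 0| := by
    rw [hG]
    simp only [Real.log_one, one_mul]
    rw [abs_mul, abs_of_nonneg hg10]
    calc _ ≤ 1 * |P.eval 0| := mul_le_mul_of_nonneg_right hg1 (abs_nonneg _)
      _ = _ := one_mul _
  -- the integral of `ge * R (log)`
  have hfR : IntervalIntegrable (fun t => ge T Δ t * R.eval (Real.log t)) volume 1 (2 * T) := by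
    apply ContinuousOn.intervalIntegrable
    rw [huIcc]
    exact hgc.continuousOn.mul hRcont
  have hI2 : |(∫ t in (1 : ℝ)..(2 * T), ge T Δ t * R.eval (Real.log t)) - R.eval L * ∫ t in (1 : ℝ)..(2 * T), ge T Δ t| ≤
      3 * A2 * (Δ * L ^ (r - 1)) := by
    rw [← intervalIntegral.integral_const_mul, ← intervalIntegral.integral_sub hfR
      ((hgc.intervalIntegrable _ _).const_mul _), ← Real.norm_eq_abs]
    have hb : ∀ t ∈ Ioc (1 : ℝ) (2 * T), ‖ge T Δ t * R.eval (Real.log t) - R.eval L * ge T Δ t‖ ≤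
        5 * A2 * L ^ (r - 1) * hh T Δ t := by
      intro t ht
      have ht0 : 0 < t := by linarith [ht.1]
      have e : ge T Δ t * R.eval (Real.log t) - R.eval L * ge T Δ t = ge T Δ t * (R.eval (Real.log t) - R.eval L) := by ring
      rw [e, norm_mul, Real.norm_eq_abs, Real.norm_eq_abs, ge_mul, abs_mul, abs_of_nonneg (hh_nonneg _ _ _), abs_of_pos (Real.exp_pos _)]
      have h1 : |Real.log t| ≤ 2 * L := by
        rw [abs_of_nonneg (Real.log_nonneg ht.1.le)]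
        have h2 : Real.log t ≤ Real.log (2 * T) := Real.log_le_log ht0 ht.2
        rw [Real.log_mul (by norm_num) hT0.ne', ← hLd] at h2
        have h3 : Real.log 2 ≤ 1 := by
          have := Real.log_two_lt_d9
          linarith
        linarith
      have h2 : |L| ≤ 2 * L := by rw [abs_of_nonneg (by linarith)]; linarith
      have h3 := hlip L hL1 (Real.log t) L h1 h2
      have h4 := hlogdist t ht.1.le
      have h5 := moment_le (uu T Δ t)
      calc hh T Δ t * Real.exp (-(uu T Δ t) ^ 2 / 2) * |R.eval (Real.log t) - R.eval L| ≤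
          hh T Δ t * Real.exp (-(uu T Δ t) ^ 2 / 2) * (A2 * L ^ (r - 1) * (2 + |uu T Δ t| + (uu T Δ t) ^ 2)) := by
            apply mul_le_mul_of_nonneg_left _ (mul_nonneg (hh_nonneg _ _ _) (Real.exp_pos _).le)
            exact h3.trans (mul_le_mul_of_nonneg_left h4 (by positivity))
        _ = A2 * L ^ (r - 1) * hh T Δ t * ((2 + |uu T Δ t| + (uu T Δ t) ^ 2) * Real.exp (-(uu T Δ t) ^ 2 / 2)) := by ring
        _ ≤ A2 * L ^ (r - 1) * hh T Δ t * 5 := by
            apply mul_le_mul_of_nonneg_left h5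
            exact mul_nonneg (by positivity) (hh_nonneg _ _ _)
        _ = _ := by ring
    have h1 := intervalIntegral.norm_integral_le_of_norm_le h1b (Filter.Eventually.of_forall hb)
      (((hh_int T hΔ0).const_mul _).intervalIntegrable)
    refine h1.trans ?_
    rw [intervalIntegral.integral_const_mul]
    have h2 : ∫ t in (1 : ℝ)..(2 * T), hh T Δ t ≤ Δ / 2 := by
      rw [intervalIntegral.integral_of_le h1b]
      exact (setIntegral_le_integral (hh_int T hΔ0) (Filter.Eventually.of_forall fun t => hh_nonneg _ _ _)).trans (hh_total T hΔ0)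
    calc 5 * A2 * L ^ (r - 1) * ∫ t in (1 : ℝ)..(2 * T), hh T Δ t ≤ 5 * A2 * L ^ (r - 1) * (Δ / 2) :=
          mul_le_mul_of_nonneg_left h2 (by positivity)
      _ ≤ _ := by
          have : 0 ≤ A2 * L ^ (r - 1) * Δ := by positivity
          nlinarith
  -- the tails of the Gaussian
  have hI3 : |(∫ t in (1 : ℝ)..(2 * T), ge T Δ t) - Δ / (2 * √Real.pi)| ≤ T ^ (-(2 : ℝ)) * Δ := by
    rw [← ge_total T hΔ0, intervalIntegral.integral_of_le h1b]
    have e : (∫ t : ℝ, ge T Δ t) = (∫ t in Ioc 1 (2 * T), ge T Δ t) + ∫ t in (Ioc 1 (2 * T))ᶜ, ge T Δ t :=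
      (integral_add_compl measurableSet_Ioc (ge_int T hΔ0)).symm
    have hge0 : ∀ t, 0 ≤ ge T Δ t := fun t => by rw [ge_def]; exact (Real.exp_pos _).le
    have h0 : 0 ≤ ∫ t in (Ioc 1 (2 * T))ᶜ, ge T Δ t := setIntegral_nonneg measurableSet_Ioc.compl fun t _ => hge0 t
    have h1 : ∫ t in (Ioc 1 (2 * T))ᶜ, ge T Δ t ≤ ∫ t in (Ioc 1 (2 * T))ᶜ, T ^ (-(2 : ℝ)) * hh T Δ t := by
      apply setIntegral_mono_on (ge_int T hΔ0).integrableOn ((hh_int T hΔ0).const_mul _).integrableOn measurableSet_Ioc.compl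
      intro t ht
      rw [ge_mul, mul_comm]
      apply mul_le_mul_of_nonneg_right _ (hh_nonneg _ _ _)
      apply uu_far hT hΔ0 hB
      rw [mem_compl_iff, mem_Ioc, not_and_or, not_lt, not_le] at ht
      exact ht
    have h2 : ∫ t in (Ioc 1 (2 * T))ᶜ, T ^ (-(2 : ℝ)) * hh T Δ t ≤ T ^ (-(2 : ℝ)) * (Δ / 2) := by
      rw [integral_const_mul]
      apply mul_le_mul_of_nonneg_left _ (by positivity)
      exact (setIntegral_le_integral (hh_int T hΔ0) (Filter.Eventually.of_forall fun t => hh_nonneg _ _ _)).trans (hh_total T hΔ0)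
    have h3 : 0 ≤ T ^ (-(2 : ℝ)) * Δ := by positivity
    rw [e, abs_le]
    constructor <;> linarith
  have hI4 : |R.eval L| * (T ^ (-(2 : ℝ)) * Δ) ≤ A3 * r.factorial * (Δ * L ^ (r - 1)) := by
    have h1 := hsize L hL1
    have h2 : L ^ r * T ^ (-(2 : ℝ)) ≤ r.factorial := by
      have h3 := Real.pow_div_factorial_le_exp L (by linarith : 0 ≤ L) r
      have h4 : (0 : ℝ) < r.factorial := by exact_mod_cast Nat.factorial_pos r
      rw [div_le_iff₀ h4, hLd, Real.exp_log hT0, ← hLd] at h3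
      have h5 : T * T ^ (-(2 : ℝ)) ≤ 1 := by
        nth_rewrite 1 [← Real.rpow_one T]
        rw [← Real.rpow_add hT0]
        exact Real.rpow_le_one_of_one_le_of_nonpos (by linarith) (by norm_num)
      calc L ^ r * T ^ (-(2 : ℝ)) ≤ (T * r.factorial) * T ^ (-(2 : ℝ)) := mul_le_mul_of_nonneg_right h3 (by positivity)
        _ = r.factorial * (T * T ^ (-(2 : ℝ))) := by ring
        _ ≤ r.factorial * 1 := mul_le_mul_of_nonneg_left h5 h4.le
        _ = _ := mul_one _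
    calc |R.eval L| * (T ^ (-(2 : ℝ)) * Δ) ≤ (A3 * L ^ r) * (T ^ (-(2 : ℝ)) * Δ) :=
          mul_le_mul_of_nonneg_right h1 (by positivity)
      _ = A3 * Δ * (L ^ r * T ^ (-(2 : ℝ))) := by ring
      _ ≤ A3 * Δ * r.factorial := mul_le_mul_of_nonneg_left h2 (by positivity)
      _ = A3 * r.factorial * (Δ * 1) := by ring
      _ ≤ _ := by
          apply mul_le_mul_of_nonneg_left _ (by positivity)
          apply mul_le_mul_of_nonneg_left _ hΔ0.le
          exact one_le_pow₀ hL1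
  have hI5 : |R.eval L - L ^ r / (r.factorial : ℝ)| * (Δ / (2 * √Real.pi)) ≤ A1 * (Δ * L ^ (r - 1)) := by
    have h1 := htop L hL1
    rw [hRc, one_div, inv_mul_eq_div] at h1
    have h2 : Δ / (2 * √Real.pi) ≤ Δ := by
      apply div_le_self hΔ0.le
      have : 1 ≤ √Real.pi := by rw [Real.one_le_sqrt]; linarith
      linarith
    calc _ ≤ (A1 * L ^ (r - 1)) * Δ := mul_le_mul h1 h2 (by positivity) (by positivity)
      _ = _ := by ring
  have hMle : (1 + 2 * Real.pi) * M ≤ 15 * C0 * T ^ (1 - δ) := by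
    rw [hM, Real.mul_rpow (by norm_num) hT0.le]
    have h1 : (2 : ℝ) ^ (1 - δ) ≤ 2 := by
      calc (2 : ℝ) ^ (1 - δ) ≤ 2 ^ (1 : ℝ) := Real.rpow_le_rpow_of_exponent_le (by norm_num) (by linarith)
        _ = 2 := Real.rpow_one 2
    have h2 : (0:ℝ) ≤ C0 * T ^ (1 - δ) := by positivity
    calc (1 + 2 * Real.pi) * (C0 * ((2:ℝ) ^ (1 - δ) * T ^ (1 - δ))) = (1 + 2 * Real.pi) * (2:ℝ) ^ (1 - δ) * (C0 * T ^ (1 - δ)) := by ring
      _ ≤ (7.3 * 2) * (C0 * T ^ (1 - δ)) := by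
          apply mul_le_mul_of_nonneg_right _ h2
          apply mul_le_mul (by linarith) h1 (by positivity) (by norm_num)
      _ ≤ _ := by nlinarith
  -- assembly
  rw [← hLd]
  obtain ⟨a1, ha1⟩ : ∃ x, x = ∫ t in (1 : ℝ)..(2 * T), 4 * Real.pi / Δ * uu T Δ t * ge T Δ t * Pool.Agent.TH935.LP.SD (r + 1) ⌊t⌋₊ := ⟨_, rfl⟩
  obtain ⟨a2, ha2⟩ : ∃ x, x = ∫ t in (1 : ℝ)..(2 * T), 4 * Real.pi / Δ * uu T Δ t * ge T Δ t * G t := ⟨_, rfl⟩
  obtain ⟨a3, ha3⟩ : ∃ x, x = ∫ t in (1 : ℝ)..(2 * T), ge T Δ t * R.eval (Real.log t) := ⟨_, rfl⟩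
  obtain ⟨a4, ha4⟩ : ∃ x, x = ∫ t in (1 : ℝ)..(2 * T), ge T Δ t := ⟨_, rfl⟩
  rw [← ha1, ← ha2] at hI1
  rw [← ha3, ← ha4] at hI2
  rw [← ha4] at hI3
  rw [← ha2, ← ha3] at hparts
  rw [← ha1]
  have hkey : ge T Δ (2 * T) * Pool.Agent.TH935.LP.SD (r + 1) ⌊2 * T⌋₊ - a1 - Δ / (2 * √Real.pi) * (L ^ r / (r.factorial : ℝ)) =
      ge T Δ (2 * T) * (Pool.Agent.TH935.LP.SD (r + 1) ⌊2 * T⌋₊ - G (2 * T)) + ge T Δ 1 * G 1 - (a1 - a2) + (a3 - R.eval L * a4) +
        R.eval L * (a4 - Δ / (2 * √Real.pi)) + (R.eval L - L ^ r / (r.factorial : ℝ)) * (Δ / (2 * √Real.pi)) := by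
    linear_combination -hparts
  rw [hkey]
  have hx5 : |R.eval L * (a4 - Δ / (2 * √Real.pi))| ≤ A3 * r.factorial * (Δ * L ^ (r - 1)) := by
    rw [abs_mul]
    exact (mul_le_mul_of_nonneg_left hI3 (abs_nonneg _)).trans hI4
  have hx6 : |(R.eval L - L ^ r / (r.factorial : ℝ)) * (Δ / (2 * √Real.pi))| ≤ A1 * (Δ * L ^ (r - 1)) := by
    rw [abs_mul, abs_of_pos (by positivity : 0 < Δ / (2 * √Real.pi))]
    exact hI5
  have hy : |P.eval 0| ≤ |P.eval 0| * (Δ * L ^ (r - 1)) := by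
    have h1 : 1 ≤ Δ * L ^ (r - 1) := one_le_mul_of_one_le_of_one_le hΔ (one_le_pow₀ hL1)
    exact le_mul_of_one_le_right (abs_nonneg _) h1
  have hz1 : 0 ≤ Δ * L ^ (r - 1) := by positivity
  have hz2 : 0 ≤ T ^ (1 - δ) := by positivity
  have hn1 : 0 ≤ (|P.eval 0| + 3 * A2 + A3 * r.factorial + A1 + 1) * T ^ (1 - δ) := by positivity
  have hn2 : 0 ≤ (15 * C0 + 1) * (Δ * L ^ (r - 1)) := by positivity
  have t1 := abs_add_le (ge T Δ (2 * T) * (Pool.Agent.TH935.LP.SD (r + 1) ⌊2 * T⌋₊ - G (2 * T)) + ge T Δ 1 * G 1 - (a1 - a2) + (a3 - R.eval L * a4) +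
        R.eval L * (a4 - Δ / (2 * √Real.pi))) ((R.eval L - L ^ r / (r.factorial : ℝ)) * (Δ / (2 * √Real.pi)))
  have t2 := abs_add_le (ge T Δ (2 * T) * (Pool.Agent.TH935.LP.SD (r + 1) ⌊2 * T⌋₊ - G (2 * T)) + ge T Δ 1 * G 1 - (a1 - a2) + (a3 - R.eval L * a4))
    (R.eval L * (a4 - Δ / (2 * √Real.pi)))
  have t3 := abs_add_le (ge T Δ (2 * T) * (Pool.Agent.TH935.LP.SD (r + 1) ⌊2 * T⌋₊ - G (2 * T)) + ge T Δ 1 * G 1 - (a1 - a2)) (a3 - R.eval L * a4)
  have t4 := abs_sub (ge T Δ (2 * T) * (Pool.Agent.TH935.LP.SD (r + 1) ⌊2 * T⌋₊ - G (2 * T)) + ge T Δ 1 * G 1) (a1 - a2)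
  have t5 := abs_add_le (ge T Δ (2 * T) * (Pool.Agent.TH935.LP.SD (r + 1) ⌊2 * T⌋₊ - G (2 * T))) (ge T Δ 1 * G 1)
  nlinarith [t1, t2, t3, t4, t5, hb1, hb2, hI1, hI2, hx5, hx6, hy, hMle, hn1, hn2]

end Pool.Agent.N30.MZ
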