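import Pool.Agent.N30.MZ.Gs
import Pool.Agent.W188.QS.All

set_option autoImplicit false

/-! Asymptotics for the integral of `ζ^{2k} X` on the line `Re s = 4`. -/

open Complex MeasureTheory Set Filter Topology

namespace Pool.Agent.N30.MZ

open Pool.Agent.W188.QS
open Pool.Agent.W131.QSJJ (dd dd_nonneg dd_zero dd_cast series In_le2)

/-- the tail estimate with a variable bound in the main range -/
theorem final' (j : ℕ) (Cd C3 η : ℝ) (hCd : 0 < Cd) (hC3 : 0 ≤ C3) (hη : 0 ≤ η)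
    (hsum : ∀ x : ℝ, 2 ≤ x → ∑ n ∈ Finset.Icc 1 ⌊x⌋₊, dd j n ≤ Cd * x * Real.log x ^ (j - 1))
    (hbd : ∀ n : ℕ, dd j n ≤ Cd * (n : ℝ) ^ 2) (T Δ : ℝ) (hT : 4 ≤ T) (hl : 1 ≤ Real.log T)
    (hΔT : Δ ≤ T) (hΔ : 1 ≤ Δ) (I : ℕ → ℂ)
    (hI1 : ∀ n : ℕ, 1 ≤ n → n ≤ ⌊2 * T⌋₊ → ‖I n‖ ≤ η)
    (hI2 : ∀ n : ℕ, 1 ≤ n → 2 * T < n → ‖I n‖ ≤ √Real.pi * Δ * (2 * T ^ (-(12 : ℝ))))
    (hI3 : ∀ n : ℕ, 1 ≤ n → 2 * T < n → ‖I n‖ ≤ C3 * (n : ℝ) ^ (-(4 : ℝ)) * T ^ 5) :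
    ‖∑' n : ℕ, ((dd j n : ℝ) : ℂ) * I n‖ ≤
      η * (Cd * 2 * 2 ^ (j - 1)) * T * Real.log T ^ (j - 1) + (√Real.pi * 2 * Cd * 10 ^ (j - 1) +
        Cd * C3 * ∑' n : ℕ, (n : ℝ) ^ (-(3 / 2 : ℝ))) * Real.log T ^ (j - 1) := by
  have hT0 : 0 < T := by linarith
  have hS : Summable fun n : ℕ => (n : ℝ) ^ (-(3 / 2 : ℝ)) :=
    Real.summable_nat_rpow.2 (by norm_num)
  have hS0 : 0 ≤ ∑' n : ℕ, (n : ℝ) ^ (-(3 / 2 : ℝ)) :=
    tsum_nonneg fun n => Real.rpow_nonneg (Nat.cast_nonneg _) _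
  -- the three parts
  have g1 : HasSum (fun n : ℕ => if n ∈ Finset.Icc 1 ⌊2 * T⌋₊ then dd j n * η else 0)
      (∑ n ∈ Finset.Icc 1 ⌊2 * T⌋₊,
        if n ∈ Finset.Icc 1 ⌊2 * T⌋₊ then dd j n * η else 0) :=
    hasSum_sum_of_ne_finset_zero fun b hb => if_neg hb
  have g2 : HasSum (fun n : ℕ => if n ∈ Finset.Icc 1 ⌊T ^ 10⌋₊ then
        dd j n * (√Real.pi * Δ * (2 * T ^ (-(12 : ℝ)))) else 0)
      (∑ n ∈ Finset.Icc 1 ⌊T ^ 10⌋₊,
        if n ∈ Finset.Icc 1 ⌊T ^ 10⌋₊ then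
        dd j n * (√Real.pi * Δ * (2 * T ^ (-(12 : ℝ)))) else 0) :=
    hasSum_sum_of_ne_finset_zero fun b hb => if_neg hb
  have g3 : HasSum (fun n : ℕ => Cd * C3 * (n : ℝ) ^ (-(3 / 2 : ℝ)))
      (Cd * C3 * ∑' n : ℕ, (n : ℝ) ^ (-(3 / 2 : ℝ))) := hS.hasSum.mul_left _
  have key := tsum_of_norm_bounded (f := fun n : ℕ => ((dd j n : ℝ) : ℂ) * I n)
    ((g1.add g2).add g3) (by
      intro n
      have p1 : 0 ≤ if n ∈ Finset.Icc 1 ⌊2 * T⌋₊ then dd j n * η else 0 := by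
        split_ifs
        · have := dd_nonneg j n
          positivity
        · exact le_rfl
      have p2 : 0 ≤ if n ∈ Finset.Icc 1 ⌊T ^ 10⌋₊ then
          dd j n * (√Real.pi * Δ * (2 * T ^ (-(12 : ℝ)))) else 0 := by
        split_ifs
        · have := dd_nonneg j n
          positivity
        · exact le_rfl
      have p3 : 0 ≤ Cd * C3 * (n : ℝ) ^ (-(3 / 2 : ℝ)) := by positivity
      rw [norm_mul, Complex.norm_real, Real.norm_of_nonneg (dd_nonneg j n)]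
      rcases Nat.eq_zero_or_pos n with h | h
      · subst h
        have hz0 : dd j 0 * ‖I 0‖ = 0 := by rw [dd_zero, zero_mul]
        rw [hz0]
        exact add_nonneg (add_nonneg p1 p2) p3
      · by_cases hn1 : (n : ℝ) ≤ 2 * T
        · have hm0 : n ≤ ⌊2 * T⌋₊ := Nat.le_floor hn1
          have hm : n ∈ Finset.Icc 1 ⌊2 * T⌋₊ := Finset.mem_Icc.2 ⟨h, hm0⟩
          have := mul_le_mul_of_nonneg_left (hI1 n h hm0) (dd_nonneg j n)
          rw [if_pos hm] at p1 ⊢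
          linarith
        · rw [not_le] at hn1
          by_cases hn2 : (n : ℝ) ≤ T ^ 10
          · have hm : n ∈ Finset.Icc 1 ⌊T ^ 10⌋₊ := Finset.mem_Icc.2 ⟨h, Nat.le_floor hn2⟩
            have := mul_le_mul_of_nonneg_left (hI2 n h hn1) (dd_nonneg j n)
            rw [if_pos hm] at p2 ⊢
            linarith
          · rw [not_le] at hn2
            have hn0 : (0 : ℝ) < n := Nat.cast_pos.2 h
            have h5 : T ^ 5 ≤ (n : ℝ) ^ (1 / 2 : ℝ) := by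
              rw [← Real.sqrt_eq_rpow]
              apply Real.le_sqrt_of_sq_le
              calc (T ^ 5) ^ 2 = T ^ 10 := by ring
                _ ≤ (n : ℝ) := hn2.le
            have h6 : dd j n * ‖I n‖ ≤ Cd * C3 * (n : ℝ) ^ (-(3 / 2 : ℝ)) := by
              calc dd j n * ‖I n‖ ≤ (Cd * (n : ℝ) ^ 2) * (C3 * (n : ℝ) ^ (-(4 : ℝ)) * T ^ 5) :=
                    mul_le_mul (hbd n) (hI3 n h hn1) (norm_nonneg _) (by positivity)
                _ ≤ (Cd * (n : ℝ) ^ 2) * (C3 * (n : ℝ) ^ (-(4 : ℝ)) * (n : ℝ) ^ (1 / 2 : ℝ)) := by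
                    gcongr
                _ = Cd * C3 * ((n : ℝ) ^ 2 * (n : ℝ) ^ (-(4 : ℝ)) * (n : ℝ) ^ (1 / 2 : ℝ)) := by
                    ring
                _ = Cd * C3 * (n : ℝ) ^ (-(3 / 2 : ℝ)) := by
                    rw [← Real.rpow_natCast, ← Real.rpow_add hn0, ← Real.rpow_add hn0]
                    norm_num
            linarith)
  refine key.trans ?_
  have hlog0 : 0 ≤ Real.log T := by linarith
  have hpow1 : 1 ≤ Real.log T ^ (j - 1) := one_le_pow₀ hl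
  -- first sum
  have s1 : (∑ n ∈ Finset.Icc 1 ⌊2 * T⌋₊,
        if n ∈ Finset.Icc 1 ⌊2 * T⌋₊ then dd j n * η else 0) ≤
      η * (Cd * 2 * 2 ^ (j - 1)) * T * Real.log T ^ (j - 1) := by
    rw [Finset.sum_congr rfl fun n hn => if_pos hn, ← Finset.sum_mul]
    have hlog : Real.log (2 * T) ≤ 2 * Real.log T := by
      rw [Real.log_mul (by norm_num) (by positivity)]
      have : Real.log 2 ≤ Real.log T := Real.log_le_log (by norm_num) (by linarith)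
      linarith
    have hlog' : 0 ≤ Real.log (2 * T) := Real.log_nonneg (by linarith)
    calc (∑ n ∈ Finset.Icc 1 ⌊2 * T⌋₊, dd j n) * η
        ≤ (Cd * (2 * T) * Real.log (2 * T) ^ (j - 1)) * η :=
          mul_le_mul_of_nonneg_right (hsum (2 * T) (by linarith)) (by positivity)
      _ ≤ (Cd * (2 * T) * (2 * Real.log T) ^ (j - 1)) * η := by
          gcongr
      _ = _ := by
          rw [mul_pow]
          ring
  have s2 : (∑ n ∈ Finset.Icc 1 ⌊T ^ 10⌋₊,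
        if n ∈ Finset.Icc 1 ⌊T ^ 10⌋₊ then
        dd j n * (√Real.pi * Δ * (2 * T ^ (-(12 : ℝ)))) else 0) ≤
      √Real.pi * 2 * Cd * 10 ^ (j - 1) * Real.log T ^ (j - 1) := by
    rw [Finset.sum_congr rfl fun n hn => if_pos hn, ← Finset.sum_mul]
    have hT10 : 2 ≤ T ^ 10 := by
      calc (2 : ℝ) ≤ T := by linarith
        _ ≤ T ^ 10 := le_self_pow₀ (by linarith) (by norm_num)
    have hlog : Real.log (T ^ 10) = 10 * Real.log T := by
      rw [Real.log_pow]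
      norm_num
    have h12 : T ^ 10 * (T * T ^ (-(12 : ℝ))) ≤ 1 := by
      have : T ^ 10 * (T * T ^ (-(12 : ℝ))) = T ^ (-(1 : ℝ)) := by
        rw [← mul_assoc, ← pow_succ, ← Real.rpow_natCast, ← Real.rpow_add hT0]
        norm_num
      rw [this]
      exact Real.rpow_le_one_of_one_le_of_nonpos (by linarith) (by norm_num)
    calc (∑ n ∈ Finset.Icc 1 ⌊T ^ 10⌋₊, dd j n) * (√Real.pi * Δ * (2 * T ^ (-(12 : ℝ))))
        ≤ (Cd * T ^ 10 * Real.log (T ^ 10) ^ (j - 1)) *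
          (√Real.pi * Δ * (2 * T ^ (-(12 : ℝ)))) :=
          mul_le_mul_of_nonneg_right (hsum (T ^ 10) hT10) (by positivity)
      _ ≤ (Cd * T ^ 10 * Real.log (T ^ 10) ^ (j - 1)) *
          (√Real.pi * T * (2 * T ^ (-(12 : ℝ)))) := by
          have : 0 ≤ Real.log (T ^ 10) := by rw [hlog]; positivity
          gcongr
      _ = √Real.pi * 2 * Cd * 10 ^ (j - 1) * (T ^ 10 * (T * T ^ (-(12 : ℝ)))) *
          Real.log T ^ (j - 1) := by
          rw [hlog, mul_pow]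
          ring
      _ ≤ √Real.pi * 2 * Cd * 10 ^ (j - 1) * 1 * Real.log T ^ (j - 1) := by
          gcongr
      _ = _ := by ring
  have s3 : Cd * C3 * ∑' n : ℕ, (n : ℝ) ^ (-(3 / 2 : ℝ)) ≤
      (Cd * C3 * ∑' n : ℕ, (n : ℝ) ^ (-(3 / 2 : ℝ))) * Real.log T ^ (j - 1) := by
    have h0 : 0 ≤ Cd * C3 * ∑' n : ℕ, (n : ℝ) ^ (-(3 / 2 : ℝ)) := by positivity
    exact le_mul_of_one_le_right h0 hpow1
  calc _ ≤ η * (Cd * 2 * 2 ^ (j - 1)) * T * Real.log T ^ (j - 1) +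
        √Real.pi * 2 * Cd * 10 ^ (j - 1) * Real.log T ^ (j - 1) +
        (Cd * C3 * ∑' n : ℕ, (n : ℝ) ^ (-(3 / 2 : ℝ))) * Real.log T ^ (j - 1) :=
        add_le_add (add_le_add s1 s2) s3
    _ = _ := by ring

theorem J_asym (k : ℕ) (hk : 1 ≤ k) : ∃ K δ B T₀ : ℝ, 0 ≤ K ∧ 0 < δ ∧ 4 ≤ B ∧ ∀ T Δ : ℝ, T₀ ≤ T →
    T ^ (1 - δ) ≤ Δ → B * Δ * √(Real.log T) ≤ T →
    ‖(∫ t : ℝ, riemannZeta (fp t) ^ (2 * k) * XX (fp t) * GG T Δ (fp t)) -
      ((√Real.pi * Δ * (Real.log T ^ (2 * k - 1) / ((2 * k - 1).factorial : ℝ)) : ℝ) : ℂ)‖ ≤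
      K * (Δ * Real.log T ^ (2 * k - 2)) := by
  obtain ⟨_, B0, T1, hB0, h2b⟩ := Pool.Agent.W975.QSKe.qs_ke
  obtain ⟨C3, -, h3b⟩ := Pool.Agent.W253.QS.qs_i3
  obtain ⟨Cd, hCd, hsum, hbd, hz⟩ := Pool.Agent.W32.QS.qs_div (2 * k) (by omega)
  obtain ⟨K0, δ0, hK0, hδ0, hgs⟩ := gs (2 * k - 1) (by omega)
  have hmel := Pool.Agent.W372.QS.qs_mel
  have hC3 : 0 ≤ C3 := by
    have := (norm_nonneg _).trans (h3b 1 1 le_rfl le_rfl 1 le_rfl).2
    simpa using this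
  have e2k : 2 * k - 1 + 1 = 2 * k := by omega
  have e2k' : 2 * k - 1 - 1 = 2 * k - 2 := by omega
  rw [e2k, e2k'] at hgs
  obtain ⟨δ, hδd⟩ : ∃ δ, δ = min (δ0 / 2) (1 / 4) := ⟨_, rfl⟩
  have hδ : 0 < δ := by rw [hδd]; exact lt_min (by positivity) (by norm_num)
  have hδ1 : δ ≤ 1 / 4 := by rw [hδd]; exact min_le_right _ _
  have hδ2 : 2 * δ ≤ δ0 := by
    have : δ ≤ δ0 / 2 := by rw [hδd]; exact min_le_left _ _
    linarith
  have hSn0 : 0 ≤ ∑' n : ℕ, (n : ℝ) ^ (-(3 / 2 : ℝ)) :=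
    tsum_nonneg fun n => Real.rpow_nonneg (Nat.cast_nonneg _) _
  obtain ⟨C1, hC1⟩ : ∃ C1, C1 = Cd * 2 * 2 ^ (2 * k - 1) := ⟨_, rfl⟩
  obtain ⟨C2, hC2⟩ : ∃ C2, C2 = √Real.pi * 2 * Cd * 10 ^ (2 * k - 1) +
        Cd * C3 * ∑' n : ℕ, (n : ℝ) ^ (-(3 / 2 : ℝ)) := ⟨_, rfl⟩
  have hC10 : 0 ≤ C1 := by rw [hC1]; positivity
  have hC20 : 0 ≤ C2 := by rw [hC2]; positivity
  -- `log T ≤ T^{1/8}` eventually, in the form needed
  obtain ⟨T2, hT2⟩ := eventually_atTop.1 ((isLittleO_log_rpow_atTop (by norm_num : (0:ℝ) < 1 / 8)).bound (by norm_num : (0:ℝ) < 1))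
  refine ⟨C1 * 40000 + C2 + 4 * Real.pi * K0, δ, max B0 4, max (max T1 T2) 20, by positivity, hδ, le_max_right _ _, fun T Δ hT hΔ1 hBT => ?_⟩
  have hTT1 : T1 ≤ T := ((le_max_left _ _).trans (le_max_left _ _)).trans hT
  have hTT2 : T2 ≤ T := ((le_max_right _ _).trans (le_max_left _ _)).trans hT
  have hT20 : 20 ≤ T := (le_max_right _ _).trans hT
  have hT0 : 0 < T := by linarith
  obtain ⟨L, hLd⟩ : ∃ L, L = Real.log T := ⟨_, rfl⟩
  have hL1 : 1 ≤ L := by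
    rw [hLd, Real.le_log_iff_exp_le hT0]
    have := Real.exp_one_lt_d9
    linarith
  have hLT : L ≤ T ^ (1 / 8 : ℝ) := by
    have := hT2 T hTT2
    rw [Real.norm_of_nonneg (by rw [← hLd]; linarith), Real.norm_of_nonneg (by positivity), one_mul, ← hLd] at this
    exact this
  have hΔ34 : T ^ (3 / 4 : ℝ) ≤ Δ := (Real.rpow_le_rpow_of_exponent_le (by linarith) (by linarith)).trans hΔ1
  have hLΔ : L ≤ Δ := hLT.trans ((Real.rpow_le_rpow_of_exponent_le (by linarith) (by norm_num)).trans hΔ34)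
  have hΔ4 : 4 ≤ Δ := by
    have h1 : (4:ℝ) = 16 ^ (1 / 2 : ℝ) := by
      rw [← Real.sqrt_eq_rpow, show (16:ℝ) = 4 ^ 2 by norm_num, Real.sqrt_sq (by norm_num)]
    rw [h1]
    calc (16:ℝ) ^ (1 / 2 : ℝ) ≤ T ^ (1 / 2 : ℝ) := Real.rpow_le_rpow (by norm_num) (by linarith) (by norm_num)
      _ ≤ T ^ (3 / 4 : ℝ) := Real.rpow_le_rpow_of_exponent_le (by linarith) (by norm_num)
      _ ≤ Δ := hΔ34
  have hΔ0 : 0 < Δ := by linarith
  have hs1 : 1 ≤ √L := by rw [Real.one_le_sqrt]; exact hL1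
  have hB0T : B0 * Δ * √(Real.log T) ≤ T := by
    refine le_trans ?_ hBT
    apply mul_le_mul_of_nonneg_right _ (Real.sqrt_nonneg _)
    exact mul_le_mul_of_nonneg_right (le_max_left _ _) hΔ0.le
  have h4T : 4 * Δ * √(Real.log T) ≤ T := by
    refine le_trans ?_ hBT
    apply mul_le_mul_of_nonneg_right _ (Real.sqrt_nonneg _)
    exact mul_le_mul_of_nonneg_right (le_max_right _ _) hΔ0.le
  have h4T' : 4 * Δ ≤ T := by
    have : 4 * Δ * 1 ≤ 4 * Δ * √(Real.log T) := mul_le_mul_of_nonneg_left (by rw [← hLd]; exact hs1) (by positivity)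
    linarith
  have hΔT : Δ ≤ T := by linarith
  -- the corrected terms
  obtain ⟨J, hJ⟩ : ∃ J : ℕ → ℂ, J = fun n => if n ∈ Finset.Icc 1 ⌊2 * T⌋₊ then ((2 * Real.pi * ge T Δ n : ℝ) : ℂ) else 0 := ⟨_, rfl⟩
  obtain ⟨η, hη⟩ : ∃ η, η = 40000 * (T / Δ ^ 2) := ⟨_, rfl⟩
  have hη0 : 0 ≤ η := by rw [hη]; positivity
  have hfl : (⌊2 * T⌋₊ : ℝ) ≤ 2 * T := Nat.floor_le (by linarith)
  have hI1 : ∀ n : ℕ, 1 ≤ n → n ≤ ⌊2 * T⌋₊ → ‖In T Δ n - J n‖ ≤ η := by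
    intro n hn hn2
    have hn2' : (n : ℝ) ≤ 2 * T := le_trans (by exact_mod_cast hn2) hfl
    have h1 := In_asym hmel T hΔ4 n hn
    have hJn : J n = ((2 * Real.pi * ge T Δ n : ℝ) : ℂ) := by rw [hJ]; exact if_pos (Finset.mem_Icc.2 ⟨hn, hn2⟩)
    rw [hJn]
    have e : In T Δ n - ((2 * Real.pi * ge T Δ n : ℝ) : ℂ) = (In T Δ n - ((2 * Real.pi * (ge T Δ n + ge T Δ (-n)) : ℝ) : ℂ)) +
        ((2 * Real.pi * ge T Δ (-n) : ℝ) : ℂ) := by push_cast; ring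
    rw [e]
    have h2 : ge T Δ (-n) ≤ T ^ (-(1 : ℝ)) := by
      rw [ge_def, Real.rpow_def_of_pos hT0]
      apply Real.exp_le_exp.2
      have h3 : Real.log T ≤ (uu T Δ (-n)) ^ 2 := by
        unfold uu
        rw [div_pow, le_div_iff₀ (by positivity)]
        have h4 : (4 * Δ * √(Real.log T)) ^ 2 ≤ T ^ 2 := pow_le_pow_left₀ (by positivity) h4T 2
        rw [mul_pow, Real.sq_sqrt (by rw [← hLd]; linarith)] at h4
        have h5 : T ^ 2 ≤ (T - 2 * Real.pi * (-(n : ℝ))) ^ 2 := by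
          apply pow_le_pow_left₀ hT0.le
          have : 0 ≤ 2 * Real.pi * n := by positivity
          linarith
        have h6 : 0 ≤ Real.log T * Δ ^ 2 := by rw [← hLd]; positivity
        nlinarith
      linarith
    have h3 : 2 * Real.pi * ge T Δ (-n) ≤ 8 * (T / Δ ^ 2) := by
      have h4 : T ^ (-(1 : ℝ)) ≤ T / Δ ^ 2 := by
        rw [Real.rpow_neg_one, inv_eq_one_div, div_le_div_iff₀ hT0 (by positivity)]
        nlinarith
      have h5 := Real.pi_lt_d2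
      have h6 : 0 ≤ ge T Δ (-n) := by rw [ge_def]; exact (Real.exp_pos _).le
      have h7 : 0 ≤ T / Δ ^ 2 := by positivity
      nlinarith
    have h4 : ‖((2 * Real.pi * ge T Δ (-n) : ℝ) : ℂ)‖ ≤ 8 * (T / Δ ^ 2) := by
      rw [Complex.norm_real, Real.norm_of_nonneg]
      · exact h3
      · have h6 : 0 ≤ ge T Δ (-n) := by rw [ge_def]; exact (Real.exp_pos _).le
        positivity
    refine (norm_add_le _ _).trans ((add_le_add h1 h4).trans ?_)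
    have h5 : 4 / Δ ≤ T / Δ ^ 2 := by
      rw [div_le_div_iff₀ hΔ0 (by positivity)]
      nlinarith
    have h6 : 128 * n / Δ ^ 2 ≤ 256 * (T / Δ ^ 2) := by
      rw [mul_div_assoc', div_le_div_iff_of_pos_right (by positivity)]
      linarith
    rw [hη]
    have h7 : 0 ≤ T / Δ ^ 2 := by positivity
    linarith
  have hJ0 : ∀ n : ℕ, 2 * T < n → J n = 0 := by
    intro n hn
    rw [hJ]
    apply if_neg
    rw [Finset.mem_Icc, not_and]
    intro _ h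
    have : (n : ℝ) ≤ 2 * T := le_trans (by exact_mod_cast h) hfl
    linarith
  have hfin := final' (2 * k) Cd C3 η hCd hC3 hη0 hsum hbd T Δ (by linarith) (by rw [← hLd]; exact hL1) hΔT (by linarith)
    (fun n => In T Δ n - J n) hI1
    (fun n hn hn2 => by
      show ‖In T Δ n - J n‖ ≤ _
      rw [hJ0 n hn2, sub_zero]
      exact In_le2 hmel T Δ (by linarith) n hn _ (fun ε σ hε hσ => h2b T Δ ε σ hTT1 (by rw [← hLd]; exact hLΔ) hB0T hε hσ n hn2.le))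
    (fun n hn hn2 => by
      show ‖In T Δ n - J n‖ ≤ _
      rw [hJ0 n hn2, sub_zero]
      exact (h3b T Δ (by linarith) hΔT n hn).2)
  -- the two series
  rw [series (2 * k) Cd hbd (fun s hs => by rw [(hz s hs).2]; simp only [dd_cast]) T Δ
    (fun n hn => (h3b T Δ (by linarith) hΔT n hn).1)]
  have hJsum : Summable (fun n : ℕ => ((dd (2 * k) n : ℝ) : ℂ) * J n) := by
    apply summable_of_ne_finset_zero (s := Finset.Icc 1 ⌊2 * T⌋₊)
    intro n hn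
    rw [hJ]
    simp only [if_neg hn, mul_zero]
  have hIsum : Summable (fun n : ℕ => ((dd (2 * k) n : ℝ) : ℂ) * In T Δ n) := by
    have hs : Summable fun n : ℕ => (Cd * C3 * T ^ 5) * (n : ℝ) ^ (-(2 : ℝ)) :=
      (Real.summable_nat_rpow.2 (by norm_num)).mul_left _
    refine Summable.of_norm_bounded hs fun n => ?_
    rw [norm_mul, Complex.norm_real, Real.norm_of_nonneg (dd_nonneg _ n)]
    rcases Nat.eq_zero_or_pos n with h | h
    · subst h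
      rw [dd_zero, zero_mul]
      positivity
    · have hn : (0 : ℝ) < n := Nat.cast_pos.2 h
      have e : (n : ℝ) ^ 2 * (n : ℝ) ^ (-(4 : ℝ)) = (n : ℝ) ^ (-(2 : ℝ)) := by
        rw [← Real.rpow_natCast, ← Real.rpow_add hn]
        norm_num
      calc dd (2 * k) n * ‖In T Δ n‖ ≤ (Cd * (n : ℝ) ^ 2) * (C3 * (n : ℝ) ^ (-(4 : ℝ)) * T ^ 5) :=
            mul_le_mul (hbd n) (h3b T Δ (by linarith) hΔT n h).2 (norm_nonneg _) (by positivity)
        _ = Cd * C3 * T ^ 5 * ((n : ℝ) ^ 2 * (n : ℝ) ^ (-(4 : ℝ))) := by ring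
        _ = _ := by rw [e]
  have hJval : ∑' n : ℕ, ((dd (2 * k) n : ℝ) : ℂ) * J n =
      ((2 * Real.pi * ∑ n ∈ Finset.Icc 1 ⌊2 * T⌋₊, dd (2 * k) n * ge T Δ n : ℝ) : ℂ) := by
    rw [tsum_eq_sum (s := Finset.Icc 1 ⌊2 * T⌋₊)]
    · rw [Finset.mul_sum]
      push_cast
      apply Finset.sum_congr rfl
      intro n hn
      rw [hJ]
      simp only [if_pos hn]
      push_cast
      ring
    · intro n hn
      rw [hJ]
      simp only [if_neg hn, mul_zero]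
  have hsub : ∑' n : ℕ, ((dd (2 * k) n : ℝ) : ℂ) * (In T Δ n - J n) = (∑' n : ℕ, ((dd (2 * k) n : ℝ) : ℂ) * In T Δ n) -
      ∑' n : ℕ, ((dd (2 * k) n : ℝ) : ℂ) * J n := by
    rw [← hIsum.tsum_sub hJsum]
    exact tsum_congr fun n => by ring
  rw [hsub, hJval, ← hLd, ← hC1, ← hC2] at hfin
  have hg := hgs T Δ hT20 (by linarith) h4T
  rw [← hLd] at hg ⊢
  obtain ⟨S, hS⟩ : ∃ S, S = ∑ n ∈ Finset.Icc 1 ⌊2 * T⌋₊, dd (2 * k) n * ge T Δ n := ⟨_, rfl⟩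
  rw [← hS] at hg hfin
  obtain ⟨f, hf⟩ : ∃ f : ℝ, f = ((2 * k - 1).factorial : ℝ) := ⟨_, rfl⟩
  rw [← hf] at hg ⊢
  obtain ⟨A, hA⟩ : ∃ A : ℂ, A = ∑' n : ℕ, ((dd (2 * k) n : ℝ) : ℂ) * In T Δ n := ⟨_, rfl⟩
  rw [← hA] at hfin ⊢
  have hsq : √Real.pi * √Real.pi = Real.pi := Real.mul_self_sqrt Real.pi_pos.le
  have hsp : 0 < √Real.pi := Real.sqrt_pos.2 Real.pi_pos
  have e1 : √Real.pi * Δ * (L ^ (2 * k - 1) / f) = 2 * Real.pi * (Δ / (2 * √Real.pi) * (L ^ (2 * k - 1) / f)) := by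
    have : 2 * Real.pi * (Δ / (2 * √Real.pi)) = √Real.pi * Δ := by
      rw [mul_div_assoc', div_eq_iff (by positivity)]
      calc 2 * Real.pi * Δ = 2 * (√Real.pi * √Real.pi) * Δ := by rw [hsq]
        _ = _ := by ring
    rw [← mul_assoc, this]
  have e2 : A - ((√Real.pi * Δ * (L ^ (2 * k - 1) / f) : ℝ) : ℂ) = (A - ((2 * Real.pi * S : ℝ) : ℂ)) +
      ((2 * Real.pi * (S - Δ / (2 * √Real.pi) * (L ^ (2 * k - 1) / f)) : ℝ) : ℂ) := by
    rw [e1]; push_cast; ring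
  rw [e2]
  have h1 : ‖((2 * Real.pi * (S - Δ / (2 * √Real.pi) * (L ^ (2 * k - 1) / f)) : ℝ) : ℂ)‖ ≤
      2 * Real.pi * (K0 * (Δ * L ^ (2 * k - 2) + T ^ (1 - δ0))) := by
    rw [Complex.norm_real, Real.norm_eq_abs, abs_mul, abs_of_pos (by positivity : 0 < 2 * Real.pi)]
    exact mul_le_mul_of_nonneg_left hg (by positivity)
  have hLp : 1 ≤ L ^ (2 * k - 2) := one_le_pow₀ hL1
  have h2 : T ^ (1 - δ0) ≤ Δ * L ^ (2 * k - 2) := by
    calc T ^ (1 - δ0) ≤ T ^ (1 - δ) := Real.rpow_le_rpow_of_exponent_le (by linarith) (by linarith)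
      _ ≤ Δ := hΔ1
      _ = Δ * 1 := (mul_one _).symm
      _ ≤ _ := mul_le_mul_of_nonneg_left hLp hΔ0.le
  -- `η T L^{2k-1} ≤ 40000 Δ L^{2k-2}` because `T² L ≤ Δ³`
  have h3 : T ^ 2 * L ≤ Δ ^ 3 := by
    have h31 : T ^ 2 * L ≤ T ^ 2 * T ^ (1 / 8 : ℝ) := mul_le_mul_of_nonneg_left hLT (by positivity)
    have h32 : T ^ 2 * T ^ (1 / 8 : ℝ) ≤ T ^ (9 / 4 : ℝ) := by
      rw [← Real.rpow_natCast, ← Real.rpow_add hT0]
      apply Real.rpow_le_rpow_of_exponent_le (by linarith)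
      norm_num
    have h33 : T ^ (9 / 4 : ℝ) = (T ^ (3 / 4 : ℝ)) ^ 3 := by
      rw [← Real.rpow_natCast, ← Real.rpow_mul hT0.le]
      norm_num
    rw [h33] at h32
    have h34 := pow_le_pow_left₀ (by positivity) hΔ34 3
    linarith
  have h4 : η * C1 * T * L ^ (2 * k - 1) ≤ C1 * 40000 * (Δ * L ^ (2 * k - 2)) := by
    have e3 : L ^ (2 * k - 1) = L * L ^ (2 * k - 2) := by rw [← pow_succ']; congr 1; omega
    rw [e3, hη]
    have h5 : T / Δ ^ 2 * T * L ≤ Δ := by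
      rw [div_mul_eq_mul_div, div_mul_eq_mul_div, div_le_iff₀ (by positivity)]
      calc T * T * L = T ^ 2 * L := by ring
        _ ≤ Δ ^ 3 := h3
        _ = Δ * Δ ^ 2 := by ring
    calc 40000 * (T / Δ ^ 2) * C1 * T * (L * L ^ (2 * k - 2)) = C1 * 40000 * ((T / Δ ^ 2 * T * L) * L ^ (2 * k - 2)) := by ring
      _ ≤ _ := by
          apply mul_le_mul_of_nonneg_left _ (by positivity)
          exact mul_le_mul_of_nonneg_right h5 (by positivity)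
  have h5 : C2 * L ^ (2 * k - 1) ≤ C2 * (Δ * L ^ (2 * k - 2)) := by
    have e3 : L ^ (2 * k - 1) = L * L ^ (2 * k - 2) := by rw [← pow_succ']; congr 1; omega
    rw [e3]
    apply mul_le_mul_of_nonneg_left _ hC20
    exact mul_le_mul_of_nonneg_right hLΔ (by positivity)
  refine (norm_add_le _ _).trans ((add_le_add hfin h1).trans ?_)
  have h6 : 2 * Real.pi * (K0 * (Δ * L ^ (2 * k - 2) + T ^ (1 - δ0))) ≤ 2 * Real.pi * (K0 * (2 * (Δ * L ^ (2 * k - 2)))) := by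
    apply mul_le_mul_of_nonneg_left _ (by positivity)
    apply mul_le_mul_of_nonneg_left _ hK0
    linarith
  calc _ ≤ C1 * 40000 * (Δ * L ^ (2 * k - 2)) + C2 * (Δ * L ^ (2 * k - 2)) + 2 * Real.pi * (K0 * (2 * (Δ * L ^ (2 * k - 2)))) := by
        linarith
    _ = _ := by ring

end Pool.Agent.N30.MZ
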