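import Pool.Agent.N30.MZ.Co

set_option autoImplicit false

/-! Sharp cut-off: the moment over a sector. -/

open Complex MeasureTheory Set Filter Topology

namespace Pool.Agent.N30.MZ

open Pool.Agent.W188.QS

/-- the quadrature formula, uniformly in the direction -/
theorem near_unif (k N : ℕ) (hk : 1 ≤ k) (hN : 1 ≤ N) (hkN : k ≤ N + 1) : ∃ B₀ : ℝ, ∀ B : ℝ, B₀ ≤ B → ∃ C T₀ : ℝ, 200 ≤ T₀ ∧
    ∀ T Δ : ℝ, T₀ ≤ T → 0 < Δ → T ≤ 4 * B * Δ * √(Real.log T) → B * Δ * √(Real.log T) ≤ T →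
    ∀ u : ℂ, ‖u‖ = 1 → |(∑ᶠ t ∈ PP u N ∩ Ioo (T / 2) (3 * T / 2), rho k N t * gg T Δ t) - IM k T Δ| ≤
      C * Δ * Real.log T ^ (qe k N) := by
  obtain ⟨B1, T1, hB1, hT1, h1⟩ := a_quad k N hN
  obtain ⟨B2, C2, T2, hB2, hC2, h2⟩ := a_qs k N hk hN hkN
  refine ⟨max B1 B2, fun B hB => ?_⟩
  have hBB1 : B1 ≤ B := (le_max_left _ _).trans hB
  have hBB2 : B2 ≤ B := (le_max_right _ _).trans hB
  have hB0 : 1 ≤ B := hB1.trans hBB1
  obtain ⟨T3, h3⟩ := eventually_atTop.1 (ev_log_le B)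
  refine ⟨2 * C2 * (1 + 4 * B) + 1, max (max T1 T2) (max T3 200), (le_max_right _ _).trans (le_max_right _ _),
    fun T Δ hT hΔ hu hl c hc => ?_⟩
  have hTT1 : T1 ≤ T := ((le_max_left _ _).trans (le_max_left _ _)).trans hT
  have hTT2 : T2 ≤ T := ((le_max_right _ _).trans (le_max_left _ _)).trans hT
  have hTT3 : T3 ≤ T := ((le_max_left _ _).trans (le_max_right _ _)).trans hT
  have hT200 : 200 ≤ T := ((le_max_right _ _).trans (le_max_right _ _)).trans hT
  have hT0 : 0 < T := by linarith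
  have hL : 1 ≤ Real.log T := by
    rw [Real.le_log_iff_exp_le hT0]
    have := Real.exp_one_lt_d9
    linarith
  have hs0 : 0 < √(Real.log T) := Real.sqrt_pos.2 (by linarith)
  have hLD : Real.log T ≤ Δ := by
    have h4 := (h3 T hTT3).trans hu
    have h5 : 4 * B * Real.log T * √(Real.log T) = Real.log T * (4 * B * √(Real.log T)) := by ring
    have h6 : 4 * B * Δ * √(Real.log T) = Δ * (4 * B * √(Real.log T)) := by ring
    rw [h5, h6] at h4
    exact le_of_mul_le_mul_right h4 (by positivity)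
  have hD1 : 1 ≤ Δ := hL.trans hLD
  have hb1 : B1 * Δ * √(Real.log T) ≤ T := by
    refine le_trans ?_ hl
    gcongr
  have hb2 : B2 * Δ * √(Real.log T) ≤ T := by
    refine le_trans ?_ hl
    gcongr
  have h7 := h1 c T Δ _ hc hTT1 hD1 hb1
    (fun a b ha hb => h2 c T Δ a b hc hTT2 hLD hb2 ha hb)
  unfold IM
  refine h7.trans ?_
  have hT3 : T ^ (-(3 : ℝ)) ≤ 1 := Real.rpow_le_one_of_one_le_of_nonpos (by linarith) (by norm_num)
  unfold qe
  split_ifs with hN1
  · -- N + 1 = k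
    have hk2 : 2 ≤ k := by omega
    have hpow : Real.log T ^ (2 * k - 1) * √(Real.log T) = Real.log T ^ (2 * (k : ℝ) - 1 / 2) := by
      rw [Real.sqrt_eq_rpow, ← Real.rpow_natCast, ← Real.rpow_add (by linarith)]
      congr 1
      rw [Nat.cast_sub (by omega)]
      push_cast
      ring
    have hp1 : 1 ≤ Real.log T ^ (2 * (k : ℝ) - 1 / 2) := by
      apply Real.one_le_rpow hL
      have : (2 : ℝ) ≤ k := by exact_mod_cast hk2
      linarith
    have h8 : T * Real.log T ^ (2 * k - 1) ≤ 4 * B * Δ * Real.log T ^ (2 * (k : ℝ) - 1 / 2) := by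
      rw [← hpow]
      calc T * Real.log T ^ (2 * k - 1) ≤ (4 * B * Δ * √(Real.log T)) * Real.log T ^ (2 * k - 1) :=
            mul_le_mul_of_nonneg_right hu (by positivity)
        _ = _ := by ring
    set P := Real.log T ^ (2 * (k : ℝ) - 1 / 2)
    have h9 : Δ ≤ Δ * P := le_mul_of_one_le_right hΔ.le hp1
    have h10 : (1 : ℝ) ≤ Δ * P := hD1.trans h9
    have h11 : 2 * (C2 * (Δ + T * Real.log T ^ (2 * k - 1))) ≤ 2 * (C2 * (Δ * P + 4 * B * Δ * P)) := by
      gcongr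
    calc 2 * (C2 * (Δ + T * Real.log T ^ (2 * k - 1))) + T ^ (-(3 : ℝ))
        ≤ 2 * (C2 * (Δ * P + 4 * B * Δ * P)) + Δ * P := by linarith
      _ = _ := by ring
  · rw [Real.rpow_zero, mul_one, add_zero]
    have h8 : 0 ≤ 2 * C2 * (4 * B) * Δ := by positivity
    nlinarith

/-- the measure of the sector -/
noncomputable def nus (k N : ℕ) (c r : ℝ) : Measure ℝ := (muk k).restrict (Sc N c r)

/-- the fair share -/
noncomputable def mus (k : ℕ) (r : ℝ) : Measure ℝ := ENNReal.ofReal (2 * r) • muk k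

lemma nus_int (k N : ℕ) (c r : ℝ) (g : ℝ → ℝ) {S : Set ℝ} (hS : MeasurableSet S) (h : S ⊆ Ioi 100) :
    ∫ t in S, g t ∂(nus k N c r) = ∫ t in S ∩ Sc N c r, Zk k t * g t := by
  unfold nus
  rw [Measure.restrict_restrict hS]
  exact Pool.Agent.W571.QS.muk_int k g (hS.inter (Sc_meas N c r)) (inter_subset_left.trans h)

lemma nus_real (k N : ℕ) (c r : ℝ) {S : Set ℝ} (hS : MeasurableSet S) (h : S ⊆ Ioi 100) :
    (nus k N c r).real S = ∫ t in S ∩ Sc N c r, Zk k t := by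
  have h1 := nus_int k N c r (fun _ => 1) hS h
  rw [setIntegral_const, smul_eq_mul, mul_one] at h1
  rw [h1]
  simp only [mul_one]

lemma mus_real (k : ℕ) {r : ℝ} (hr : 0 ≤ r) (S : Set ℝ) : (mus k r).real S = 2 * r * (muk k).real S := by
  unfold mus
  rw [measureReal_ennreal_smul_apply, ENNReal.toReal_ofReal (by linarith)]

lemma mus_int (k : ℕ) {r : ℝ} (hr : 0 ≤ r) (g : ℝ → ℝ) (S : Set ℝ) :
    ∫ t in S, g t ∂(mus k r) = 2 * r * ∫ t in S, g t ∂(muk k) := by
  unfold mus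
  rw [Measure.restrict_smul, integral_smul_measure, ENNReal.toReal_ofReal (by linarith), smul_eq_mul]

lemma mus_fin (k : ℕ) (r x : ℝ) : mus k r (Iic x) < ⊤ := by
  unfold mus
  rw [Measure.smul_apply, smul_eq_mul]
  exact ENNReal.mul_lt_top ENNReal.ofReal_lt_top (Pool.Agent.W571.QS.muk_Iic k x)

lemma nus_fin (k N : ℕ) (c r x : ℝ) : nus k N c r (Iic x) < ⊤ :=
  lt_of_le_of_lt (Measure.restrict_apply_le _ _) (Pool.Agent.W571.QS.muk_Iic k x)

theorem near_sec {k N : ℕ} (hk : 1 ≤ k) (hN : 1 ≤ N) (hkN : k ≤ N + 1) (c : ℝ) {r : ℝ} (hr0 : 0 ≤ r) (hr : r ≤ 1 / 2) :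
    Near (mus k r) (nus k N c r) (qe k N) := by
  obtain ⟨B₀, h⟩ := near_unif k N hk hN hkN
  refine ⟨B₀, fun B hB => ?_⟩
  obtain ⟨C, T₀, hT₀, h⟩ := h B hB
  refine ⟨C, T₀, fun T Δ hT hΔ h1 h2 => ?_⟩
  have hT200 : 200 ≤ T := hT₀.trans hT
  have h3 := coarea hk hN hT200 (h T Δ hT hΔ h1 h2) c hr0 hr
  have hsub : Ioo (T / 2) (3 * T / 2) ⊆ Ioi (100 : ℝ) := fun t ht => by
    have := ht.1
    simp only [mem_Ioi]
    linarith
  have e1 : ∫ t in Ioo (T / 2) (3 * T / 2), gg T Δ t ∂(mus k r) = 2 * r * IM k T Δ := by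
    rw [mus_int k hr0, Pool.Agent.W571.QS.muk_int k _ measurableSet_Ioo hsub]
    unfold IM
    rw [intervalIntegral.integral_of_le (by linarith), integral_Ioc_eq_integral_Ioo]
  have e2 : ∫ t in Ioo (T / 2) (3 * T / 2), gg T Δ t ∂(nus k N c r) = AM k N c r T Δ := by
    rw [nus_int k N c r _ measurableSet_Ioo hsub, AM_eq k N c r (by linarith), intervalIntegral.integral_of_le (by linarith),
      integral_Ioc_eq_integral_Ioo, inter_comm, ← Measure.restrict_restrict (Sc_meas N c r), integral_indicator (Sc_meas N c r)]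
  rw [e1, e2, abs_sub_comm]
  exact h3

lemma muk_dy (k : ℕ) {a b : ℝ} (ha : 100 ≤ a) (hab : a ≤ b) : (muk k).real (Ioc a b) = ∫ t in a..b, Zk k t := by
  rw [Pool.Agent.W571.QS.muk_real k measurableSet_Ioc (fun t ht => lt_of_le_of_lt ha ht.1), intervalIntegral.integral_of_le hab]

lemma nus_dy (k N : ℕ) (c r : ℝ) {a b : ℝ} (ha : 100 ≤ a) : (nus k N c r).real (Ioc a b) = ∫ t in Ioc a b ∩ Sc N c r, Zk k t :=
  nus_real k N c r measurableSet_Ioc (fun t ht => lt_of_le_of_lt ha ht.1)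

lemma mus_low {k : ℕ} (hk : 1 ≤ k) {r : ℝ} (hr : 0 < r) : ∃ c : ℝ, 0 < c ∧ ∀ᶠ T : ℝ in atTop,
    c * (T * Real.log T ^ ((k : ℝ) ^ 2)) ≤ (mus k r).real (Ioc T (2 * T)) := by
  obtain ⟨c0, hc0, hlow⟩ := low hk
  refine ⟨2 * r * c0, by positivity, ?_⟩
  filter_upwards [hlow, eventually_ge_atTop 100] with T hT hT1
  rw [mus_real k hr.le, muk_dy k hT1 (by linarith), mul_assoc]
  exact mul_le_mul_of_nonneg_left hT (by positivity)

/-- upper bound for the sector -/
theorem sec_upper {k N : ℕ} (hk : 1 ≤ k) (hN : 1 ≤ N) (hkN : k ≤ N + 1) (c : ℝ) {r : ℝ} (hr0 : 0 < r) (hr : r ≤ 1 / 2) {ε : ℝ}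
    (h0 : 0 < ε) (h1 : ε ≤ 1 / 2) : ∀ᶠ T : ℝ in atTop,
    ∫ t in Ioc T (2 * T) ∩ Sc N c r, Zk k t ≤ (1 + ε) * (2 * r * ∫ t in ((1 - ε) * T)..((2 + ε) * T), Zk k t) := by
  obtain ⟨c0, hc0, hlow⟩ := mus_low hk hr0
  have h := a_maj ((4 * k + 1 : ℕ) : ℝ) c0 ((k : ℝ) ^ 2) (qe k N) ε hc0 h0 (by positivity)
    (qe_lt hk hN) _ _ (mus_fin k r) (nus_fin k N c r) (near_sec hk hN hkN c hr0.le hr) (by
      filter_upwards [eventually_ge_atTop 100] with T hT
      rw [mus_real k hr0.le]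
      have h2 : (muk k).real (Ioc 0 T) = ∫ t in (100 : ℝ)..T, Zk k t :=
        (a_meas 1 k N (by simp) hk hN).2.2.2.2.2.1 T hT
      rw [h2]
      have h3 := grow k hT
      have h4 : 0 ≤ ∫ t in (100 : ℝ)..T, Zk k t := intervalIntegral.integral_nonneg hT fun t _ => Zk_nonneg k t
      nlinarith) hlow
  filter_upwards [h, eventually_ge_atTop 200] with T hT hT1
  rw [nus_dy k N c r (by linarith), mus_real k hr0.le, muk_dy k (by nlinarith) (by nlinarith)] at hT
  exact hT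

/-- lower bound for the sector -/
theorem sec_lower {k N : ℕ} (hk : 1 ≤ k) (hN : 1 ≤ N) (hkN : k ≤ N + 1) (c : ℝ) {r : ℝ} (hr0 : 0 < r) (hr : r ≤ 1 / 2) {ε : ℝ}
    (h0 : 0 < ε) (h1 : ε ≤ 1 / 2) : ∀ᶠ T : ℝ in atTop,
    2 * r * ∫ t in T..(2 * T), Zk k t ≤ (1 + ε) * ∫ t in Ioc ((1 - ε) * T) ((2 + ε) * T) ∩ Sc N c r, Zk k t := by
  obtain ⟨c0, hc0, hlow⟩ := mus_low hk hr0
  have h := a_maj2 ((4 * k + 2 : ℕ) : ℝ) c0 ((k : ℝ) ^ 2) (qe k N) ε hc0 h0 (by positivity)
    (qe_lt hk hN) _ _ (nus_fin k N c r) (mus_fin k r) (near_sec hk hN hkN c hr0.le hr).symm (by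
      filter_upwards [eventually_ge_atTop 200, eventually_ge_atTop ((2 : ℝ) ^ (4 * k + 1))] with T hT1 hT2
      have hT0 : 0 < T := by linarith
      have h2 : (nus k N c r).real (Ioc T (2 * T)) ≤ (muk k).real (Ioc T (2 * T)) := by
        unfold nus
        rw [measureReal_def, measureReal_def]
        apply ENNReal.toReal_mono
        · exact (lt_of_le_of_lt (measure_mono Ioc_subset_Iic_self) (Pool.Agent.W571.QS.muk_Iic k (2 * T))).ne
        · exact Measure.restrict_apply_le _ _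
      refine h2.trans ?_
      rw [muk_dy k (by linarith) (by linarith)]
      have h3 : ∫ t in T..(2 * T), Zk k t ≤ ∫ t in (100 : ℝ)..(2 * T), Zk k t := by
        apply intervalIntegral.integral_mono_interval (by linarith) (by linarith) le_rfl
        · exact Filter.Eventually.of_forall fun t => Zk_nonneg k t
        · exact (Zk_cont k).intervalIntegrable _ _
      have h4 := grow k (T := 2 * T) (by linarith)
      have h5 : (2 * T) ^ ((4 * k + 1 : ℕ) : ℝ) = 2 ^ (4 * k + 1) * T ^ (4 * k + 1) := by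
        rw [Real.rpow_natCast, mul_pow]
      rw [h5] at h4
      calc ∫ t in T..(2 * T), Zk k t ≤ 2 ^ (4 * k + 1) * T ^ (4 * k + 1) := h3.trans h4
        _ ≤ T * T ^ (4 * k + 1) := mul_le_mul_of_nonneg_right hT2 (by positivity)
        _ = T ^ ((4 * k + 2 : ℕ) : ℝ) := by rw [Real.rpow_natCast]; ring) hlow
  filter_upwards [h, eventually_ge_atTop 200] with T hT hT1
  rw [nus_dy k N c r (by nlinarith), mus_real k hr0.le, muk_dy k (by linarith) (by linarith)] at hT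
  exact hT

/-- the asymptotic formula over the sector in terms of the measure -/
lemma sec_iff {k : ℕ} (hk : 1 ≤ k) (N : ℕ) (c r a : ℝ) :
    Tendsto (fun T => (∫ t in Ioc 0 T ∩ Sc N c r, Zk k t) / (T * Real.log T ^ ((k : ℝ) ^ 2))) atTop (𝓝 a) ↔
    Tendsto (fun T => (nus k N c r).real (Ioc 0 T) / (T * Real.log T ^ ((k : ℝ) ^ 2))) atTop (𝓝 a) := by
  have h0 : Tendsto (fun T : ℝ => T * Real.log T ^ ((k : ℝ) ^ 2)) atTop atTop := by
    apply Tendsto.atTop_mul_atTop₀ tendsto_id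
    exact (tendsto_rpow_atTop (by
      have : (1 : ℝ) ≤ k := by exact_mod_cast hk
      positivity)).comp Real.tendsto_log_atTop
  have h1 : Tendsto (fun T : ℝ => (∫ t in Ioc 0 100 ∩ Sc N c r, Zk k t) / (T * Real.log T ^ ((k : ℝ) ^ 2)))
      atTop (𝓝 0) := h0.const_div_atTop _
  have h2 : ∀ᶠ T : ℝ in atTop, (∫ t in Ioc 0 T ∩ Sc N c r, Zk k t) / (T * Real.log T ^ ((k : ℝ) ^ 2)) =
      (∫ t in Ioc 0 100 ∩ Sc N c r, Zk k t) / (T * Real.log T ^ ((k : ℝ) ^ 2)) +
      (nus k N c r).real (Ioc 0 T) / (T * Real.log T ^ ((k : ℝ) ^ 2)) := by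
    filter_upwards [eventually_ge_atTop 100] with T hT
    have e1 : (nus k N c r).real (Ioc 0 T) = (nus k N c r).real (Ioc 100 T) := by
      have hz : nus k N c r (Ioc 0 100) = 0 := by
        unfold nus
        refine le_antisymm ((Measure.restrict_apply_le _ _).trans ?_) bot_le
        unfold muk
        rw [withDensity_apply _ measurableSet_Ioc, Measure.restrict_restrict measurableSet_Ioc]
        have : Ioc (0 : ℝ) 100 ∩ Ioi 100 = ∅ := by
          ext t
          simp only [mem_inter_iff, mem_Ioc, mem_Ioi, mem_empty_iff_false, iff_false]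
          rintro ⟨⟨_, h⟩, h'⟩
          linarith
        rw [this]
        simp
      have hun : Ioc (0 : ℝ) T = Ioc 0 100 ∪ Ioc 100 T := (Ioc_union_Ioc_eq_Ioc (by norm_num) hT).symm
      rw [measureReal_def, measureReal_def, hun]
      congr 1
      apply le_antisymm
      · refine (measure_union_le _ _).trans ?_
        rw [hz, zero_add]
      · exact measure_mono subset_union_right
    rw [e1, nus_dy k N c r le_rfl, ← add_div]
    congr 1
    have hun : Ioc (0 : ℝ) T ∩ Sc N c r = (Ioc 0 100 ∩ Sc N c r) ∪ (Ioc 100 T ∩ Sc N c r) := by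
      rw [← union_inter_distrib_right, Ioc_union_Ioc_eq_Ioc (by norm_num) hT]
    have hZi : ∀ a b : ℝ, IntegrableOn (Zk k) (Ioc a b ∩ Sc N c r) := fun a b =>
      ((Zk_cont k).integrableOn_Ioc).mono_set inter_subset_left
    rw [hun, setIntegral_union _ (measurableSet_Ioc.inter (Sc_meas N c r)) (hZi _ _) (hZi _ _)]
    rw [Set.disjoint_left]
    rintro t ⟨⟨_, h⟩, _⟩ ⟨⟨h', _⟩, _⟩
    linarith
  constructor
  · intro h
    have h3 := h.sub h1
    rw [sub_zero] at h3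
    refine h3.congr' ?_
    filter_upwards [h2] with T hT
    rw [hT]; ring
  · intro h
    have h3 := h1.add h
    rw [zero_add] at h3
    refine h3.congr' ?_
    filter_upwards [h2] with T hT
    rw [hT]

/-- the asymptotic formula for the moment is equivalent to the one over a sector -/
theorem sec_equiv {k N : ℕ} (hk : 1 ≤ k) (hN : 1 ≤ N) (hkN : k ≤ N + 1) (c : ℝ) {r : ℝ} (hr0 : 0 < r) (hr : r ≤ 1 / 2) (a : ℝ) :
    Tendsto (fun T => (∫ t in (0 : ℝ)..T, Zk k t) / (T * Real.log T ^ ((k : ℝ) ^ 2))) atTop (𝓝 a) ↔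
    Tendsto (fun T => (∫ t in Ioc 0 T ∩ Sc N c r, Zk k t) / (T * Real.log T ^ ((k : ℝ) ^ 2))) atTop (𝓝 (2 * r * a)) := by
  rw [int_iff a_meas (c := 1) (N := N) (by simp) hk hN, sec_iff hk]
  have hn := near_sec hk hN hkN c hr0.le hr
  have e : ∀ T, (mus k r).real (Ioc 0 T) / (T * Real.log T ^ ((k : ℝ) ^ 2)) =
      2 * r * ((muk k).real (Ioc 0 T) / (T * Real.log T ^ ((k : ℝ) ^ 2))) := by
    intro T
    rw [mus_real k hr0.le, mul_div_assoc]
  constructor
  · intro h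
    apply a_taub (2 * r * a) ((k : ℝ) ^ 2) (qe k N) (by positivity) (qe_lt hk hN) _ _ (mus_fin k r) (nus_fin k N c r) hn
    simp only [e]
    exact h.const_mul _
  · intro h
    have h1 := a_taub (2 * r * a) ((k : ℝ) ^ 2) (qe k N) (by positivity) (qe_lt hk hN) _ _ (nus_fin k N c r) (mus_fin k r) hn.symm h
    simp only [e] at h1
    have h2 := h1.const_mul (2 * r)⁻¹
    have hr2 : 2 * r ≠ 0 := by positivity
    simpa only [← mul_assoc, inv_mul_cancel₀ hr2, one_mul] using h2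

end Pool.Agent.N30.MZ
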