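import Pool.Agent.N30.MZ.Jas

set_option autoImplicit false

/-! Moments of zeta twisted by powers of the factor of the functional equation. -/

open Complex MeasureTheory Set Filter Topology

namespace Pool.Agent.N30.MZ

open Pool.Agent.W188.QS
open Pool.Agent.W131.QSJJ (dd dd_nonneg dd_zero dd_cast norm_cp)
open Pool.Agent.W885.QS (norm_zeta_le_two gg_integrable gg_integral gg_pos GG_norm fp_re fp_im fp_cont GG_cont
  zeta_cont zeta_bd bound_int bound_compl pw tail_pt)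

/-- the function `ζ^{2k} X^{k-N} G` -/
noncomputable def HH (k N : ℕ) (T Δ : ℝ) (s : ℂ) : ℂ := FF k s * (XX s)⁻¹ ^ N * GG T Δ s

lemma HH_diff (k N : ℕ) (T Δ : ℝ) {s : ℂ} (hs : 1 ≤ s.im) : DifferentiableAt ℂ (HH k N T Δ) s := by
  obtain ⟨h1, h2, h3, -⟩ := Pool.Agent.W22.QS.qs_basic s hs
  unfold HH
  have hF : DifferentiableAt ℂ (FF k) s := by
    unfold FF
    exact (h3.pow _).mul (h1.pow _)
  have hG : DifferentiableAt ℂ (GG T Δ) s := by
    unfold GG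
    fun_prop
  exact (hF.mul ((h1.inv h2).pow _)).mul hG

lemma XX_ge_one {s : ℂ} (h1 : 1 / 2 ≤ s.re) (h2 : s.re ≤ 4) (h3 : 50 ≤ s.im) : 1 ≤ ‖XX s‖ := by
  obtain ⟨-, hx, -, -, -, hx2, -⟩ := a_line
  rcases h1.eq_or_lt with h | h
  · have e : s = cp s.im := by
      apply Complex.ext
      · simp [cp, ← h]
      · simp [cp]
    rw [e, hx]
  · exact (hx2 s h h2 h3).le

lemma fp_mk (t : ℝ) : (⟨4, t⟩ : ℂ) = fp t := by
  apply Complex.ext <;> simp [fp]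

lemma cp_mk' (t : ℝ) : (⟨1 / 2, t⟩ : ℂ) = cp t := by
  apply Complex.ext <;> simp [cp]

/-- the twisted moment -/
noncomputable def TW (k N : ℕ) (T Δ : ℝ) : ℂ := ∫ t in (T / 2)..(3 * T / 2), ((Zk k t : ℝ) : ℂ) * (XX (cp t))⁻¹ ^ N * ((gg T Δ t : ℝ) : ℂ)

theorem shift (k : ℕ) (A : ℝ) : ∃ B T₀ : ℝ, 1 ≤ B ∧ 100 ≤ T₀ ∧ ∀ T Δ : ℝ, T₀ ≤ T → 1 ≤ Δ →
    B * Δ * √(Real.log T) ≤ T → ∀ N : ℕ,
    ‖TW k N T Δ - ∫ t in (T / 2)..(3 * T / 2), HH k N T Δ (fp t)‖ ≤ 7 * T ^ (-A) := by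
  obtain ⟨B, T₀, hB, hT₀, hE⟩ := Pool.Agent.W723.QS.qs_edge a_line k A
  refine ⟨B, T₀, hB, hT₀, fun T Δ hT hΔ hBT N => ?_⟩
  have hT100 : 100 ≤ T := hT₀.trans hT
  have hEd := hE T Δ hT hΔ hBT
  have hab : T / 2 ≤ 3 * T / 2 := by linarith
  have hrect := Complex.integral_boundary_rect_eq_zero_of_differentiableOn (HH k N T Δ) (⟨1 / 2, T / 2⟩ : ℂ)
    (⟨4, 3 * T / 2⟩ : ℂ) (by
      intro s hs
      rw [mem_reProdIm] at hs
      simp only at hs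
      have him : s.im ∈ Icc (T / 2) (3 * T / 2) := by rw [← uIcc_of_le hab]; exact hs.2
      exact (HH_diff k N T Δ (by linarith [him.1])).differentiableWithinAt)
  simp only [smul_eq_mul] at hrect
  have e1 : ∫ y : ℝ in (T / 2)..(3 * T / 2), HH k N T Δ (((1 / 2 : ℝ) : ℂ) + y * I) = TW k N T Δ := by
    unfold TW
    apply intervalIntegral.integral_congr
    intro t ht
    rw [uIcc_of_le hab] at ht
    have ht1 : 1 ≤ t := by linarith [ht.1]
    have e : (((1 / 2 : ℝ) : ℂ) + t * I) = cp t := by unfold cp; push_cast; ring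
    simp only
    rw [e]
    unfold HH
    rw [a_line.2.2.2.1 t ht1 k, a_line.2.2.2.2.1 T Δ t]
  have e2 : ∫ y : ℝ in (T / 2)..(3 * T / 2), HH k N T Δ (((4 : ℝ) : ℂ) + y * I) =
      ∫ t in (T / 2)..(3 * T / 2), HH k N T Δ (fp t) := by
    apply intervalIntegral.integral_congr
    intro t _
    simp only
    unfold fp
    push_cast
    rfl
  rw [e1, e2] at hrect
  -- horizontal sides
  have hhor : ∀ y : ℝ, (y = T / 2 ∨ y = 3 * T / 2) →
      ‖∫ x : ℝ in (1 / 2 : ℝ)..4, HH k N T Δ ((x : ℂ) + (y : ℂ) * I)‖ ≤ 7 / 2 * T ^ (-A) := by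
    intro y hy
    have hy50 : 50 ≤ y := by rcases hy with h | h <;> rw [h] <;> linarith
    have hb : ∀ x ∈ uIoc (1 / 2 : ℝ) 4, ‖HH k N T Δ ((x : ℂ) + (y : ℂ) * I)‖ ≤ T ^ (-A) := by
      intro x hx
      rw [uIoc_of_le (by norm_num)] at hx
      have e : ((x : ℂ) + (y : ℂ) * I) = (⟨x, y⟩ : ℂ) := by apply Complex.ext <;> simp
      rw [e]
      unfold HH
      have h1 : ‖FF k (⟨x, y⟩ : ℂ) * GG T Δ (⟨x, y⟩ : ℂ)‖ ≤ T ^ (-A) := by
        apply hEd y _ x hx.1.le hx.2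
        rcases hy with h | h
        · left; rw [h]; simp
        · right; rw [h]; simp
      have h2 : 1 ≤ ‖XX (⟨x, y⟩ : ℂ)‖ := XX_ge_one hx.1.le hx.2 hy50
      have h3 : ‖(XX (⟨x, y⟩ : ℂ))⁻¹ ^ N‖ ≤ 1 := by
        rw [norm_pow, norm_inv]
        exact pow_le_one₀ (by positivity) (inv_le_one_of_one_le₀ h2)
      rw [mul_right_comm, norm_mul]
      calc _ ≤ T ^ (-A) * 1 := mul_le_mul h1 h3 (norm_nonneg _) (by positivity)
        _ = _ := mul_one _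
    have := intervalIntegral.norm_integral_le_of_norm_le_const hb
    rw [show |(4 : ℝ) - 1 / 2| = 7 / 2 by norm_num] at this
    linarith
  have h1 := hhor (T / 2) (Or.inl rfl)
  have h2 := hhor (3 * T / 2) (Or.inr rfl)
  obtain ⟨a1, ha1⟩ : ∃ a1, a1 = ∫ x : ℝ in (1 / 2 : ℝ)..4, HH k N T Δ ((x : ℂ) + ((T / 2 : ℝ) : ℂ) * I) := ⟨_, rfl⟩
  obtain ⟨a2, ha2⟩ : ∃ a2, a2 = ∫ x : ℝ in (1 / 2 : ℝ)..4, HH k N T Δ ((x : ℂ) + ((3 * T / 2 : ℝ) : ℂ) * I) := ⟨_, rfl⟩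
  rw [← ha1] at h1
  rw [← ha2] at h2
  rw [← ha1, ← ha2] at hrect
  obtain ⟨W, hW⟩ : ∃ W, W = ∫ t in (T / 2)..(3 * T / 2), HH k N T Δ (fp t) := ⟨_, rfl⟩
  rw [← hW] at hrect ⊢
  have h3 : I * (TW k N T Δ - W) = a1 - a2 := by linear_combination -hrect
  have h4 : ‖TW k N T Δ - W‖ = ‖a1 - a2‖ := by
    rw [← h3, norm_mul, norm_I, one_mul]
  rw [h4]
  refine (norm_sub_le _ _).trans ?_
  linarith

/-- `N ≥ k + 1`: negligible -/
theorem tw_big (k : ℕ) : ∃ C B T₀ : ℝ, 0 ≤ C ∧ 1 ≤ B ∧ 100 ≤ T₀ ∧ ∀ T Δ : ℝ, T₀ ≤ T → 1 ≤ Δ →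
    B * Δ * √(Real.log T) ≤ T → ∀ N : ℕ, k + 1 ≤ N → ‖TW k N T Δ‖ ≤ C * T ^ (-(2 : ℝ)) := by
  obtain ⟨B, T₀, hB, hT₀, hs⟩ := shift k 3
  obtain ⟨-, -, -, -, -, -, -, -, ⟨K, hK0, hK⟩, -⟩ := a_line
  obtain ⟨E, hE⟩ : ∃ E, E = Real.exp (49 / 4) := ⟨_, rfl⟩
  have hE0 : 0 < E := by rw [hE]; exact Real.exp_pos _
  obtain ⟨M, hM⟩ : ∃ M, M = 4 ^ k * (Real.exp K * 2 ^ (7 / 2 : ℝ)) * E := ⟨_, rfl⟩
  have hM0 : 0 < M := by rw [hM]; positivity
  refine ⟨7 + M * (√Real.pi), B, T₀, by positivity, hB, hT₀, fun T Δ hT hΔ hBT N hN => ?_⟩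
  have hT100 : 100 ≤ T := hT₀.trans hT
  have hT0 : 0 < T := by linarith
  have h1 := hs T Δ hT hΔ hBT N
  have hL1 : 1 ≤ Real.log T := by
    rw [Real.le_log_iff_exp_le hT0]
    have := Real.exp_one_lt_d9
    linarith
  have hΔT : Δ ≤ T := by
    have h2 : 1 ≤ √(Real.log T) := by rw [Real.one_le_sqrt]; exact hL1
    have h3 : 1 * Δ * 1 ≤ B * Δ * √(Real.log T) := by
      apply mul_le_mul (mul_le_mul_of_nonneg_right hB (by linarith)) h2 (by norm_num) (by positivity)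
    linarith
  have h2 : ‖∫ t in (T / 2)..(3 * T / 2), HH k N T Δ (fp t)‖ ≤ (M * T ^ (-(7 / 2 : ℝ))) * (√Real.pi * Δ) := by
    apply bound_int _ _ _ T Δ _ (by linarith) (by linarith) (by positivity)
    intro t ht
    have ht1 : 50 ≤ t := by linarith [ht.1]
    have hX1 : 1 ≤ ‖XX (fp t)‖ := XX_ge_one (by rw [fp_re]; norm_num) (by rw [fp_re]) (by rw [fp_im]; exact ht1)
    have hX2 : Real.exp (-K) * t ^ (7 / 2 : ℝ) ≤ ‖XX (fp t)‖ := by
      have := (hK (fp t) (by rw [fp_re]; norm_num) (by rw [fp_re]) (by rw [fp_im]; linarith)).1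
      rw [fp_re, fp_im] at this
      norm_num at this
      norm_num
      exact this
    unfold HH FF
    rw [norm_mul, norm_mul, norm_mul, norm_pow, norm_pow, norm_pow, norm_inv]
    have h3 : ‖riemannZeta (fp t)‖ ^ (2 * k) ≤ 4 ^ k := by
      calc _ ≤ (2 : ℝ) ^ (2 * k) := pow_le_pow_left₀ (norm_nonneg _) (zeta_bd t) _
        _ = 4 ^ k := by rw [pow_mul]; norm_num
    have h4 : ‖XX (fp t)‖ ^ k * ‖XX (fp t)‖⁻¹ ^ N ≤ (Real.exp K * 2 ^ (7 / 2 : ℝ)) * T ^ (-(7 / 2 : ℝ)) := by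
      obtain ⟨d, hd⟩ := Nat.exists_eq_add_of_le hN
      have h5 : ‖XX (fp t)‖ ^ k * ‖XX (fp t)‖⁻¹ ^ N ≤ ‖XX (fp t)‖⁻¹ := by
        have hx0 : ‖XX (fp t)‖ ≠ 0 := by positivity
        have e : ‖XX (fp t)‖ ^ k * ‖XX (fp t)‖⁻¹ ^ N = ‖XX (fp t)‖⁻¹ * ‖XX (fp t)‖⁻¹ ^ d := by
          rw [hd, pow_add, pow_add, pow_one]
          calc ‖XX (fp t)‖ ^ k * (‖XX (fp t)‖⁻¹ ^ k * ‖XX (fp t)‖⁻¹ * ‖XX (fp t)‖⁻¹ ^ d) =
              (‖XX (fp t)‖ * ‖XX (fp t)‖⁻¹) ^ k * ‖XX (fp t)‖⁻¹ * ‖XX (fp t)‖⁻¹ ^ d := by rw [mul_pow]; ring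
            _ = _ := by rw [mul_inv_cancel₀ hx0, one_pow, one_mul]
        rw [e]
        exact mul_le_of_le_one_right (by positivity) (pow_le_one₀ (by positivity) (inv_le_one_of_one_le₀ hX1))
      refine h5.trans ?_
      have h6 : 0 < Real.exp (-K) * t ^ (7 / 2 : ℝ) := by positivity
      refine (inv_anti₀ h6 hX2).trans ?_
      rw [mul_inv, Real.exp_neg, inv_inv, mul_assoc]
      apply mul_le_mul_of_nonneg_left _ (Real.exp_pos _).le
      rw [← Real.rpow_neg (by linarith)]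
      have h7 : t ^ (-(7 / 2 : ℝ)) ≤ (T / 2) ^ (-(7 / 2 : ℝ)) := by
        rw [Real.rpow_neg (by linarith), Real.rpow_neg (by positivity)]
        apply inv_anti₀ (by positivity)
        exact Real.rpow_le_rpow (by positivity) ht.1 (by norm_num)
      refine h7.trans ?_
      rw [Real.div_rpow hT0.le (by norm_num), Real.rpow_neg (by norm_num : (0:ℝ) ≤ 2), div_inv_eq_mul, mul_comm]
    have h5 := GG_norm T Δ t hΔ
    rw [← hE] at h5
    calc ‖riemannZeta (fp t)‖ ^ (2 * k) * ‖XX (fp t)‖ ^ k * ‖XX (fp t)‖⁻¹ ^ N * ‖GG T Δ (fp t)‖ =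
        ‖riemannZeta (fp t)‖ ^ (2 * k) * (‖XX (fp t)‖ ^ k * ‖XX (fp t)‖⁻¹ ^ N) * ‖GG T Δ (fp t)‖ := by ring
      _ ≤ 4 ^ k * ((Real.exp K * 2 ^ (7 / 2 : ℝ)) * T ^ (-(7 / 2 : ℝ))) * (E * gg T Δ t) := by
          apply mul_le_mul (mul_le_mul h3 h4 (by positivity) (by positivity)) h5 (norm_nonneg _) (by positivity)
      _ = _ := by rw [hM]; ring
  have h3 : ‖TW k N T Δ‖ ≤ 7 * T ^ (-(3 : ℝ)) + (M * T ^ (-(7 / 2 : ℝ))) * (√Real.pi * Δ) := by
    have e : TW k N T Δ = (TW k N T Δ - ∫ t in (T / 2)..(3 * T / 2), HH k N T Δ (fp t)) +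
        ∫ t in (T / 2)..(3 * T / 2), HH k N T Δ (fp t) := by ring
    rw [e]
    exact (norm_add_le _ _).trans (add_le_add h1 h2)
  refine h3.trans ?_
  have h4 : T ^ (-(3 : ℝ)) ≤ T ^ (-(2 : ℝ)) := Real.rpow_le_rpow_of_exponent_le (by linarith) (by norm_num)
  have h5 : T ^ (-(7 / 2 : ℝ)) * Δ ≤ T ^ (-(2 : ℝ)) := by
    calc T ^ (-(7 / 2 : ℝ)) * Δ ≤ T ^ (-(7 / 2 : ℝ)) * T ^ (1 : ℝ) := by
          apply mul_le_mul_of_nonneg_left _ (by positivity)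
          rw [Real.rpow_one]; exact hΔT
      _ = T ^ (-(5 / 2 : ℝ)) := by rw [← Real.rpow_add hT0]; norm_num
      _ ≤ _ := Real.rpow_le_rpow_of_exponent_le (by linarith) (by norm_num)
  calc 7 * T ^ (-(3 : ℝ)) + (M * T ^ (-(7 / 2 : ℝ))) * (√Real.pi * Δ) =
      7 * T ^ (-(3 : ℝ)) + M * √Real.pi * (T ^ (-(7 / 2 : ℝ)) * Δ) := by ring
    _ ≤ 7 * T ^ (-(2 : ℝ)) + M * √Real.pi * T ^ (-(2 : ℝ)) := by
        apply add_le_add (by linarith)
        exact mul_le_mul_of_nonneg_left h5 (by positivity)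
    _ = _ := by ring

/-- `N = k - 1`: the main case -/
theorem tw_main (k : ℕ) (hk : 1 ≤ k) : ∃ K δ B T₀ : ℝ, 0 ≤ K ∧ 0 < δ ∧ δ ≤ 1 ∧ 1 ≤ B ∧ 100 ≤ T₀ ∧ ∀ T Δ : ℝ, T₀ ≤ T →
    T ^ (1 - δ) ≤ Δ → B * Δ * √(Real.log T) ≤ T →
    ‖TW k (k - 1) T Δ - ((√Real.pi * Δ * (Real.log T ^ (2 * k - 1) / ((2 * k - 1).factorial : ℝ)) : ℝ) : ℂ)‖ ≤
      K * (Δ * Real.log T ^ (2 * k - 2)) := by
  obtain ⟨B1, T1, hB1, hT1, hs⟩ := shift k 3
  obtain ⟨K2, δ2, B2, T2, hK2, hδ2, hB2, hJ⟩ := J_asym k hk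
  obtain ⟨C3, hX3, -⟩ := Pool.Agent.W253.QS.qs_i3
  obtain ⟨E, hE⟩ : ∃ E, E = Real.exp (49 / 4) := ⟨_, rfl⟩
  have hE0 : 0 < E := by rw [hE]; exact Real.exp_pos _
  obtain ⟨M, hM⟩ : ∃ M, M = 4 ^ k * |C3| * E * (384 * Real.exp 2) := ⟨_, rfl⟩
  have hM0 : 0 ≤ M := by rw [hM]; positivity
  refine ⟨7 + K2 + M * (√Real.pi * 2), min δ2 1, max (max B1 B2) 20, max T1 T2, by positivity, lt_min hδ2 one_pos, min_le_right _ _,
    (by norm_num : (1:ℝ) ≤ 20).trans (le_max_right _ _), hT1.trans (le_max_left _ _), fun T Δ hT hΔ hBT => ?_⟩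
  have hTT1 : T1 ≤ T := (le_max_left _ _).trans hT
  have hTT2 : T2 ≤ T := (le_max_right _ _).trans hT
  have hT100 : 100 ≤ T := hT1.trans hTT1
  have hT0 : 0 < T := by linarith
  have hΔ1 : 1 ≤ Δ := by
    refine le_trans ?_ hΔ
    exact Real.one_le_rpow (by linarith) (by linarith [min_le_right δ2 1])
  have hΔ2 : T ^ (1 - δ2) ≤ Δ := by
    refine le_trans ?_ hΔ
    exact Real.rpow_le_rpow_of_exponent_le (by linarith) (by linarith [min_le_left δ2 1])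
  have hΔ0 : 0 < Δ := by linarith
  have hBB : ∀ b : ℝ, b ≤ max (max B1 B2) 20 → b * Δ * √(Real.log T) ≤ T := by
    intro b hb
    refine le_trans ?_ hBT
    apply mul_le_mul_of_nonneg_right _ (Real.sqrt_nonneg _)
    exact mul_le_mul_of_nonneg_right hb hΔ0.le
  have hL1 : 1 ≤ Real.log T := by
    rw [Real.le_log_iff_exp_le hT0]
    have := Real.exp_one_lt_d9
    linarith
  have h1 := hs T Δ hTT1 hΔ1 (hBB B1 ((le_max_left _ _).trans (le_max_left _ _))) (k - 1)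
  have h2 := hJ T Δ hTT2 hΔ2 (hBB B2 ((le_max_right _ _).trans (le_max_left _ _)))
  -- the function on the line `Re s = 4`
  obtain ⟨F, hF⟩ : ∃ F : ℝ → ℂ, F = fun t => riemannZeta (fp t) ^ (2 * k) * XX (fp t) * GG T Δ (fp t) := ⟨_, rfl⟩
  have e1 : ∫ t in (T / 2)..(3 * T / 2), HH k (k - 1) T Δ (fp t) = ∫ t in (T / 2)..(3 * T / 2), F t := by
    apply intervalIntegral.integral_congr
    intro t ht
    rw [uIcc_of_le (by linarith)] at ht
    have ht1 : 50 ≤ t := by linarith [ht.1]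
    have hX1 : 1 ≤ ‖XX (fp t)‖ := XX_ge_one (by rw [fp_re]; norm_num) (by rw [fp_re]) (by rw [fp_im]; exact ht1)
    have hx0 : XX (fp t) ≠ 0 := by
      intro h
      rw [h, norm_zero] at hX1
      linarith
    simp only
    rw [hF]
    unfold HH FF
    have e : XX (fp t) ^ k * (XX (fp t))⁻¹ ^ (k - 1) = XX (fp t) := by
      obtain ⟨j, rfl⟩ : ∃ j, k = j + 1 := ⟨k - 1, by omega⟩
      rw [Nat.add_sub_cancel, pow_succ, inv_pow]
      field_simp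
    simp only
    rw [mul_assoc (riemannZeta (fp t) ^ (2 * k)), e]
  have hXm : Continuous fun t : ℝ => XX (fp t) := by
    rw [continuous_iff_continuousAt]
    intro t
    have hg : ∀ m : ℕ, fp t ≠ -(m : ℂ) := by
      intro m h
      have := congrArg Complex.re h
      rw [fp_re] at this
      simp at this
      have h2 : (0:ℝ) ≤ m := Nat.cast_nonneg m
      linarith
    have h1 : ContinuousAt XX (fp t) := by
      unfold XX
      have h3 : ContinuousAt Complex.Gamma (fp t) := (Complex.differentiableAt_Gamma _ hg).continuousAt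
      have h4 : ContinuousAt (fun s : ℂ => (2 * (Real.pi : ℂ)) ^ (-s)) (fp t) := by
        apply ContinuousAt.const_cpow
        · fun_prop
        · left
          have := Real.pi_ne_zero
          simp [this]
      fun_prop
    exact ContinuousAt.comp (f := fp) h1 fp_cont.continuousAt
  have hFc : Continuous F := by
    rw [hF]
    exact ((zeta_cont.pow _).mul hXm).mul (GG_cont T Δ)
  have hFb : ∀ t, ‖F t‖ ≤ 4 ^ k * |C3| * E * ((1 + |t|) ^ 4 * gg T Δ t) := by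
    intro t
    rw [hF]
    simp only
    rw [norm_mul, norm_mul, norm_pow]
    have h3 : ‖riemannZeta (fp t)‖ ^ (2 * k) ≤ 4 ^ k := by
      calc _ ≤ (2 : ℝ) ^ (2 * k) := pow_le_pow_left₀ (norm_nonneg _) (zeta_bd t) _
        _ = 4 ^ k := by rw [pow_mul]; norm_num
    have h4 : ‖XX (fp t)‖ ≤ |C3| * (1 + |t|) ^ 4 := (hX3 t).trans (mul_le_mul_of_nonneg_right (le_abs_self _) (by positivity))
    have h5 := GG_norm T Δ t hΔ1
    rw [← hE] at h5
    calc _ ≤ 4 ^ k * (|C3| * (1 + |t|) ^ 4) * (E * gg T Δ t) :=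
          mul_le_mul (mul_le_mul h3 h4 (norm_nonneg _) (by positivity)) h5 (norm_nonneg _) (by positivity)
      _ = _ := by ring
  have htail : ‖∫ t in (Ioc (T / 2) (3 * T / 2))ᶜ, F t‖ ≤ M * (√Real.pi * (2 * Δ)) := by
    apply bound_compl _ _ _ T (2 * Δ) _ (by linarith) hM0
    intro t ht
    have h3 : T / 4 ≤ |t - T| := by
      rw [mem_Ioc, not_and_or, not_lt, not_le] at ht
      rcases ht with h | h
      · rw [abs_of_nonpos (by linarith)]; linarith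
      · rw [abs_of_nonneg (by linarith)]; linarith
    have h4 := tail_pt (B := max (max B1 B2) 20) (le_max_right _ _) hL1 (by linarith) hΔ1 hBT h3
    calc ‖F t‖ ≤ _ := hFb t
      _ ≤ 4 ^ k * |C3| * E * (384 * Real.exp 2 * gg T (2 * Δ) t) := mul_le_mul_of_nonneg_left h4 (by positivity)
      _ = _ := by rw [hM]; ring
  have hFi : Integrable F := by
    have hon : IntegrableOn F (Ioc (T / 2) (3 * T / 2)) := (hFc.integrableOn_Icc).mono_set Ioc_subset_Icc_self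
    have hoff : IntegrableOn F (Ioc (T / 2) (3 * T / 2))ᶜ := by
      refine Integrable.mono' ((gg_integrable T (2 * Δ) (by linarith)).const_mul M).integrableOn hFc.aestronglyMeasurable ?_
      refine (ae_restrict_iff' measurableSet_Ioc.compl).mpr (Eventually.of_forall fun t ht => ?_)
      have h3 : T / 4 ≤ |t - T| := by
        rw [mem_compl_iff, mem_Ioc, not_and_or, not_lt, not_le] at ht
        rcases ht with h | h
        · rw [abs_of_nonpos (by linarith)]; linarith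
        · rw [abs_of_nonneg (by linarith)]; linarith
      have h4 := tail_pt (B := max (max B1 B2) 20) (le_max_right _ _) hL1 (by linarith) hΔ1 hBT h3
      calc ‖F t‖ ≤ _ := hFb t
        _ ≤ 4 ^ k * |C3| * E * (384 * Real.exp 2 * gg T (2 * Δ) t) := mul_le_mul_of_nonneg_left h4 (by positivity)
        _ = _ := by rw [hM]; ring
    have := hon.union hoff
    rw [union_compl_self] at this
    exact integrableOn_univ.1 this
  have hsplit : (∫ t : ℝ, F t) = (∫ t in (T / 2)..(3 * T / 2), F t) + ∫ t in (Ioc (T / 2) (3 * T / 2))ᶜ, F t := by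
    rw [intervalIntegral.integral_of_le (by linarith)]
    exact (integral_add_compl measurableSet_Ioc hFi).symm
  rw [e1] at h1
  have hJ' : (∫ t : ℝ, riemannZeta (fp t) ^ (2 * k) * XX (fp t) * GG T Δ (fp t)) = ∫ t : ℝ, F t := by rw [hF]
  rw [hJ', hsplit] at h2
  obtain ⟨W, hW⟩ : ∃ W, W = ∫ t in (T / 2)..(3 * T / 2), F t := ⟨_, rfl⟩
  obtain ⟨V, hV⟩ : ∃ V, V = ∫ t in (Ioc (T / 2) (3 * T / 2))ᶜ, F t := ⟨_, rfl⟩
  obtain ⟨Q, hQ⟩ : ∃ Q : ℂ, Q = ((√Real.pi * Δ * (Real.log T ^ (2 * k - 1) / ((2 * k - 1).factorial : ℝ)) : ℝ) : ℂ) := ⟨_, rfl⟩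
  rw [← hW] at h1
  rw [← hW, ← hV, ← hQ] at h2
  rw [← hV] at htail
  rw [← hQ]
  have e3 : TW k (k - 1) T Δ - Q = (TW k (k - 1) T Δ - W) + (W + V - Q) - V := by ring
  rw [e3]
  refine (norm_sub_le _ _).trans ((add_le_add ((norm_add_le _ _).trans (add_le_add h1 h2)) htail).trans ?_)
  have hLp : 1 ≤ Real.log T ^ (2 * k - 2) := one_le_pow₀ hL1
  have hX : Δ ≤ Δ * Real.log T ^ (2 * k - 2) := le_mul_of_one_le_right hΔ0.le hLp
  have h7 : T ^ (-(3 : ℝ)) ≤ 1 := Real.rpow_le_one_of_one_le_of_nonpos (by linarith) (by norm_num)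
  have h8 : M * (√Real.pi * 2) * Δ ≤ M * (√Real.pi * 2) * (Δ * Real.log T ^ (2 * k - 2)) := mul_le_mul_of_nonneg_left hX (by positivity)
  nlinarith

end Pool.Agent.N30.MZ
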