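import Pool.Agent.N30.MZ.Tw

set_option autoImplicit false

/-! The twisted moment with `N = k`. -/

open Complex MeasureTheory Set Filter Topology

namespace Pool.Agent.N30.MZ

open Pool.Agent.W188.QS
open Pool.Agent.W131.QSJJ (dd dd_nonneg dd_zero dd_cast norm_cp)
open Pool.Agent.W885.QS (norm_zeta_le_two gg_integrable gg_integral gg_pos GG_norm fp_re fp_im fp_cont GG_cont
  zeta_cont zeta_bd bound_int bound_compl pw tail_pt)

lemma nG (T : ℝ) {Δ : ℝ} (hΔ : 0 < Δ) (n : ℕ) (hn : 1 ≤ n) : ∫ t : ℝ, (n : ℂ) ^ (-fp t) * GG T Δ (fp t) =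
    ((√Real.pi * Δ : ℝ) : ℂ) * cexp (-(1 / 2 + (T : ℂ) * I) * (Real.log n : ℂ) - (Δ : ℂ) ^ 2 * (Real.log n : ℂ) ^ 2 / 4) := by
  have hn0 : (n : ℂ) ≠ 0 := by
    have : n ≠ 0 := by omega
    exact_mod_cast this
  have hΔc : (Δ : ℂ) ≠ 0 := by exact_mod_cast hΔ.ne'
  obtain ⟨l, hl⟩ : ∃ l : ℂ, l = (Real.log n : ℂ) := ⟨_, rfl⟩
  have hll : Complex.log (n : ℂ) = l := by rw [hl, Complex.ofReal_log (Nat.cast_nonneg n), Complex.ofReal_natCast]
  have e : ∀ t : ℝ, (n : ℂ) ^ (-fp t) * GG T Δ (fp t) = cexp ((-(1 / (Δ : ℂ) ^ 2)) * (t : ℂ) ^ 2 +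
      (-(I * l) + (7 * I + 2 * T) / (Δ : ℂ) ^ 2) * (t : ℂ) + (-(4 * l) + (49 / 4 - 7 * I * T - (T : ℂ) ^ 2) / (Δ : ℂ) ^ 2)) := by
    intro t
    rw [Complex.cpow_def_of_ne_zero hn0, hll]
    unfold GG
    rw [← Complex.exp_add]
    congr 1
    unfold fp cp
    field_simp
    ring_nf
    rw [I_sq]
    ring
  simp only [e]
  have hb : (-(1 / (Δ : ℂ) ^ 2)).re < 0 := by
    have : (-(1 / (Δ : ℂ) ^ 2)) = ((-(1 / Δ ^ 2) : ℝ) : ℂ) := by push_cast; ring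
    rw [this, Complex.ofReal_re]
    have : 0 < 1 / Δ ^ 2 := by positivity
    linarith
  rw [integral_cexp_quadratic hb]
  have e1 : ((Real.pi : ℂ) / - -(1 / (Δ : ℂ) ^ 2)) ^ (1 / 2 : ℂ) = ((√Real.pi * Δ : ℝ) : ℂ) := by
    have h1 : ((Real.pi : ℂ) / - -(1 / (Δ : ℂ) ^ 2)) = ((Real.pi * Δ ^ 2 : ℝ) : ℂ) := by
      push_cast
      rw [neg_neg, div_div_eq_mul_div, div_one]
    have h2 : (1 / 2 : ℂ) = ((1 / 2 : ℝ) : ℂ) := by push_cast; ring
    rw [h1, h2, ← Complex.ofReal_cpow (by positivity)]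
    congr 1
    rw [← Real.sqrt_eq_rpow, Real.sqrt_mul Real.pi_pos.le, Real.sqrt_sq hΔ.le]
  rw [e1]
  congr 2
  rw [← hl]
  field_simp
  ring_nf
  rw [I_sq]
  ring

lemma dd_one (j : ℕ) : dd j 1 = 1 := by
  unfold dd
  have : ∀ j : ℕ, (ArithmeticFunction.zeta ^ j : ArithmeticFunction ℕ) 1 = 1 := by
    intro j
    induction j with
    | zero => simp
    | succ j ih => rw [pow_succ, ArithmeticFunction.mul_apply_one, ih]; simp
  rw [this, Nat.cast_one]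

theorem series2 (j : ℕ) (Cd : ℝ) (hbd : ∀ n : ℕ, dd j n ≤ Cd * (n : ℝ) ^ 2)
    (hz : ∀ s : ℂ, 1 < s.re → riemannZeta s ^ j = ∑' n : ℕ, ((dd j n : ℝ) : ℂ) * (n : ℂ) ^ (-s))
    (T Δ : ℝ) (hΔ : 1 ≤ Δ) :
    ∫ t : ℝ, riemannZeta (fp t) ^ j * GG T Δ (fp t) =
      ∑' n : ℕ, ((dd j n : ℝ) : ℂ) * ∫ t : ℝ, (n : ℂ) ^ (-fp t) * GG T Δ (fp t) := by
  have hGi : Integrable (fun t : ℝ => GG T Δ (fp t)) := by
    refine Integrable.mono' ((gg_integrable T Δ (by linarith)).const_mul (Real.exp (49 / 4))) (GG_cont T Δ).aestronglyMeasurable ?_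
    exact Eventually.of_forall fun t => GG_norm T Δ t hΔ
  have hI : ∀ n : ℕ, 1 ≤ n → Integrable (fun t : ℝ => (n : ℂ) ^ (-fp t) * GG T Δ (fp t)) := by
    intro n hn
    have hn0 : (n : ℂ) ≠ 0 := by
      have : n ≠ 0 := by omega
      exact_mod_cast this
    have hc : Continuous fun t : ℝ => (n : ℂ) ^ (-fp t) := by
      apply Continuous.const_cpow
      · exact fp_cont.neg
      · left; exact hn0
    refine Integrable.mono' (hGi.norm.const_mul ((n : ℝ) ^ (-(4 : ℝ)))) (hc.mul (GG_cont T Δ)).aestronglyMeasurable ?_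
    refine Eventually.of_forall fun t => ?_
    rw [norm_mul, norm_cp n hn]
  have hFint : ∀ n : ℕ, Integrable (fun t : ℝ => ((dd j n : ℝ) : ℂ) *
      ((n : ℂ) ^ (-fp t) * GG T Δ (fp t))) := by
    intro n
    rcases Nat.eq_zero_or_pos n with h | h
    · subst h
      simp only [dd_zero, Complex.ofReal_zero, zero_mul]
      exact integrable_zero _ _ _
    · exact (hI n h).const_mul _
  have hK : ∀ n : ℕ, ∫ t : ℝ, ‖((dd j n : ℝ) : ℂ) *
      ((n : ℂ) ^ (-fp t) * GG T Δ (fp t))‖ =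
      dd j n * ((n : ℝ) ^ (-(4 : ℝ)) * ∫ t : ℝ, ‖GG T Δ (fp t)‖) := by
    intro n
    rcases Nat.eq_zero_or_pos n with h | h
    · subst h
      simp only [dd_zero, Complex.ofReal_zero, zero_mul, norm_zero, integral_zero]
    · rw [← integral_const_mul, ← integral_const_mul]
      refine integral_congr_ae (Filter.Eventually.of_forall fun t => ?_)
      change ‖((dd j n : ℝ) : ℂ) * ((n : ℂ) ^ (-fp t) * GG T Δ (fp t))‖ =
        dd j n * ((n : ℝ) ^ (-(4 : ℝ)) * ‖GG T Δ (fp t)‖)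
      rw [norm_mul, Complex.norm_real, Real.norm_of_nonneg (dd_nonneg j n), norm_mul,
        norm_cp n h]
  have hK0 : 0 ≤ ∫ t : ℝ, ‖GG T Δ (fp t)‖ :=
    integral_nonneg fun t => norm_nonneg _
  have hsum : Summable fun n : ℕ => ∫ t : ℝ, ‖((dd j n : ℝ) : ℂ) *
      ((n : ℂ) ^ (-fp t) * GG T Δ (fp t))‖ := by
    have hs : Summable fun n : ℕ => (Cd * ∫ t : ℝ, ‖GG T Δ (fp t)‖) *
        (n : ℝ) ^ (-(2 : ℝ)) :=
      (Real.summable_nat_rpow.2 (by norm_num)).mul_left _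
    refine Summable.of_nonneg_of_le (fun n => integral_nonneg fun t => norm_nonneg _)
      (fun n => ?_) hs
    rw [hK n]
    rcases Nat.eq_zero_or_pos n with h | h
    · subst h
      rw [dd_zero, zero_mul, Nat.cast_zero, Real.zero_rpow (by norm_num), mul_zero]
    · have hn : (0 : ℝ) < n := Nat.cast_pos.2 h
      have e : (n : ℝ) ^ 2 * (n : ℝ) ^ (-(4 : ℝ)) = (n : ℝ) ^ (-(2 : ℝ)) := by
        rw [← Real.rpow_natCast, ← Real.rpow_add hn]
        norm_num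
      calc dd j n * ((n : ℝ) ^ (-(4 : ℝ)) * ∫ t : ℝ, ‖GG T Δ (fp t)‖)
          ≤ (Cd * (n : ℝ) ^ 2) *
            ((n : ℝ) ^ (-(4 : ℝ)) * ∫ t : ℝ, ‖GG T Δ (fp t)‖) :=
            mul_le_mul_of_nonneg_right (hbd n) (by positivity)
        _ = (Cd * ∫ t : ℝ, ‖GG T Δ (fp t)‖) *
            ((n : ℝ) ^ 2 * (n : ℝ) ^ (-(4 : ℝ))) := by ring
        _ = _ := by rw [e]
  have h := (hasSum_integral_of_summable_integral_norm hFint hsum).tsum_eq
  have e1 : ∀ t : ℝ, ∑' n : ℕ, ((dd j n : ℝ) : ℂ) *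
      ((n : ℂ) ^ (-fp t) * GG T Δ (fp t)) =
      riemannZeta (fp t) ^ j * GG T Δ (fp t) := by
    intro t
    rw [hz (fp t) (by rw [fp_re]; norm_num), ← tsum_mul_right]
    refine tsum_congr fun n => ?_
    ring
  simp only [e1] at h
  rw [← h]
  refine tsum_congr fun n => ?_
  rw [integral_const_mul]

theorem J0_asym (k : ℕ) (hk : 1 ≤ k) : ∃ C : ℝ, 0 ≤ C ∧ ∀ T Δ : ℝ, 1 ≤ T → 40 ≤ Δ → Real.log T ≤ Δ →
    ‖(∫ t : ℝ, riemannZeta (fp t) ^ (2 * k) * GG T Δ (fp t)) - ((√Real.pi * Δ : ℝ) : ℂ)‖ ≤ C * (Δ * T ^ (-(4 : ℝ))) := by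
  obtain ⟨Cd, hCd, hsum, hbd, hz⟩ := Pool.Agent.W32.QS.qs_div (2 * k) (by omega)
  have hS : Summable fun n : ℕ => (n : ℝ) ^ (-(2 : ℝ)) := Real.summable_nat_rpow.2 (by norm_num)
  have hS0 : 0 ≤ ∑' n : ℕ, (n : ℝ) ^ (-(2 : ℝ)) := tsum_nonneg fun n => Real.rpow_nonneg (Nat.cast_nonneg _) _
  refine ⟨√Real.pi * Cd * ∑' n : ℕ, (n : ℝ) ^ (-(2 : ℝ)), by positivity, fun T Δ hT hΔ hL => ?_⟩
  have hT0 : 0 < T := by linarith
  have hΔ0 : 0 < Δ := by linarith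
  rw [series2 (2 * k) Cd hbd (fun s hs => by rw [(hz s hs).2]; simp only [dd_cast]) T Δ (by linarith)]
  obtain ⟨G, hG⟩ : ∃ G : ℕ → ℂ, G = fun n => ((dd (2 * k) n : ℝ) : ℂ) * ∫ t : ℝ, (n : ℂ) ^ (-fp t) * GG T Δ (fp t) := ⟨_, rfl⟩
  obtain ⟨J, hJ⟩ : ∃ J : ℕ → ℂ, J = fun n => if n = 1 then ((√Real.pi * Δ : ℝ) : ℂ) else 0 := ⟨_, rfl⟩
  have hpt : ∀ n : ℕ, ‖G n - J n‖ ≤ √Real.pi * Cd * (Δ * T ^ (-(4 : ℝ))) * (n : ℝ) ^ (-(2 : ℝ)) := by
    intro n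
    rw [hG, hJ]
    simp only
    rcases Nat.lt_or_ge n 2 with h | h
    · interval_cases n
      · have : ((dd (2 * k) 0 : ℝ) : ℂ) = 0 := by rw [dd_zero]; simp
        rw [this, zero_mul, if_neg (by norm_num), sub_zero, norm_zero]
        positivity
      · rw [if_pos rfl, dd_one, nG T hΔ0 1 le_rfl]
        simp only [Nat.cast_one, Real.log_one, Complex.ofReal_zero, Complex.ofReal_one, one_mul]
        norm_num
        positivity
    · rw [if_neg (by omega), sub_zero, nG T hΔ0 n (by omega), norm_mul, norm_mul, Complex.norm_real, Complex.norm_real,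
        Real.norm_of_nonneg (dd_nonneg _ _), Real.norm_of_nonneg (by positivity : 0 ≤ √Real.pi * Δ), Complex.norm_exp]
      have hn2 : (2 : ℝ) ≤ n := by exact_mod_cast h
      have hn0 : (0 : ℝ) < n := by linarith
      obtain ⟨l, hl⟩ : ∃ l, l = Real.log n := ⟨_, rfl⟩
      have hl2 : 0.69 ≤ l := by
        have h1 : Real.log 2 ≤ Real.log n := Real.log_le_log (by norm_num) hn2
        have h2 := Real.log_two_gt_d9
        rw [hl]
        linarith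
      have e : (-(1 / 2 + (T : ℂ) * I) * (Real.log n : ℂ) - (Δ : ℂ) ^ 2 * (Real.log n : ℂ) ^ 2 / 4).re = -(l / 2) - Δ ^ 2 * l ^ 2 / 4 := by
        rw [← hl]
        have e1 : (-(1 / 2 + (T : ℂ) * I) * (l : ℂ) - (Δ : ℂ) ^ 2 * (l : ℂ) ^ 2 / 4) =
            ((-(l / 2) - Δ ^ 2 * l ^ 2 / 4 : ℝ) : ℂ) + ((-(T * l) : ℝ) : ℂ) * I := by push_cast; ring
        rw [e1, Complex.add_re, Complex.re_ofReal_mul, Complex.I_re, mul_zero, add_zero, Complex.ofReal_re]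
      rw [e]
      have h3 : Real.exp (-(l / 2) - Δ ^ 2 * l ^ 2 / 4) ≤ (n : ℝ) ^ (-(4 : ℝ)) * T ^ (-(4 : ℝ)) := by
        rw [Real.rpow_def_of_pos hn0, Real.rpow_def_of_pos hT0, ← Real.exp_add, ← hl]
        apply Real.exp_le_exp.2
        have h4 : 27 ≤ Δ * l := by nlinarith
        have h5 : 4 * l ≤ Δ * l / 10 := by nlinarith
        have h6 : 4 * Δ ≤ 6 * (Δ * l) := by nlinarith
        have h7 : Δ ^ 2 * l ^ 2 = (Δ * l) * (Δ * l) := by ring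
        have h8 : 27 * (Δ * l) ≤ (Δ * l) * (Δ * l) := mul_le_mul_of_nonneg_right h4 (by positivity)
        rw [h7]
        nlinarith
      have e2 : (n : ℝ) ^ 2 * (n : ℝ) ^ (-(4 : ℝ)) = (n : ℝ) ^ (-(2 : ℝ)) := by
        rw [← Real.rpow_natCast, ← Real.rpow_add hn0]
        norm_num
      calc dd (2 * k) n * (√Real.pi * Δ * Real.exp (-(l / 2) - Δ ^ 2 * l ^ 2 / 4)) ≤
          (Cd * (n : ℝ) ^ 2) * (√Real.pi * Δ * ((n : ℝ) ^ (-(4 : ℝ)) * T ^ (-(4 : ℝ)))) := by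
            apply mul_le_mul (hbd n) _ (by positivity) (by positivity)
            exact mul_le_mul_of_nonneg_left h3 (by positivity)
        _ = √Real.pi * Cd * (Δ * T ^ (-(4 : ℝ))) * ((n : ℝ) ^ 2 * (n : ℝ) ^ (-(4 : ℝ))) := by ring
        _ = _ := by rw [e2]
  have hb := hS.hasSum.mul_left (√Real.pi * Cd * (Δ * T ^ (-(4 : ℝ))))
  have hsd : Summable (fun n => G n - J n) := Summable.of_norm_bounded hb.summable hpt
  have hJs : HasSum J ((√Real.pi * Δ : ℝ) : ℂ) := by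
    have := hasSum_single (f := J) 1 (fun n hn => by rw [hJ]; exact if_neg hn)
    rw [hJ] at this ⊢
    simpa using this
  have hGs : Summable G := by
    have := hsd.add hJs.summable
    refine this.congr fun n => ?_
    simp
  have e : (∑' n, G n) - ((√Real.pi * Δ : ℝ) : ℂ) = ∑' n, (G n - J n) := by
    rw [hGs.tsum_sub hJs.summable, hJs.tsum_eq]
  have e0 : (∑' n : ℕ, ((dd (2 * k) n : ℝ) : ℂ) * ∫ t : ℝ, (n : ℂ) ^ (-fp t) * GG T Δ (fp t)) = ∑' n, G n := by rw [hG]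
  rw [e0, e]
  refine (tsum_of_norm_bounded hb hpt).trans (le_of_eq ?_)
  ring

lemma gg_far {T Δ t : ℝ} (hL : 1 ≤ Real.log T) (hT : 1 ≤ T) (hΔ : 1 ≤ Δ)
    (hΔT : 20 * Δ * √(Real.log T) ≤ T) (h : T / 4 ≤ |t - T|) : gg T Δ t ≤ T ^ (-(3 : ℝ)) * gg T (2 * Δ) t := by
  have hT0 : 0 < T := by linarith
  have hΔ0 : 0 < Δ := by linarith
  unfold gg
  rw [Real.rpow_def_of_pos hT0, ← Real.exp_add]
  apply Real.exp_le_exp.2
  have h1 : (20 * Δ * √(Real.log T)) ^ 2 ≤ T ^ 2 := pow_le_pow_left₀ (by positivity) hΔT 2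
  rw [mul_pow, mul_pow, Real.sq_sqrt (by linarith)] at h1
  have h2 : (T / 4) ^ 2 ≤ (t - T) ^ 2 := by
    rw [← sq_abs (t - T)]
    exact pow_le_pow_left₀ (by positivity) h 2
  have h3 : 25 * Real.log T ≤ ((t - T) / Δ) ^ 2 := by
    rw [div_pow, le_div_iff₀ (by positivity)]
    nlinarith
  have h4 : ((t - T) / (2 * Δ)) ^ 2 = ((t - T) / Δ) ^ 2 / 4 := by
    field_simp
    ring
  rw [h4]
  nlinarith

/-- `N = k` -/
theorem tw_eq (k : ℕ) (hk : 1 ≤ k) : ∃ C B T₀ : ℝ, 0 ≤ C ∧ 1 ≤ B ∧ 100 ≤ T₀ ∧ ∀ T Δ : ℝ, T₀ ≤ T → Real.log T ≤ Δ →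
    B * Δ * √(Real.log T) ≤ T → ‖TW k k T Δ - ((√Real.pi * Δ : ℝ) : ℂ)‖ ≤ C * T ^ (-(2 : ℝ)) := by
  obtain ⟨B1, T1, hB1, hT1, hs⟩ := shift k 3
  obtain ⟨C2, hC2, h0⟩ := J0_asym k hk
  obtain ⟨E, hE⟩ : ∃ E, E = Real.exp (49 / 4) := ⟨_, rfl⟩
  have hE0 : 0 < E := by rw [hE]; exact Real.exp_pos _
  obtain ⟨M, hM⟩ : ∃ M, M = 4 ^ k * E := ⟨_, rfl⟩
  have hM0 : 0 < M := by rw [hM]; positivity
  refine ⟨7 + C2 + M * (√Real.pi * 2), max B1 20, max T1 (Real.exp 40), by positivity,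
    hB1.trans (le_max_left _ _), hT1.trans (le_max_left _ _), fun T Δ hT hΔ hBT => ?_⟩
  have hTT1 : T1 ≤ T := (le_max_left _ _).trans hT
  have hTe : Real.exp 40 ≤ T := (le_max_right _ _).trans hT
  have hT100 : 100 ≤ T := hT1.trans hTT1
  have hT0 : 0 < T := by linarith
  have hL40 : 40 ≤ Real.log T := by rw [Real.le_log_iff_exp_le hT0]; exact hTe
  have hΔ40 : 40 ≤ Δ := hL40.trans hΔ
  have hΔ0 : 0 < Δ := by linarith
  have hBB : ∀ b : ℝ, b ≤ max B1 20 → b * Δ * √(Real.log T) ≤ T := by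
    intro b hb
    refine le_trans ?_ hBT
    apply mul_le_mul_of_nonneg_right _ (Real.sqrt_nonneg _)
    exact mul_le_mul_of_nonneg_right hb hΔ0.le
  have hB20 := hBB 20 (le_max_right _ _)
  have hΔT : Δ ≤ T := by
    have h2 : 1 ≤ √(Real.log T) := by rw [Real.one_le_sqrt]; linarith
    have h3 : 1 * Δ * 1 ≤ 20 * Δ * √(Real.log T) := by
      apply mul_le_mul (mul_le_mul_of_nonneg_right (by norm_num) (by linarith)) h2 (by norm_num) (by positivity)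
    linarith
  have h1 := hs T Δ hTT1 (by linarith) (hBB B1 (le_max_left _ _)) k
  have h2 := h0 T Δ (by linarith) hΔ40 hΔ
  obtain ⟨F, hF⟩ : ∃ F : ℝ → ℂ, F = fun t => riemannZeta (fp t) ^ (2 * k) * GG T Δ (fp t) := ⟨_, rfl⟩
  have e1 : ∫ t in (T / 2)..(3 * T / 2), HH k k T Δ (fp t) = ∫ t in (T / 2)..(3 * T / 2), F t := by
    apply intervalIntegral.integral_congr
    intro t ht
    rw [uIcc_of_le (by linarith)] at ht
    have ht1 : 50 ≤ t := by linarith [ht.1]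
    have hX1 : 1 ≤ ‖XX (fp t)‖ := XX_ge_one (by rw [fp_re]; norm_num) (by rw [fp_re]) (by rw [fp_im]; exact ht1)
    have hx0 : XX (fp t) ≠ 0 := by
      intro h
      rw [h, norm_zero] at hX1
      linarith
    simp only
    rw [hF]
    unfold HH FF
    have e : XX (fp t) ^ k * (XX (fp t))⁻¹ ^ k = 1 := by
      rw [← mul_pow, mul_inv_cancel₀ hx0, one_pow]
    simp only
    rw [mul_assoc (riemannZeta (fp t) ^ (2 * k)), e, mul_one]
  have hFc : Continuous F := by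
    rw [hF]
    exact (zeta_cont.pow _).mul (GG_cont T Δ)
  have hFb : ∀ t, ‖F t‖ ≤ M * gg T Δ t := by
    intro t
    rw [hF]
    simp only
    rw [norm_mul, norm_pow]
    have h3 : ‖riemannZeta (fp t)‖ ^ (2 * k) ≤ 4 ^ k := by
      calc _ ≤ (2 : ℝ) ^ (2 * k) := pow_le_pow_left₀ (norm_nonneg _) (zeta_bd t) _
        _ = 4 ^ k := by rw [pow_mul]; norm_num
    have h5 := GG_norm T Δ t (by linarith)
    rw [← hE] at h5
    calc _ ≤ 4 ^ k * (E * gg T Δ t) := mul_le_mul h3 h5 (norm_nonneg _) (by positivity)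
      _ = _ := by rw [hM]; ring
  have hFi : Integrable F := by
    refine Integrable.mono' ((gg_integrable T Δ hΔ0).const_mul M) hFc.aestronglyMeasurable ?_
    exact Eventually.of_forall hFb
  have htail : ‖∫ t in (Ioc (T / 2) (3 * T / 2))ᶜ, F t‖ ≤ (M * T ^ (-(3 : ℝ))) * (√Real.pi * (2 * Δ)) := by
    apply bound_compl _ _ _ T (2 * Δ) _ (by linarith) (by positivity)
    intro t ht
    have h3 : T / 4 ≤ |t - T| := by
      rw [mem_Ioc, not_and_or, not_lt, not_le] at ht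
      rcases ht with h | h
      · rw [abs_of_nonpos (by linarith)]; linarith
      · rw [abs_of_nonneg (by linarith)]; linarith
    have h4 := gg_far (T := T) (Δ := Δ) (t := t) (by linarith) (by linarith) (by linarith) hB20 h3
    calc ‖F t‖ ≤ _ := hFb t
      _ ≤ M * (T ^ (-(3 : ℝ)) * gg T (2 * Δ) t) := mul_le_mul_of_nonneg_left h4 hM0.le
      _ = _ := by ring
  have hsplit : (∫ t : ℝ, F t) = (∫ t in (T / 2)..(3 * T / 2), F t) + ∫ t in (Ioc (T / 2) (3 * T / 2))ᶜ, F t := by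
    rw [intervalIntegral.integral_of_le (by linarith)]
    exact (integral_add_compl measurableSet_Ioc hFi).symm
  rw [e1] at h1
  have hJ' : (∫ t : ℝ, riemannZeta (fp t) ^ (2 * k) * GG T Δ (fp t)) = ∫ t : ℝ, F t := by rw [hF]
  rw [hJ', hsplit] at h2
  obtain ⟨W, hW⟩ : ∃ W, W = ∫ t in (T / 2)..(3 * T / 2), F t := ⟨_, rfl⟩
  obtain ⟨V, hV⟩ : ∃ V, V = ∫ t in (Ioc (T / 2) (3 * T / 2))ᶜ, F t := ⟨_, rfl⟩
  rw [← hW] at h1
  rw [← hW, ← hV] at h2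
  rw [← hV] at htail
  have e3 : TW k k T Δ - ((√Real.pi * Δ : ℝ) : ℂ) = (TW k k T Δ - W) + (W + V - ((√Real.pi * Δ : ℝ) : ℂ)) - V := by ring
  rw [e3]
  refine (norm_sub_le _ _).trans ((add_le_add ((norm_add_le _ _).trans (add_le_add h1 h2)) htail).trans ?_)
  have p1 : T ^ (-(3 : ℝ)) ≤ T ^ (-(2 : ℝ)) := Real.rpow_le_rpow_of_exponent_le (by linarith) (by norm_num)
  have p2 : Δ * T ^ (-(3 : ℝ)) ≤ T ^ (-(2 : ℝ)) := by
    calc Δ * T ^ (-(3 : ℝ)) ≤ T ^ (1 : ℝ) * T ^ (-(3 : ℝ)) := by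
          apply mul_le_mul_of_nonneg_right _ (by positivity)
          rw [Real.rpow_one]; exact hΔT
      _ = _ := by rw [← Real.rpow_add hT0]; norm_num
  have p3 : Δ * T ^ (-(4 : ℝ)) ≤ T ^ (-(2 : ℝ)) := by
    refine le_trans ?_ p2
    apply mul_le_mul_of_nonneg_left _ hΔ0.le
    exact Real.rpow_le_rpow_of_exponent_le (by linarith) (by norm_num)
  calc 7 * T ^ (-(3 : ℝ)) + C2 * (Δ * T ^ (-(4 : ℝ))) + M * T ^ (-(3 : ℝ)) * (√Real.pi * (2 * Δ)) =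
      7 * T ^ (-(3 : ℝ)) + C2 * (Δ * T ^ (-(4 : ℝ))) + M * (√Real.pi * 2) * (Δ * T ^ (-(3 : ℝ))) := by ring
    _ ≤ 7 * T ^ (-(2 : ℝ)) + C2 * T ^ (-(2 : ℝ)) + M * (√Real.pi * 2) * T ^ (-(2 : ℝ)) := by
        apply add_le_add (add_le_add (by linarith) _) _
        · exact mul_le_mul_of_nonneg_left p3 hC2
        · exact mul_le_mul_of_nonneg_left p2 (by positivity)
    _ = _ := by ring

end Pool.Agent.N30.MZ
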