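import Pool.Agent.N30.MZ.Eq

set_option autoImplicit false

/-! Weyl's criterion for the argument of zeta. -/

open Complex MeasureTheory Set Filter Topology AddCircle

namespace Pool.Agent.N30.MZ

open Pool.Agent.W188.QS

lemma four_mean {m : ℤ} (hm : m ≠ 0) : ∫ x : UnitAddCircle, fourier m x ∂haarAddCircle = 0 :=
  integral_eq_zero_of_add_right_eq_neg (μ := haarAddCircle) (fourier_add_half_inv_index hm one_pos)

lemma LF_int (k N : ℕ) (f : C(UnitAddCircle, ℂ)) (T Δ : ℝ) : IntervalIntegrable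
    (fun t => ((Zk k t * gg T Δ t : ℝ) : ℂ) * f ((xx N t : ℝ) : UnitAddCircle)) volume (T / 2) (3 * T / 2) := by
  have h1 : IntervalIntegrable (fun t => ((Zk k t * gg T Δ t : ℝ) : ℂ)) volume (T / 2) (3 * T / 2) := by
    apply Continuous.intervalIntegrable
    exact Complex.continuous_ofReal.comp ((Zk_cont k).mul (gg_cont T Δ))
  have h2 : Measurable fun t => f ((xx N t : ℝ) : UnitAddCircle) := f.continuous.measurable.comp (xxc_meas N)
  rw [intervalIntegrable_iff] at h1 ⊢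
  refine Integrable.mul_bdd (c := ‖f‖) h1 h2.aestronglyMeasurable ?_
  exact Eventually.of_forall fun t => f.norm_coe_le_norm _

lemma LF_norm (k N : ℕ) (f : C(UnitAddCircle, ℂ)) {T : ℝ} (hT : 0 ≤ T) (Δ : ℝ) : ‖LF k N f T Δ‖ ≤ ‖f‖ * IM k T Δ := by
  unfold LF IM
  rw [← intervalIntegral.integral_const_mul]
  apply intervalIntegral.norm_integral_le_of_norm_le (by linarith)
  · refine Eventually.of_forall fun t _ => ?_
    have h0 : 0 ≤ Zk k t * gg T Δ t := mul_nonneg (Zk_nonneg k t) (Real.exp_pos _).le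
    rw [norm_mul, Complex.norm_real, Real.norm_of_nonneg h0, mul_comm]
    exact mul_le_mul_of_nonneg_right (f.norm_coe_le_norm _) h0
  · exact (((Zk_cont k).mul (gg_cont T Δ)).intervalIntegrable _ _).const_mul _

lemma LF_add (k N : ℕ) (f g : C(UnitAddCircle, ℂ)) (T Δ : ℝ) : LF k N (f + g : C(UnitAddCircle, ℂ)) T Δ = LF k N f T Δ + LF k N g T Δ := by
  unfold LF
  rw [← intervalIntegral.integral_add (LF_int k N f T Δ) (LF_int k N g T Δ)]
  apply intervalIntegral.integral_congr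
  intro t _
  simp only [ContinuousMap.add_apply]
  ring

lemma LF_smul (k N : ℕ) (a : ℂ) (f : C(UnitAddCircle, ℂ)) (T Δ : ℝ) : LF k N (a • f : C(UnitAddCircle, ℂ)) T Δ = a * LF k N f T Δ := by
  unfold LF
  rw [← intervalIntegral.integral_const_mul]
  apply intervalIntegral.integral_congr
  intro t _
  simp only [ContinuousMap.smul_apply, smul_eq_mul]
  ring

lemma LF_sub (k N : ℕ) (f g : C(UnitAddCircle, ℂ)) (T Δ : ℝ) : LF k N (f - g : C(UnitAddCircle, ℂ)) T Δ = LF k N f T Δ - LF k N g T Δ := by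
  have : f - g = f + (-1 : ℂ) • g := by ext x; simp [sub_eq_add_neg]
  rw [this, LF_add, LF_smul]
  ring

lemma LF_one (k N : ℕ) (T Δ : ℝ) : LF k N (fourier 0) T Δ = ((IM k T Δ : ℝ) : ℂ) := by
  unfold LF IM
  rw [← intervalIntegral.integral_ofReal]
  apply intervalIntegral.integral_congr
  intro t _
  simp [fourier_zero]

/-- the target filter of the main theorem has positive moments -/
theorem IM_pos (k : ℕ) (hk : 1 ≤ k) {δ B : ℝ} (hδ : δ ≤ 1 / 4) (hB : 4 ≤ B) : ∀ᶠ p in Rg δ B, 0 < IM k p.1 p.2 := by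
  obtain ⟨c, T₀, hc, hT₀, h⟩ := IM_low k hk
  rw [ev_Rg]
  refine ⟨T₀, fun T Δ hT hΔ hBT => ?_⟩
  have hT100 : 100 ≤ T := hT₀.trans hT
  have hT0 : 0 < T := by linarith
  have hL1 : 1 ≤ Real.log T := by
    rw [Real.le_log_iff_exp_le hT0]
    have := Real.exp_one_lt_d9
    linarith
  have hd : T ^ (1 / 2 : ℝ) ≤ Δ := by
    refine le_trans ?_ hΔ
    exact Real.rpow_le_rpow_of_exponent_le (by linarith) (by linarith)
  have hΔ0 : 0 < Δ := lt_of_lt_of_le (by positivity) hd
  have h2 : 2 * Δ ≤ T := by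
    have h3 : 1 ≤ √(Real.log T) := by rw [Real.one_le_sqrt]; exact hL1
    have h4 : 4 * Δ * 1 ≤ B * Δ * √(Real.log T) := by
      apply mul_le_mul (mul_le_mul_of_nonneg_right hB hΔ0.le) h3 (by norm_num) (by positivity)
    linarith
  exact lt_of_lt_of_le (by positivity) (h T Δ hT hd h2)

/-- the moment is larger than `Δ (log T)^{2k-2}` times any constant (`N ≥ k - 1`): the ratio of the twisted moments and the moment -/
theorem ratio (k : ℕ) (hk : 1 ≤ k) : ∃ δ B : ℝ, 0 < δ ∧ δ ≤ 1 / 4 ∧ 4 ≤ B ∧ ∀ M : ℕ, 1 ≤ M → k ≤ M + 1 →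
    Tendsto (fun p : ℝ × ℝ => TW k M p.1 p.2 / (IM k p.1 p.2 : ℂ)) (Rg δ B) (𝓝 0) := by
  obtain ⟨K, δ, B, T₀, hK, hδ, hδ4, hB, hT₀, h⟩ := tw k hk
  obtain ⟨c, T₁, hc, hT₁, hlow⟩ := IM_low k hk
  refine ⟨δ, B, hδ, hδ4, hB, fun M hM hkM => ?_⟩
  rw [Metric.tendsto_nhds]
  intro ε hε
  rw [ev_Rg]
  obtain ⟨C, hC⟩ : ∃ C, C = K + (√Real.pi + K) := ⟨_, rfl⟩
  have hC0 : 0 < C := by rw [hC]; positivity
  obtain ⟨T₂, hT₂⟩ := eventually_atTop.1 (Real.tendsto_log_atTop.eventually_gt_atTop (C / (ε * c)))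
  refine ⟨max (max T₀ T₁) T₂, fun T Δ hT hΔ hBT => ?_⟩
  have t0 : T₀ ≤ T := ((le_max_left _ _).trans (le_max_left _ _)).trans hT
  have t1 : T₁ ≤ T := ((le_max_right _ _).trans (le_max_left _ _)).trans hT
  have t2 : T₂ ≤ T := (le_max_right _ _).trans hT
  have hT100 : 100 ≤ T := hT₀.trans t0
  have hT0 : 0 < T := by linarith
  obtain ⟨L, hL⟩ : ∃ L, L = Real.log T := ⟨_, rfl⟩
  have hL1 : 1 ≤ L := by
    rw [hL, Real.le_log_iff_exp_le hT0]
    have := Real.exp_one_lt_d9
    linarith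
  have hd : T ^ (1 / 2 : ℝ) ≤ Δ := by
    refine le_trans ?_ hΔ
    exact Real.rpow_le_rpow_of_exponent_le (by linarith) (by linarith)
  have hΔ1 : 1 ≤ Δ := (Real.one_le_rpow (by linarith) (by norm_num)).trans hd
  have hΔ0 : 0 < Δ := by linarith
  have h2 : 2 * Δ ≤ T := by
    have h3 : 1 ≤ √(Real.log T) := by rw [Real.one_le_sqrt, ← hL]; exact hL1
    have h4 : 4 * Δ * 1 ≤ B * Δ * √(Real.log T) := by
      apply mul_le_mul (mul_le_mul_of_nonneg_right hB hΔ0.le) h3 (by norm_num) (by positivity)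
    linarith
  have hI := hlow T Δ t1 hd h2
  have hm := h T Δ t0 hΔ hBT
  have hlog := hT₂ T t2
  rw [← hL] at hI hm hlog
  have hT2 : T ^ (-(2 : ℝ)) ≤ 1 := Real.rpow_le_one_of_one_le_of_nonpos (by linarith) (by norm_num)
  have hKT : K * T ^ (-(2 : ℝ)) ≤ K := by nlinarith
  -- the bound for the twisted moment
  have hTW : ‖TW k M T Δ‖ * L ≤ C * (Δ * L ^ (k ^ 2)) := by
    rcases Nat.lt_or_ge M k with h1 | h1
    · -- `M = k - 1`
      have hMk : M = k - 1 := by omega
      have hk2 : 2 ≤ k := by omega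
      subst hMk
      have h3 : ‖TW k (k - 1) T Δ‖ ≤ K * (Δ * L ^ (2 * k - 2)) + √Real.pi * Δ * (L ^ (2 * k - 1) / ((2 * k - 1).factorial : ℝ)) := by
        have h4 := hm.1
        have e : TW k (k - 1) T Δ = (TW k (k - 1) T Δ - ((√Real.pi * Δ * (L ^ (2 * k - 1) / ((2 * k - 1).factorial : ℝ)) : ℝ) : ℂ)) +
          ((√Real.pi * Δ * (L ^ (2 * k - 1) / ((2 * k - 1).factorial : ℝ)) : ℝ) : ℂ) := by ring
        rw [e]
        refine (norm_add_le _ _).trans (add_le_add h4 (le_of_eq ?_))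
        rw [Complex.norm_real, Real.norm_of_nonneg (by positivity)]
      have h5 : L ^ (2 * k - 1) / ((2 * k - 1).factorial : ℝ) ≤ L ^ (2 * k - 1) := by
        apply div_le_self (by positivity)
        exact_mod_cast Nat.one_le_iff_ne_zero.2 (Nat.factorial_ne_zero _)
      have h6 : L ^ (2 * k - 2) ≤ L ^ (2 * k - 1) := pow_le_pow_right₀ hL1 (by omega)
      have h7 : ‖TW k (k - 1) T Δ‖ ≤ C * (Δ * L ^ (2 * k - 1)) := by
        refine h3.trans ?_
        have h8 : K * (Δ * L ^ (2 * k - 2)) ≤ K * (Δ * L ^ (2 * k - 1)) :=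
          mul_le_mul_of_nonneg_left (mul_le_mul_of_nonneg_left h6 hΔ0.le) hK
        have h9 : √Real.pi * Δ * (L ^ (2 * k - 1) / ((2 * k - 1).factorial : ℝ)) ≤ √Real.pi * Δ * L ^ (2 * k - 1) :=
          mul_le_mul_of_nonneg_left h5 (by positivity)
        rw [hC]
        have h10 : 0 ≤ K * (Δ * L ^ (2 * k - 1)) := by positivity
        nlinarith
      calc ‖TW k (k - 1) T Δ‖ * L ≤ C * (Δ * L ^ (2 * k - 1)) * L := mul_le_mul_of_nonneg_right h7 (by linarith)
        _ = C * (Δ * L ^ (2 * k - 1 + 1)) := by rw [pow_succ]; ring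
        _ ≤ C * (Δ * L ^ (k ^ 2)) := by
            apply mul_le_mul_of_nonneg_left _ hC0.le
            apply mul_le_mul_of_nonneg_left _ hΔ0.le
            apply pow_le_pow_right₀ hL1
            have : 2 * k ≤ k ^ 2 := by nlinarith
            omega
    · have h7 : ‖TW k M T Δ‖ ≤ C * Δ := by
        rcases h1.eq_or_lt with h3 | h3
        · subst h3
          have h4 := hm.2.1
          have e : TW k k T Δ = (TW k k T Δ - ((√Real.pi * Δ : ℝ) : ℂ)) + ((√Real.pi * Δ : ℝ) : ℂ) := by ring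
          rw [e]
          refine (norm_add_le _ _).trans ?_
          rw [Complex.norm_real, Real.norm_of_nonneg (by positivity : 0 ≤ √Real.pi * Δ)]
          rw [hC]
          have : K ≤ K * Δ := le_mul_of_one_le_right hK hΔ1
          nlinarith
        · have h4 := hm.2.2 M h3
          rw [hC]
          have : K ≤ K * Δ := le_mul_of_one_le_right hK hΔ1
          have : 0 ≤ √Real.pi * Δ := by positivity
          nlinarith
      calc ‖TW k M T Δ‖ * L ≤ C * Δ * L := mul_le_mul_of_nonneg_right h7 (by linarith)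
        _ = C * (Δ * L ^ 1) := by ring
        _ ≤ C * (Δ * L ^ (k ^ 2)) := by
            apply mul_le_mul_of_nonneg_left _ hC0.le
            apply mul_le_mul_of_nonneg_left _ hΔ0.le
            apply pow_le_pow_right₀ hL1
            have : 1 ≤ k ^ 2 := Nat.one_le_pow _ _ hk
            exact this
  have hDL : 0 < Δ * L ^ (k ^ 2) := by positivity
  have hI0 : 0 < IM k T Δ := lt_of_lt_of_le (by positivity) hI
  simp only [dist_zero_right]
  rw [norm_div, Complex.norm_real, Real.norm_of_nonneg hI0.le, div_lt_iff₀ hI0]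
  have h8 : C < ε * c * L := by
    rw [div_lt_iff₀ (by positivity)] at hlog
    linarith
  have h9 : ‖TW k M T Δ‖ * L < ε * (c * (Δ * L ^ (k ^ 2))) * L := by
    calc _ ≤ C * (Δ * L ^ (k ^ 2)) := hTW
      _ < (ε * c * L) * (Δ * L ^ (k ^ 2)) := mul_lt_mul_of_pos_right h8 hDL
      _ = _ := by ring
  have h10 : ‖TW k M T Δ‖ < ε * (c * (Δ * L ^ (k ^ 2))) := lt_of_mul_lt_mul_right h9 (by linarith)
  exact lt_of_lt_of_le h10 (mul_le_mul_of_nonneg_left hI hε.le)

/-- Weyl's criterion -/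
theorem weyl {k N : ℕ} (hk : 1 ≤ k) (hN : 1 ≤ N) (hkN : k ≤ N + 1) {δ B : ℝ} (hδ : δ ≤ 1 / 4) (hB : 4 ≤ B)
    (hr : ∀ M : ℕ, 1 ≤ M → k ≤ M + 1 → Tendsto (fun p : ℝ × ℝ => TW k M p.1 p.2 / (IM k p.1 p.2 : ℂ)) (Rg δ B) (𝓝 0))
    (f : C(UnitAddCircle, ℂ)) : Tendsto (fun p : ℝ × ℝ => LF k N f p.1 p.2 / (IM k p.1 p.2 : ℂ)) (Rg δ B)
      (𝓝 (∫ x, f x ∂haarAddCircle)) := by
  have hpos := IM_pos k hk hδ hB
  have hT2 : ∀ᶠ p in Rg δ B, (2 : ℝ) ≤ p.1 := by
    rw [ev_Rg]
    exact ⟨2, fun T Δ hT _ _ => hT⟩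
  -- monomials
  have hmono : ∀ m : ℤ, Tendsto (fun p : ℝ × ℝ => LF k N (fourier m) p.1 p.2 / (IM k p.1 p.2 : ℂ)) (Rg δ B)
      (𝓝 (∫ x : UnitAddCircle, fourier m x ∂haarAddCircle)) := by
    intro m
    rcases eq_or_ne m 0 with h | h
    · subst h
      have e : ∫ x : UnitAddCircle, fourier 0 x ∂haarAddCircle = 1 := by
        simp [fourier_zero]
      rw [e]
      apply tendsto_const_nhds.congr'
      filter_upwards [hpos] with p hp
      rw [LF_one, div_self]
      exact_mod_cast hp.ne'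
    · rw [four_mean h]
      obtain ⟨n, hn | hn⟩ := m.eq_nat_or_neg
      · have hn1 : 1 ≤ n := by omega
        have hNn : N ≤ N * n := Nat.le_mul_of_pos_right N hn1
        refine (hr (N * n) (by omega) (by omega)).congr' ?_
        filter_upwards [hT2] with p hp
        rw [hn, LF_pos hk N n hp]
      · have hn1 : 1 ≤ n := by omega
        have hNn : N ≤ N * n := Nat.le_mul_of_pos_right N hn1
        have h1 := hr (N * n) (by omega) (by omega)
        have h2 : Tendsto (fun p : ℝ × ℝ => (starRingEnd ℂ) (TW k (N * n) p.1 p.2 / (IM k p.1 p.2 : ℂ))) (Rg δ B) (𝓝 ((starRingEnd ℂ) 0)) :=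
          (Complex.continuous_conj.tendsto _).comp h1
        rw [map_zero] at h2
        refine h2.congr' ?_
        filter_upwards [hT2] with p hp
        rw [hn, LF_neg hk N n hp, map_div₀, Complex.conj_ofReal]
  -- the span
  obtain ⟨P, hP⟩ : ∃ P : C(UnitAddCircle, ℂ) → Prop, P = fun g : C(UnitAddCircle, ℂ) => Tendsto (fun p : ℝ × ℝ => LF k N g p.1 p.2 / (IM k p.1 p.2 : ℂ)) (Rg δ B)
      (𝓝 (∫ x, g x ∂haarAddCircle)) := ⟨_, rfl⟩
  have hspan : ∀ g ∈ Submodule.span ℂ (range (@fourier (1 : ℝ))), P g := by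
    intro g hg
    induction hg using Submodule.span_induction with
    | mem x hx =>
      obtain ⟨m, rfl⟩ := hx
      rw [hP]
      exact hmono m
    | zero =>
      have e : (0 : C(UnitAddCircle, ℂ)) = (0 : ℂ) • (fourier 0 : C(UnitAddCircle, ℂ)) := (zero_smul ℂ (fourier 0 : C(UnitAddCircle, ℂ))).symm
      rw [hP]
      simp only
      have : ∀ p : ℝ × ℝ, LF k N (0 : C(UnitAddCircle, ℂ)) p.1 p.2 / (IM k p.1 p.2 : ℂ) = 0 := by
        intro p
        rw [e, LF_smul, zero_mul, zero_div]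
      simp only [this, ContinuousMap.zero_apply, integral_zero]
      exact tendsto_const_nhds
    | add x y _ _ hx hy =>
      rw [hP] at hx hy ⊢
      simp only at hx hy ⊢
      have e : ∫ z, (x + y) z ∂haarAddCircle = (∫ z, x z ∂haarAddCircle) + ∫ z, y z ∂haarAddCircle := by
        simp only [ContinuousMap.add_apply]
        exact integral_add (x.continuous.integrable_of_hasCompactSupport (HasCompactSupport.of_compactSpace _))
          (y.continuous.integrable_of_hasCompactSupport (HasCompactSupport.of_compactSpace _))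
      rw [e]
      refine (hx.add hy).congr fun p => ?_
      rw [LF_add, add_div]
    | smul a x _ hx =>
      rw [hP] at hx ⊢
      simp only at hx ⊢
      have e : ∫ z, (a • x) z ∂haarAddCircle = a * ∫ z, x z ∂haarAddCircle := by
        simp only [ContinuousMap.smul_apply, smul_eq_mul]
        exact integral_const_mul _ _
      rw [e]
      refine (hx.const_mul a).congr fun p => ?_
      rw [LF_smul, mul_div_assoc]
  -- the closure
  rw [Metric.tendsto_nhds]
  intro ε hε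
  have hmem : f ∈ closure ((Submodule.span ℂ (range (@fourier (1 : ℝ))) : Submodule ℂ C(UnitAddCircle, ℂ)) : Set C(UnitAddCircle, ℂ)) := by
    have h1 := span_fourier_closure_eq_top (T := 1)
    have h2 : f ∈ (Submodule.span ℂ (range (@fourier (1 : ℝ)))).topologicalClosure := by rw [h1]; trivial
    exact h2
  obtain ⟨g, hg, hfg⟩ := Metric.mem_closure_iff.1 hmem (ε / 3) (by positivity)
  have hPg := hspan g hg
  rw [hP] at hPg
  rw [dist_eq_norm] at hfg
  have hgev := (Metric.tendsto_nhds.1 hPg) (ε / 3) (by positivity)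
  filter_upwards [hgev, hpos, hT2] with p h1 h2 h3
  have h4 := LF_norm k N (f - g) (T := p.1) (by linarith) p.2
  rw [LF_sub] at h4
  have h5 : ‖LF k N f p.1 p.2 / (IM k p.1 p.2 : ℂ) - LF k N g p.1 p.2 / (IM k p.1 p.2 : ℂ)‖ ≤ ‖f - g‖ := by
    rw [← sub_div, norm_div, Complex.norm_real, Real.norm_of_nonneg h2.le, div_le_iff₀ h2]
    exact h4
  have h6 : ‖(∫ x, g x ∂haarAddCircle) - ∫ x, f x ∂haarAddCircle‖ ≤ ‖f - g‖ := by
    have e : (∫ x, g x ∂haarAddCircle) - ∫ x, f x ∂haarAddCircle = ∫ x, (g x - f x) ∂haarAddCircle :=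
      (integral_sub (g.continuous.integrable_of_hasCompactSupport (HasCompactSupport.of_compactSpace _))
          (f.continuous.integrable_of_hasCompactSupport (HasCompactSupport.of_compactSpace _))).symm
    rw [e]
    have h7 := norm_integral_le_of_norm_le_const (μ := (haarAddCircle : Measure UnitAddCircle)) (f := fun x => g x - f x) (C := ‖f - g‖)
      (Eventually.of_forall fun x => by
        rw [norm_sub_rev]
        exact (f - g).norm_coe_le_norm x)
    simpa using h7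
  rw [dist_eq_norm] at h1 ⊢
  have e : LF k N f p.1 p.2 / (IM k p.1 p.2 : ℂ) - ∫ x, f x ∂haarAddCircle =
      (LF k N f p.1 p.2 / (IM k p.1 p.2 : ℂ) - LF k N g p.1 p.2 / (IM k p.1 p.2 : ℂ)) +
      (LF k N g p.1 p.2 / (IM k p.1 p.2 : ℂ) - ∫ x, g x ∂haarAddCircle) +
      ((∫ x, g x ∂haarAddCircle) - ∫ x, f x ∂haarAddCircle) := by ring
  rw [e]
  refine lt_of_le_of_lt (norm_add₃_le) ?_
  linarith

end Pool.Agent.N30.MZ
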